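import Pool.Agent.Helper38.GP.Root
import Pool.Agent.Helper38.GP.Stmt
import Pool.Agent.Helper38.EQ.InvFun

/-! Existence of linear projections transversal to finitely many smooth germs. -/

namespace Pool.Agent.Helper38.GP

open MvPowerSeries Pool.Agent.Helper38.EQ

private theorem LinA_cases {n : ℕ} (α : Fin n →₀ ℕ) (h : ∑ i, α i < 2) :
    α = 0 ∨ ∃ j, α = Finsupp.single j 1 := by
  classical
  by_cases h0 : α = 0
  · exact Or.inl h0
  · right
    obtain ⟨j, hj⟩ : ∃ j, α j ≠ 0 := by
      by_contra hcon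
      push Not at hcon
      exact h0 (Finsupp.ext hcon)
    refine ⟨j, ?_⟩
    have h1 : ∑ i, α i = α j + ∑ i ∈ Finset.univ.erase j, α i :=
      (Finset.add_sum_erase _ _ (Finset.mem_univ j)).symm
    ext i
    by_cases hi : i = j
    · rw [hi, Finsupp.single_eq_same]
      omega
    · rw [Finsupp.single_eq_of_ne hi]
      have h2 : α i ≤ ∑ i ∈ Finset.univ.erase j, α i :=
        Finset.single_le_sum (f := fun i => α i) (fun _ _ => Nat.zero_le _)
          (Finset.mem_erase.2 ⟨hi, Finset.mem_univ i⟩)
      omega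

private theorem LinA_mem_sq {n : ℕ} {K : Type} [Field K] (h : MvPowerSeries (Fin n) K)
    (h0 : constantCoeff h = 0) (h1 : ∀ j, coeff (Finsupp.single j 1) h = 0) :
    h ∈ IsLocalRing.maximalIdeal (MvPowerSeries (Fin n) K) ^ 2 := by
  rw [mem_maximalIdeal_pow_iff]
  intro α hα
  rcases LinA_cases α hα with rfl | ⟨j, rfl⟩
  · rw [coeff_zero_eq_constantCoeff_apply]
    exact h0
  · exact h1 j

private theorem LinA_const {n : ℕ} {K : Type} [Field K] (g : MvPowerSeries (Fin n) K) :
    g ∈ IsLocalRing.maximalIdeal (MvPowerSeries (Fin n) K) ↔ constantCoeff g = 0 := by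
  rw [IsLocalRing.mem_maximalIdeal, mem_nonunits_iff, isUnit_iff_constantCoeff,
    isUnit_iff_ne_zero, not_not]

private theorem LinA_sigma {n : ℕ} {K : Type} [Field K] (p : Proj n K)
    (x : MvPowerSeries (Fin (n + 1)) K)
    (hx : x ∈ IsLocalRing.maximalIdeal (MvPowerSeries (Fin (n + 1)) K)) :
    constantCoeff (PowerSeries.coeff 0 (p.σ x)) = 0 := by
  by_contra hcon
  have h1 : IsUnit (PowerSeries.constantCoeff (p.σ x)) := by
    rw [← PowerSeries.coeff_zero_eq_constantCoeff_apply, isUnit_iff_constantCoeff]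
    exact isUnit_iff_ne_zero.2 hcon
  have h2 : IsUnit (p.σ x) := PowerSeries.isUnit_iff_constantCoeff.2 h1
  have h3 : IsUnit x := by
    have h4 := h2.map (p.σ.symm : PowerSeries (R1 n K) →* SL n K)
    have h5 : (p.σ.symm : PowerSeries (R1 n K) →* SL n K) (p.σ x) = x :=
      p.σ.symm_apply_apply x
    rwa [h5] at h4
  exact (IsLocalRing.mem_maximalIdeal x).1 hx h3

theorem Proj.tr_add {n : ℕ} {K : Type} [Field K] (p : Proj n K)
    (h h' : MvPowerSeries (Fin (n + 1)) K) : p.tr (h + h') = p.tr h + p.tr h' := by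
  unfold Proj.tr
  rw [map_add, map_add, map_add]

private theorem LinA_tr_zero {n : ℕ} {K : Type} [Field K] (p : Proj n K) : p.tr 0 = 0 := by
  unfold Proj.tr
  rw [map_zero, map_zero, map_zero]

private theorem LinA_tr_sq {n : ℕ} {K : Type} [Field K] (p : Proj n K)
    (h : MvPowerSeries (Fin (n + 1)) K)
    (hh : h ∈ IsLocalRing.maximalIdeal (MvPowerSeries (Fin (n + 1)) K) ^ 2) : p.tr h = 0 := by
  rw [pow_two] at hh
  induction hh using Submodule.mul_induction_on' with
  | mem_mul_mem x hx y hy =>
    unfold Proj.tr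
    rw [map_mul, PowerSeries.coeff_mul]
    rw [Finset.Nat.sum_antidiagonal_eq_sum_range_succ_mk, Finset.sum_range_succ,
      Finset.sum_range_one, map_add, map_mul, map_mul]
    change constantCoeff (PowerSeries.coeff 0 (p.σ x)) * _ +
      _ * constantCoeff (PowerSeries.coeff 0 (p.σ y)) = 0
    rw [LinA_sigma p x hx, LinA_sigma p y hy, zero_mul, mul_zero, add_zero]
  | add x hx y hy ihx ihy => rw [Proj.tr_add, ihx, ihy, add_zero]

private theorem LinA_tr_C {n : ℕ} {K : Type} [Field K] (p : Proj n K) (a : K) :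
    p.tr (C a) = 0 := by
  have h1 : (C a : MvPowerSeries (Fin (n + 1)) K) = algebraMap K _ a := rfl
  have h2 : p.σ (C a) = PowerSeries.C (C a) := by
    rw [h1, AlgEquiv.commutes, PowerSeries.algebraMap_apply]
    rfl
  unfold Proj.tr
  rw [h2, PowerSeries.coeff_C, if_neg one_ne_zero, map_zero]

private theorem LinA_tr_smul {n : ℕ} {K : Type} [Field K] (p : Proj n K) (a : K)
    (h : MvPowerSeries (Fin (n + 1)) K) : p.tr (C a * h) = a * p.tr h := by
  have h1 : (C a : MvPowerSeries (Fin (n + 1)) K) = algebraMap K _ a := rfl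
  have h2 : p.σ (C a) = PowerSeries.C (C a) := by
    rw [h1, AlgEquiv.commutes, PowerSeries.algebraMap_apply]
    rfl
  unfold Proj.tr
  rw [map_mul, h2, PowerSeries.coeff_C_mul, map_mul, constantCoeff_C]

private theorem LinA_tr_sum {n : ℕ} {K : Type} [Field K] (p : Proj n K) {ι : Type}
    (s : Finset ι) (f : ι → MvPowerSeries (Fin (n + 1)) K) :
    p.tr (∑ i ∈ s, f i) = ∑ i ∈ s, p.tr (f i) := by
  classical
  induction s using Finset.induction_on with
  | empty => rw [Finset.sum_empty, Finset.sum_empty, LinA_tr_zero]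
  | insert a s ha ih => rw [Finset.sum_insert ha, Finset.sum_insert ha, Proj.tr_add, ih]

/-- `p.tr` is the linear part evaluated at the vector `(p.tr (X j))_j`: for `h` in the maximal
ideal (and in general, for `h` minus its constant term). Proof: `h ≡ ∑ h_j X_j` modulo `𝔪 ^ 2`, and
`p.tr` vanishes on `𝔪 ^ 2` (`σ` maps `𝔪 ^ 2` to `𝔪 ^ 2`) and on constants. -/
theorem Proj.tr_eq_lin {n : ℕ} {K : Type} [Field K] (p : Proj n K)
    (h : MvPowerSeries (Fin (n + 1)) K) : p.tr h = lin h (fun j => p.tr (X j)) := by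
  classical
  let q : MvPowerSeries (Fin (n + 1)) K :=
    h - C (constantCoeff h) - ∑ j, C (coeff (Finsupp.single j 1) h) * X j
  have hq : q ∈ IsLocalRing.maximalIdeal (MvPowerSeries (Fin (n + 1)) K) ^ 2 := by
    apply LinA_mem_sq
    · change constantCoeff (h - C (constantCoeff h) -
        ∑ j, C (coeff (Finsupp.single j 1) h) * X j) = 0
      rw [map_sub, map_sub, constantCoeff_C, sub_self, map_sum]
      simp
    · intro i
      change coeff (Finsupp.single i 1) (h - C (constantCoeff h) -
        ∑ j, C (coeff (Finsupp.single j 1) h) * X j) = 0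
      rw [map_sub, map_sub, map_sum]
      have h1 : coeff (Finsupp.single i 1) (C (constantCoeff h) :
          MvPowerSeries (Fin (n + 1)) K) = 0 := by
        rw [coeff_C, if_neg]
        intro h2
        have h3 := DFunLike.congr_fun h2 i
        rw [Finsupp.single_eq_same] at h3
        exact one_ne_zero h3
      have h2 : ∑ j, coeff (Finsupp.single i 1)
          (C (coeff (Finsupp.single j 1) h) * X j : MvPowerSeries (Fin (n + 1)) K) =
          coeff (Finsupp.single i 1) h := by
        rw [Finset.sum_eq_single i]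
        · rw [coeff_C_mul, coeff_X, if_pos rfl, mul_one]
        · intro j _ hj
          rw [coeff_C_mul, coeff_X, if_neg, mul_zero]
          intro h3
          exact hj ((Finsupp.single_left_injective one_ne_zero) h3).symm
        · intro h3
          exact absurd (Finset.mem_univ i) h3
      rw [h1, h2, sub_zero, sub_self]
  have h1 : h = q + C (constantCoeff h) + ∑ j, C (coeff (Finsupp.single j 1) h) * X j := by
    change h = h - C (constantCoeff h) - ∑ j, C (coeff (Finsupp.single j 1) h) * X j +
      C (constantCoeff h) + ∑ j, C (coeff (Finsupp.single j 1) h) * X j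
    ring
  have h2 : p.tr h = p.tr q + p.tr (C (constantCoeff h)) +
      ∑ j, coeff (Finsupp.single j 1) h * p.tr (X j) := by
    conv_lhs => rw [h1]
    rw [Proj.tr_add, Proj.tr_add, LinA_tr_sum]
    congr 1
    exact Finset.sum_congr rfl fun j _ => LinA_tr_smul p _ _
  rw [h2, LinA_tr_sq p q hq, LinA_tr_C, zero_add, zero_add]
  rfl

/-- A series with a nonzero linear part at `v`. -/
theorem exists_lin_of_notMem_sq {n : ℕ} {K : Type} [Field K]
    {h : MvPowerSeries (Fin n) K} (h1 : h ∈ IsLocalRing.maximalIdeal (MvPowerSeries (Fin n) K))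
    (h2 : h ∉ IsLocalRing.maximalIdeal (MvPowerSeries (Fin n) K) ^ 2) : ∃ v, lin h v ≠ 0 := by
  classical
  by_contra hcon
  push Not at hcon
  apply h2
  apply LinA_mem_sq h ((LinA_const h).1 h1)
  intro j
  have h3 := hcon (Pi.single j 1)
  unfold lin at h3
  rw [Finset.sum_eq_single j] at h3
  · rwa [Pi.single_eq_same, mul_one] at h3
  · intro i _ hi
    rw [Pi.single_eq_of_ne hi, mul_zero]
  · intro h4
    exact absurd (Finset.mem_univ j) h4

end Pool.Agent.Helper38.GP
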