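import Pool.Agent.Helper38.GP.Root
import Pool.Agent.Helper38.GP.Stmt
import Pool.Agent.Helper38.EQ.InvFun
import Pool.Agent.Helper38.GP.LinA

/-! Existence of linear projections transversal to finitely many smooth germs. -/

namespace Pool.Agent.Helper38.GP

open MvPowerSeries Pool.Agent.Helper38.EQ

/-- An invertible matrix with given first column. -/
private theorem ExistsLin_matrix {n : ℕ} {K : Type} [Field K] (v : Fin (n + 1) → K) (hv : v ≠ 0) :
    ∃ B : Matrix (Fin (n + 1)) (Fin (n + 1)) K, IsUnit B ∧ ∀ j, B j 0 = v j := by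
  classical
  obtain ⟨j0, hj0⟩ : ∃ j0, v j0 ≠ 0 := by
    by_contra h
    push Not at h
    exact hv (funext h)
  let w : Fin n → (Fin (n + 1) → K) := fun i => Pi.single (j0.succAbove i) 1
  have hw : LinearIndependent K w := by
    have h1 := (Pi.basisFun K (Fin (n + 1))).linearIndependent.comp
      (fun i : Fin n => j0.succAbove i) (Fin.succAbove_right_injective)
    have h2 : (⇑(Pi.basisFun K (Fin (n + 1))) ∘ fun i : Fin n => j0.succAbove i) = w := by
      funext i
      simp [w]
    rwa [h2] at h1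
  have hvw : v ∉ Submodule.span K (Set.range w) := by
    intro h
    have h1 : Submodule.span K (Set.range w) ≤
        LinearMap.ker (LinearMap.proj j0 : (Fin (n + 1) → K) →ₗ[K] K) := by
      rw [Submodule.span_le]
      rintro _ ⟨i, rfl⟩
      rw [SetLike.mem_coe, LinearMap.mem_ker, LinearMap.proj_apply]
      exact Pi.single_eq_of_ne (Fin.succAbove_ne j0 i).symm _
    exact hj0 (h1 h)
  have hlin : LinearIndependent K (Fin.cons v w : Fin (n + 1) → (Fin (n + 1) → K)) :=
    linearIndependent_finCons.mpr ⟨hw, hvw⟩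
  refine ⟨Matrix.of fun j i => (Fin.cons v w : Fin (n + 1) → (Fin (n + 1) → K)) i j, ?_, ?_⟩
  · rw [← Matrix.linearIndependent_cols_iff_isUnit]
    exact hlin
  · intro j
    rfl

/-- For every vector `v ≠ 0` there are coordinates `σ`, with linear parameters
`σ⁻¹ (C (X i)) = ∑ ℓ_ij X_j`, in which `v` spans the fibre direction: `p.tr (X j) = v j`. Proof:
complete `v` to an invertible matrix; `span_eq_of_linear`, `exists_algEquiv` (`EQ/InvFun.lean`),
`finSuccEquiv` (see `ED/ExistsProj.lean` for a similar proof). -/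
theorem exists_proj_of_vec {n : ℕ} {K : Type} [Field K] (v : Fin (n + 1) → K) (hv : v ≠ 0) :
    ∃ p : Proj n K, (∀ j, p.tr (X j) = v j) ∧
      ∀ i : Fin n, ∃ ℓ : Fin (n + 1) → K,
        p.σ.symm (PowerSeries.C (X i)) = ∑ j, C (ℓ j) * X j := by

  classical
  obtain ⟨B, hB, hBv⟩ := ExistsLin_matrix v hv
  have hBdet : IsUnit B.det := (Matrix.isUnit_iff_isUnit_det B).mp hB
  have hBA : B * B⁻¹ = 1 := Matrix.mul_nonsing_inv B hBdet
  have hAdet : (B⁻¹).det ≠ 0 := by
    have h1 := congrArg Matrix.det hBA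
    rw [Matrix.det_mul, Matrix.det_one] at h1
    exact right_ne_zero_of_mul_eq_one h1
  let y : Fin (n + 1) → MvPowerSeries (Fin (n + 1)) K := fun i => ∑ j, C (B⁻¹ i j) * X j
  have hcoeff : ∀ i k : Fin (n + 1), coeff (Finsupp.single k 1) (y i) = B⁻¹ i k := by
    intro i k
    change coeff (Finsupp.single k 1) (∑ j, C (B⁻¹ i j) * X j) = B⁻¹ i k
    rw [map_sum, Finset.sum_eq_single k]
    · rw [coeff_C_mul, coeff_X, if_pos rfl, mul_one]
    · intro j _ hjk
      rw [coeff_C_mul, coeff_X, if_neg, mul_zero]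
      intro h
      exact hjk ((Finsupp.single_left_inj one_ne_zero).mp h).symm
    · intro h
      exact absurd (Finset.mem_univ _) h
  have h0 : ∀ i, constantCoeff (y i) = 0 := by
    intro i
    change constantCoeff (∑ j, C (B⁻¹ i j) * X j) = 0
    rw [map_sum]
    exact Finset.sum_eq_zero fun j _ => by rw [map_mul, constantCoeff_X, mul_zero]
  have hdet : (Matrix.of fun i j => coeff (Finsupp.single j 1) (y i)).det ≠ 0 := by
    have h1 : (Matrix.of fun i j => coeff (Finsupp.single j 1) (y i)) = B⁻¹ := by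
      ext i j
      exact hcoeff i j
    rw [h1]
    exact hAdet
  obtain ⟨τ, hτ⟩ := exists_algEquiv y (span_eq_of_linear y h0 hdet)
  have hτC : ∀ (c : K) (h : MvPowerSeries (Fin (n + 1)) K), τ (C c * h) = C c * τ h := by
    intro c h
    rw [map_mul]
    congr 1
    exact τ.commutes c
  have hτs : ∀ j, τ.symm (X j) = ∑ i, C (B j i) * X i := by
    intro j
    rw [AlgEquiv.symm_apply_eq, map_sum]
    have h1 : ∀ i, τ (C (B j i) * X i) = ∑ k, C (B j i * B⁻¹ i k) * X k := by
      intro i
      rw [hτC, hτ]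
      change C (B j i) * (∑ k, C (B⁻¹ i k) * X k) = _
      rw [Finset.mul_sum]
      refine Finset.sum_congr rfl fun k _ => ?_
      rw [← mul_assoc, ← map_mul]
    simp only [h1]
    rw [Finset.sum_comm]
    have h2 : ∀ k, ∑ i, C (B j i * B⁻¹ i k) * (X k : MvPowerSeries (Fin (n + 1)) K) =
        C ((1 : Matrix (Fin (n + 1)) (Fin (n + 1)) K) j k) * X k := by
      intro k
      rw [← Finset.sum_mul, ← map_sum, ← hBA, Matrix.mul_apply]
    simp only [h2]
    rw [Finset.sum_eq_single j]
    · rw [Matrix.one_apply_eq, map_one, one_mul]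
    · intro k _ hk
      rw [Matrix.one_apply_ne hk.symm, map_zero, zero_mul]
    · intro h
      exact absurd (Finset.mem_univ _) h
  refine ⟨⟨τ.symm.trans (finSuccEquiv K n)⟩, fun j => ?_, fun i => ⟨fun j => B⁻¹ i.succ j, ?_⟩⟩
  · change constantCoeff (PowerSeries.coeff 1 (finSuccEquiv K n (τ.symm (X j)))) = v j
    rw [← coeff_zero_eq_constantCoeff_apply, coeff_coeff_finSuccEquiv, hτs, map_sum,
      Finset.sum_eq_single 0]
    · rw [coeff_C_mul, coeff_X, if_pos, mul_one, hBv]
      ext k
      refine Fin.cases ?_ (fun k => ?_) k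
      · simp
      · simp
    · intro i _ hi
      rw [coeff_C_mul, coeff_X, if_neg, mul_zero]
      intro h
      have h3 := DFunLike.congr_fun h 0
      rw [Finsupp.cons_zero, Finsupp.single_apply, if_neg hi] at h3
      exact one_ne_zero h3
    · intro h
      exact absurd (Finset.mem_univ _) h
  · change τ ((finSuccEquiv K n).symm (PowerSeries.C (X i))) = _
    have h1 : (finSuccEquiv K n).symm (PowerSeries.C (X i)) = X i.succ := by
      rw [AlgEquiv.symm_apply_eq, finSuccEquiv_X_succ]
    rw [h1, hτ]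

/-- The linear form of a power series. -/
private noncomputable def ExistsLin_form {n : ℕ} {K : Type} [Field K]
    (h : MvPowerSeries (Fin n) K) : Module.Dual K (Fin n → K) :=
  ∑ j, coeff (Finsupp.single j 1) h • LinearMap.proj j

private theorem ExistsLin_form_apply {n : ℕ} {K : Type} [Field K]
    (h : MvPowerSeries (Fin n) K) (v : Fin n → K) : ExistsLin_form h v = lin h v := by
  rw [ExistsLin_form, lin, LinearMap.sum_apply]
  rfl

/-- Linear coordinates transversal to finitely many smooth germs: choose `v` outside finitely many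
hyperplanes (`K` is infinite). -/
theorem exists_lin {n m : ℕ} {K : Type} [Field K] [Infinite K]
    (e : Fin m → MvPowerSeries (Fin (n + 1)) K)
    (he : ∀ i, e i ∈ IsLocalRing.maximalIdeal (MvPowerSeries (Fin (n + 1)) K) ∧
      e i ∉ IsLocalRing.maximalIdeal (MvPowerSeries (Fin (n + 1)) K) ^ 2) :
    ∃ p : Proj n K, (∀ i, p.tr (e i) ≠ 0) ∧
      ∀ i : Fin n, ∃ ℓ : Fin (n + 1) → K,
        p.σ.symm (PowerSeries.C (X i)) = ∑ j, C (ℓ j) * X j := by
  classical
  let f : Option (Fin m) → Module.Dual K (Fin (n + 1) → K) := fun o =>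
    match o with
    | none => LinearMap.proj 0
    | some i => ExistsLin_form (e i)
  obtain ⟨v, hv⟩ := Module.Dual.exists_forall_ne_zero_of_forall_exists f (by
    intro o
    match o with
    | none =>
      refine ⟨Pi.single 0 1, ?_⟩
      change (Pi.single 0 1 : Fin (n + 1) → K) 0 ≠ 0
      rw [Pi.single_eq_same]
      exact one_ne_zero
    | some i =>
      obtain ⟨x, hx⟩ := exists_lin_of_notMem_sq (he i).1 (he i).2
      refine ⟨x, ?_⟩
      change ExistsLin_form (e i) x ≠ 0
      rwa [ExistsLin_form_apply])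
  have hv0 : v ≠ 0 := by
    intro h
    apply hv none
    rw [h, map_zero]
  obtain ⟨p, hp1, hp2⟩ := exists_proj_of_vec v hv0
  refine ⟨p, fun i => ?_, hp2⟩
  rw [Proj.tr_eq_lin]
  have h1 : (fun j => p.tr (X j)) = v := funext hp1
  rw [h1, ← ExistsLin_form_apply]
  exact hv (some i)

end Pool.Agent.Helper38.GP
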