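import Pool.Agent.Helper38.GP.Lifts
import Pool.Agent.Helper38.EQ.JungRoots
import Pool.Agent.Helper38.EQ.Discr
import Pool.Agent.Helper38.ED.DiscrProd

/-! The arc extension property: the inductive step. -/

namespace Pool.Agent.Helper38.GP

open MvPowerSeries Pool.Agent.Helper38.EQ

private theorem LiftRoots_index {R : Type} [CommRing R] [IsDomain R] {m : ℕ} {F : Polynomial R}
    (hs : F.Splits) (hF : F.Monic) (hm : F.natDegree = m) :
    ∃ ρ : Fin m → R, F = ∏ i, (Polynomial.X - Polynomial.C (ρ i)) := by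
  have h1 := hs.eq_prod_roots_of_monic hF
  have h2 : Multiset.card F.roots = m := by
    rw [← hm, hs.natDegree_eq_card_roots]
  subst h2
  refine ⟨fun i => F.roots.toList.get (Fin.cast (Multiset.length_toList _).symm i), ?_⟩
  have h3 : (F.roots.map (Polynomial.X - Polynomial.C ·)).prod =
      ((F.roots.toList).map (Polynomial.X - Polynomial.C ·)).prod := by
    conv_lhs => rw [← Multiset.coe_toList F.roots]
    rw [Multiset.map_coe, Multiset.prod_coe]
  rw [h3] at h1
  conv_lhs => rw [h1]
  rw [← List.prod_ofFn]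
  congr 1
  apply List.ext_get
  · rw [List.length_map, List.length_ofFn, Multiset.length_toList]
  · intro n h4 h5
    simp

private theorem LiftRoots_local {S : Type} [CommRing S] [IsLocalRing S] {F : Polynomial S}
    (hF : F.IsDistinguishedAt (IsLocalRing.maximalIdeal S)) {x : S} (hx : F.eval x = 0) :
    x ∈ IsLocalRing.maximalIdeal S := by
  have h1 := hF.toIsWeaklyEisensteinAt.pow_natDegree_le_of_root_of_monic_mem
    (show F.IsRoot x from hx) hF.monic F.natDegree le_rfl
  exact (IsLocalRing.maximalIdeal.isMaximal S).isPrime.mem_of_pow_mem _ h1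

/-- The roots of `F` along a family of arcs, after a ramification. Let `Γ_y` be a family with
`Γ_y (discr F)` dividing a power of `s`. By `jung_splits` (`EQ/JungRoots.lean`;
`discr_map` in `EQ/Discr.lean`), after `s ↦ s ^ N` the polynomial `F` mapped by `Γ_y` is
`∏ (T - ρ_i)`; as it is distinguished, `ρ_i ∈ 𝔪`; and as the discriminant is, up to a sign, the
product of all `ρ_i - ρ_j`, `i ≠ j` (`discr_prod` in `ED/DiscrProd.lean`), each difference is a power
of `s` up to a unit. -/
theorem exists_roots {n d : ℕ} {K : Type} [Field K] [IsAlgClosed K] [CharZero K]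
    {F : Polynomial (MvPowerSeries (Fin n) K)}
    (hF : F.IsDistinguishedAt (IsLocalRing.maximalIdeal (MvPowerSeries (Fin n) K)))
    (Γ : MvPowerSeries (Fin n) K →ₐ[K] WS d K)
    (hloc : ∀ x ∈ IsLocalRing.maximalIdeal (MvPowerSeries (Fin n) K),
      Γ x ∈ IsLocalRing.maximalIdeal (WS d K))
    {k : ℕ} (hk : Γ F.discr ∣ PowerSeries.X ^ k) :
    ∃ (N : ℕ) (hN : N ≠ 0) (ρ : Fin F.natDegree → WS d K),
      F.map ((PowerSeries.expand N hN : WS d K →ₐ[MvPowerSeries (Fin d) K] WS d K).toRingHom.comp
        (Γ : MvPowerSeries (Fin n) K →+* WS d K)) = ∏ i, (Polynomial.X - Polynomial.C (ρ i)) ∧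
      (∀ i, ρ i ∈ IsLocalRing.maximalIdeal (WS d K)) ∧
      ∀ i j, i ≠ j → ∃ e, Associated (ρ i - ρ j) (PowerSeries.X ^ e) := by
  classical
  rcases Nat.eq_zero_or_pos F.natDegree with h0 | hpos
  · have hF1 : F = 1 := hF.monic.natDegree_eq_zero.1 h0
    have hemp : IsEmpty (Fin F.natDegree) := by
      rw [h0]
      exact Fin.isEmpty
    refine ⟨1, one_ne_zero, fun i => isEmptyElim i, ?_, fun i => isEmptyElim i,
      fun i => isEmptyElim i⟩
    rw [Finset.univ_eq_empty, Finset.prod_empty, hF1, Polynomial.map_one]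
  · have hd1 : (F.map (Γ : MvPowerSeries (Fin n) K →+* WS d K)).discr = Γ F.discr :=
      discr_map _ F hF.monic hpos
    obtain ⟨e, he⟩ := assoc_of_dvd_X_pow hk
    obtain ⟨U, hU⟩ := he.symm
    obtain ⟨N, hN, hs⟩ := jung_splits (F.map (Γ : MvPowerSeries (Fin n) K →+* WS d K))
      (hF.monic.map _) e U (by rw [hd1, ← hU]) U.isUnit
    rw [Polynomial.map_map] at hs
    have hmon : (F.map ((PowerSeries.expand N hN :
        WS d K →ₐ[MvPowerSeries (Fin d) K] WS d K).toRingHom.comp
        (Γ : MvPowerSeries (Fin n) K →+* WS d K))).Monic := hF.monic.map _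
    obtain ⟨ρ, hρ⟩ := LiftRoots_index hs hmon (hF.monic.natDegree_map _)
    have hexp : ∀ x ∈ IsLocalRing.maximalIdeal (WS d K),
        (PowerSeries.expand N hN : WS d K →ₐ[MvPowerSeries (Fin d) K] WS d K) x ∈
          IsLocalRing.maximalIdeal (WS d K) := by
      intro x hx
      rw [IsLocalRing.mem_maximalIdeal, mem_nonunits_iff] at hx ⊢
      rw [PowerSeries.isUnit_iff_constantCoeff] at hx ⊢
      rwa [PowerSeries.constantCoeff_expand]
    have hdist : (F.map ((PowerSeries.expand N hN :
        WS d K →ₐ[MvPowerSeries (Fin d) K] WS d K).toRingHom.comp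
        (Γ : MvPowerSeries (Fin n) K →+* WS d K))).IsDistinguishedAt
          (IsLocalRing.maximalIdeal (WS d K)) := by
      refine ⟨⟨?_⟩, hmon⟩
      intro i hi
      rw [hF.monic.natDegree_map] at hi
      rw [Polynomial.coeff_map]
      exact hexp _ (hloc _ (hF.mem hi))
    refine ⟨N, hN, ρ, hρ, ?_, ?_⟩
    · intro i
      apply LiftRoots_local hdist
      rw [hρ, Polynomial.eval_prod]
      apply Finset.prod_eq_zero (Finset.mem_univ i)
      rw [Polynomial.eval_sub, Polynomial.eval_X, Polynomial.eval_C, sub_self]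
    · intro i j hij
      have hd2 : (F.map ((PowerSeries.expand N hN :
          WS d K →ₐ[MvPowerSeries (Fin d) K] WS d K).toRingHom.comp
          (Γ : MvPowerSeries (Fin n) K →+* WS d K))).discr =
          (PowerSeries.expand N hN : WS d K →ₐ[MvPowerSeries (Fin d) K] WS d K) (Γ F.discr) :=
        discr_map _ F hF.monic hpos
      have hd3 : (∏ i, (Polynomial.X - Polynomial.C (ρ i))).discr ∣
          PowerSeries.X ^ (N * k) := by
        rw [← hρ, hd2, pow_mul, ← PowerSeries.expand_X N hN, ← map_pow]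
        exact map_dvd _ hk
      have hd4 : ρ i - ρ j ∣ ∏ i, ∏ j ∈ Finset.univ.filter (fun j => j ≠ i), (ρ i - ρ j) := by
        refine dvd_trans ?_ (Finset.dvd_prod_of_mem
          (fun i => ∏ j ∈ Finset.univ.filter (fun j => j ≠ i), (ρ i - ρ j)) (Finset.mem_univ i))
        exact Finset.dvd_prod_of_mem (fun j => ρ i - ρ j)
          (Finset.mem_filter.2 ⟨Finset.mem_univ j, hij.symm⟩)
      have hd5 := Pool.Agent.Helper38.ED.discr_prod ρ
      exact assoc_of_dvd_X_pow ((hd4.trans hd5.symm.dvd).trans hd3)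

end Pool.Agent.Helper38.GP
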