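import Pool.Agent.Helper38.GP.Lifts
import Pool.Agent.Helper38.EQ.JungRoots
import Pool.Agent.Helper38.EQ.Discr
import Pool.Agent.Helper38.GP.LiftRoots

/-! The arc extension property: the inductive step. -/

namespace Pool.Agent.Helper38.GP

open MvPowerSeries Pool.Agent.Helper38.EQ

/-- Constants, as a homomorphism of `K`-algebras. -/
private noncomputable def LiftStep_cA (n : ℕ) (K : Type) [Field K] :
    MvPowerSeries (Fin n) K →ₐ[K] PowerSeries (MvPowerSeries (Fin n) K) :=
  { (PowerSeries.C : MvPowerSeries (Fin n) K →+* PowerSeries (MvPowerSeries (Fin n) K)) with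
    commutes' := fun a => by
      rw [IsScalarTower.algebraMap_apply K (MvPowerSeries (Fin n) K)
        (PowerSeries (MvPowerSeries (Fin n) K))]
      rfl }

private noncomputable def LiftStep_om (d : ℕ) (K : Type) [Field K] : WS d K →ₐ[K] PowerSeries K :=
  { om d K with
    commutes' := fun a => by
      rw [IsScalarTower.algebraMap_apply K (MvPowerSeries (Fin d) K) (WS d K)]
      show PowerSeries.map _ (PowerSeries.C (C a)) = PowerSeries.C a
      rw [PowerSeries.map_C, constantCoeff_C] }

private noncomputable def LiftStep_cc (d : ℕ) (K : Type) [Field K] : WS d K →ₐ[K] K :=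
  { (constantCoeff (σ := Fin d) (R := K)).comp
      (PowerSeries.constantCoeff (R := MvPowerSeries (Fin d) K)) with
    commutes' := fun a => by
      rw [IsScalarTower.algebraMap_apply K (MvPowerSeries (Fin d) K) (WS d K)]
      have h1 : algebraMap (MvPowerSeries (Fin d) K) (WS d K)
        (algebraMap K (MvPowerSeries (Fin d) K) a) = PowerSeries.C (C a) := rfl
      rw [h1]
      show (constantCoeff (σ := Fin d) (R := K)) (PowerSeries.constantCoeff
        (R := MvPowerSeries (Fin d) K) (PowerSeries.C (C a))) = a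
      rw [PowerSeries.constantCoeff_C, constantCoeff_C] }

private noncomputable def LiftStep_cK (K : Type) [Field K] : PowerSeries K →ₐ[K] K :=
  { (PowerSeries.constantCoeff (R := K)) with
    commutes' := fun a => by
      show PowerSeries.constantCoeff (PowerSeries.C a) = a
      rw [PowerSeries.constantCoeff_C] }

private theorem LiftStep_mem_K {K : Type} [Field K] (x : PowerSeries K) :
    x ∈ IsLocalRing.maximalIdeal (PowerSeries K) ↔ PowerSeries.constantCoeff x = 0 := by
  rw [IsLocalRing.mem_maximalIdeal, mem_nonunits_iff, PowerSeries.isUnit_iff_constantCoeff,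
    isUnit_iff_ne_zero, not_not]

private theorem LiftStep_mem_WS {d : ℕ} {K : Type} [Field K] (x : WS d K) :
    x ∈ IsLocalRing.maximalIdeal (WS d K) ↔
      constantCoeff (PowerSeries.constantCoeff x) = 0 := by
  rw [IsLocalRing.mem_maximalIdeal, mem_nonunits_iff, PowerSeries.isUnit_iff_constantCoeff,
    MvPowerSeries.isUnit_iff_constantCoeff, isUnit_iff_ne_zero, not_not]

/-- The step. Proof. Let `I' = comap C (map σ I)`.
(1) For an arc `γ` not vanishing on `f * σ⁻¹ (C (g * G))` let `γ_y = γ ∘ σ⁻¹ ∘ C`; then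
`γ_y G ≠ 0`, and `hL` gives `q` and `Γ_y`. As `g ^ k ∈ (discr F)` for some `k` (`hg`),
`Γ_y (discr F)` divides a power of `s`.
(2) `exists_roots` gives `N` and `ρ_i`. Put `Γ_y' = expand N ∘ Γ_y` and
`θ = expand (q * N) (γ (σ⁻¹ X))`. By `eval_coe` for `expand (q * N) ∘ γ ∘ σ⁻¹`, the product of the
`θ - om ρ_i` is the image of `F`, a unit times the image of `f`, which is not `0`: so
`θ ≠ om ρ_i` for all `i`.
(3) `interp` gives `i₀`; `Θ = ρ_{i₀} + io (θ - om ρ_{i₀})`, in the maximal ideal (`hom_mem`), with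
`om Θ = θ`. (For `hρ`: `i = j` or the third part of `exists_roots`.)
(4) `exists_extend`: `Γ' (C y) = Γ_y' y`, `Γ' X = Θ`; `Γ = Γ' ∘ σ`. By `hom_ext'`,
`om ∘ Γ' = expand (q * N) ∘ γ ∘ σ⁻¹`, the first property of `Γ`.
(5) `Γ f` is a unit times `Γ' F = ∏ (Θ - ρ_i)` (`eval_coe`), a power of `s` up to a unit.
(6) Let `χ = constantCoeff ∘ Γ'`. On `C y` it is the constant coefficient of `Γ_y y`, which is `0` iff
`y ∈ I'`. `χ X` is the constant coefficient of `ρ_{i₀}` (as `θ - om ρ_{i₀}` is in the maximal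
ideal of `K⟦s⟧`). All the `ρ_i` have the same constant coefficient `r₀` (the differences are in the
maximal ideal and are powers of `s` up to units, so divisible by `s`). `F` is in `map σ I` (`hfI`),
so `F(τ) ∈ I'` (as `C (F(τ)) - F` is divisible by `X - C τ`), so
`0 = χ (C (F(τ))) = ∏ (χ (C τ) - r₀)`, and `χ (C τ) = r₀ = χ X` (`hm`).
(7) Every `y` in `K⟦y⟧⟦t⟧` is `C y₀ + (X - C τ) z` (Weierstrass division, see `SecBasic`), and
`X - C τ ∈ map σ I`, `χ (X - C τ) = 0`: so `y ∈ map σ I ↔ y₀ ∈ I' ↔ χ (C y₀) = 0 ↔ χ y = 0`,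
the second property of `Γ`. -/
theorem lifts_step {n d : ℕ} {K : Type} [Field K] [IsAlgClosed K] [CharZero K]
    (σ : MvPowerSeries (Fin (n + 1)) K ≃ₐ[K] PowerSeries (MvPowerSeries (Fin n) K))
    {f : MvPowerSeries (Fin (n + 1)) K} {F : Polynomial (MvPowerSeries (Fin n) K)}
    (hF : IsWPoly (σ f) F) {g : MvPowerSeries (Fin n) K} (hg : IsReducedDiscr F g)
    {I : Ideal (MvPowerSeries (Fin (n + 1)) K)} (hfI : f ∈ I)
    {τ : MvPowerSeries (Fin n) K}
    (hτ0 : τ ∈ IsLocalRing.maximalIdeal (MvPowerSeries (Fin n) K))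
    (hτ : PowerSeries.X - PowerSeries.C τ ∈ Ideal.map σ I)
    (hm : F.natDegree ≠ 0)
    {G : MvPowerSeries (Fin n) K}
    (hL : Lifts d g (Ideal.comap (PowerSeries.C (R := MvPowerSeries (Fin n) K))
      (Ideal.map σ I)) G) :
    Lifts d f I (f * σ.symm (PowerSeries.C (g * G))) := by
  classical
  obtain ⟨hG0, hg0, hLA⟩ := hL
  obtain ⟨U, hU⟩ := hF
  have hσf : σ f = (F : PowerSeries (MvPowerSeries (Fin n) K)) * U := hU.eq_mul
  have hFmon : F.Monic := hU.isDistinguishedAt.monic
  have hF0 : (F : PowerSeries (MvPowerSeries (Fin n) K)) ≠ 0 := by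
    rw [Ne, Polynomial.coe_eq_zero_iff]
    exact hFmon.ne_zero
  have hf0 : f ≠ 0 := by
    intro h0
    rw [h0, map_zero] at hσf
    rcases mul_eq_zero.mp hσf.symm with h | h
    · exact hF0 h
    · exact hU.isUnit.ne_zero h
  refine ⟨?_, hf0, ?_⟩
  · refine mul_ne_zero hf0 ?_
    rw [Ne, map_eq_zero_iff _ σ.symm.injective, map_eq_zero_iff _ PowerSeries.C_injective]
    exact mul_ne_zero hg0 hG0
  intro γ hγ
  rw [map_mul] at hγ
  have hγf : γ f ≠ 0 := left_ne_zero_of_mul hγ
  have hγG : γ (σ.symm (PowerSeries.C (g * G))) ≠ 0 := right_ne_zero_of_mul hγ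
  let γσ : PowerSeries (MvPowerSeries (Fin n) K) →ₐ[K] PowerSeries K :=
    γ.comp (σ.symm : PowerSeries (MvPowerSeries (Fin n) K) →ₐ[K] MvPowerSeries (Fin (n + 1)) K)
  let γy : MvPowerSeries (Fin n) K →ₐ[K] PowerSeries K := γσ.comp (LiftStep_cA n K)
  have hγyG : γy G ≠ 0 := by
    have h1 : γ (σ.symm (PowerSeries.C (g * G))) = γy g * γy G := by
      rw [← map_mul]; rfl
    rw [h1] at hγG
    exact right_ne_zero_of_mul hγG
  obtain ⟨q, hq, Γy, hom1, hcc, M, hM⟩ := hLA γy hγyG
  have hΓloc : ∀ x ∈ IsLocalRing.maximalIdeal (MvPowerSeries (Fin n) K),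
      Γy x ∈ IsLocalRing.maximalIdeal (WS d K) := fun x hx => hom_mem (LiftStep_cc d K) Γy hx
  obtain ⟨k, hk⟩ : ∃ k, Γy F.discr ∣ PowerSeries.X ^ k := by
    have h1 : g ∈ (Ideal.span {F.discr}).radical := by
      rw [← hg]; exact Ideal.mem_span_singleton_self g
    obtain ⟨k, hk⟩ := h1
    rw [Ideal.mem_span_singleton] at hk
    refine ⟨M * k, ?_⟩
    have h2 : Γy F.discr ∣ Γy g ^ k := by
      rw [← map_pow]; exact map_dvd Γy hk
    refine h2.trans ?_
    rw [pow_mul]
    exact (hM.pow_pow (n := k)).dvd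
  obtain ⟨N, hN, ρ, hprod, hρm, hρd⟩ := exists_roots hU.isDistinguishedAt Γy hΓloc hk
  have hNq : N * q ≠ 0 := N.mul_ne_zero hN hq
  let Γy' : MvPowerSeries (Fin n) K →ₐ[K] WS d K :=
    ((PowerSeries.expand N hN : WS d K →ₐ[MvPowerSeries (Fin d) K] WS d K).restrictScalars K).comp
      Γy
  have hΓy' : ∀ y, Γy' y = PowerSeries.expand N hN (Γy y) := fun y => rfl
  let δ : PowerSeries (MvPowerSeries (Fin n) K) →ₐ[K] PowerSeries K :=
    (PowerSeries.expand (N * q) hNq : PowerSeries K →ₐ[K] PowerSeries K).comp γσ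
  have hδ : ∀ y, δ (PowerSeries.C y) = om d K (Γy' y) := by
    intro y
    have h1 : om d K (Γy' y) = PowerSeries.expand N hN (om d K (Γy y)) := by
      rw [hΓy', om, PowerSeries.map_expand]
    rw [h1, hom1, ← PowerSeries.expand_mul N hN q hq]
    rfl
  have hXm : (PowerSeries.X : PowerSeries (MvPowerSeries (Fin n) K)) ∈
      IsLocalRing.maximalIdeal (PowerSeries (MvPowerSeries (Fin n) K)) := by
    rw [IsLocalRing.mem_maximalIdeal, mem_nonunits_iff, PowerSeries.isUnit_iff_constantCoeff,
      PowerSeries.constantCoeff_X]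
    exact not_isUnit_zero
  have hσloc : ∀ x ∈ IsLocalRing.maximalIdeal (PowerSeries (MvPowerSeries (Fin n) K)),
      σ.symm x ∈ IsLocalRing.maximalIdeal (MvPowerSeries (Fin (n + 1)) K) := by
    intro x hx
    rw [IsLocalRing.mem_maximalIdeal, mem_nonunits_iff] at hx ⊢
    intro h
    apply hx
    have := h.map σ
    rwa [AlgEquiv.apply_symm_apply] at this
  have hδloc : ∀ x ∈ IsLocalRing.maximalIdeal (PowerSeries (MvPowerSeries (Fin n) K)),
      δ x ∈ IsLocalRing.maximalIdeal (PowerSeries K) := by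
    intro x hx
    have h1 : γσ x ∈ IsLocalRing.maximalIdeal (PowerSeries K) :=
      hom_mem (LiftStep_cK K) γ (hσloc x hx)
    rw [LiftStep_mem_K] at h1 ⊢
    show PowerSeries.constantCoeff (PowerSeries.expand (N * q) hNq (γσ x)) = 0
    rw [PowerSeries.constantCoeff_expand, h1]
  have hCloc : ∀ y ∈ IsLocalRing.maximalIdeal (MvPowerSeries (Fin n) K),
      PowerSeries.C y ∈ IsLocalRing.maximalIdeal (PowerSeries (MvPowerSeries (Fin n) K)) := by
    intro y hy
    rw [IsLocalRing.mem_maximalIdeal, mem_nonunits_iff] at hy ⊢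
    rwa [PowerSeries.isUnit_iff_constantCoeff, PowerSeries.constantCoeff_C]
  set θ : PowerSeries K := δ PowerSeries.X with hθdef
  have hθm : PowerSeries.constantCoeff θ = 0 := (LiftStep_mem_K _).mp (hδloc _ hXm)
  -- the image of `F`
  have hδF : δ (F : PowerSeries (MvPowerSeries (Fin n) K)) = ∏ i, (θ - om d K (ρ i)) := by
    rw [eval_coe]
    have h1 : ((δ : PowerSeries (MvPowerSeries (Fin n) K) →+* PowerSeries K).comp
        PowerSeries.C) = (om d K).comp
        ((PowerSeries.expand N hN : WS d K →ₐ[MvPowerSeries (Fin d) K] WS d K).toRingHom.comp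
        (Γy : MvPowerSeries (Fin n) K →+* WS d K)) := by
      ext1 y
      exact hδ y
    rw [h1, ← Polynomial.map_map, hprod, Polynomial.map_prod, Polynomial.eval_prod]
    refine Finset.prod_congr rfl fun i _ => ?_
    rw [Polynomial.map_sub, Polynomial.map_X, Polynomial.map_C, Polynomial.eval_sub,
      Polynomial.eval_X, Polynomial.eval_C]
  have hδF0 : δ (F : PowerSeries (MvPowerSeries (Fin n) K)) ≠ 0 := by
    have h1 : δ (σ f) ≠ 0 := by
      show PowerSeries.expand (N * q) hNq (γ (σ.symm (σ f))) ≠ 0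
      rw [AlgEquiv.symm_apply_apply]
      intro h0
      apply hγf
      have h2 : (PowerSeries.expand (N * q) hNq (γ f)) = 0 := h0
      ext m
      have h3 := congrArg (PowerSeries.coeff (N * q * m)) h2
      rwa [PowerSeries.coeff_expand_mul] at h3
    rw [hσf, map_mul] at h1
    exact left_ne_zero_of_mul h1
  have hθρ : ∀ i, θ ≠ om d K (ρ i) := by
    intro i h0
    apply hδF0
    rw [hδF]
    exact Finset.prod_eq_zero (Finset.mem_univ i) (sub_eq_zero.mpr h0)
  obtain ⟨i₀, hi₀⟩ := interp hm ρ (fun i j => by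
    by_cases hij : i = j
    · left; rw [hij]
    · right; exact hρd i j hij) θ hθρ
  set Θ : WS d K := ρ i₀ + io d K (θ - om d K (ρ i₀)) with hΘdef
  have hcom : ∀ x : WS d K, PowerSeries.constantCoeff (om d K x) =
      constantCoeff (PowerSeries.constantCoeff x) := by
    intro x
    rw [om, ← PowerSeries.coeff_zero_eq_constantCoeff_apply, PowerSeries.coeff_map,
      PowerSeries.coeff_zero_eq_constantCoeff_apply]
  have hcio : ∀ x : PowerSeries K, PowerSeries.constantCoeff (io d K x) =
      C (PowerSeries.constantCoeff x) := by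
    intro x
    rw [io, ← PowerSeries.coeff_zero_eq_constantCoeff_apply, PowerSeries.coeff_map,
      PowerSeries.coeff_zero_eq_constantCoeff_apply]
  have hΘc : PowerSeries.constantCoeff Θ = PowerSeries.constantCoeff (ρ i₀) := by
    rw [hΘdef, map_add, hcio, map_sub, hcom, hθm, (LiftStep_mem_WS _).mp (hρm i₀), sub_zero,
      map_zero, add_zero]
  have hΘm : Θ ∈ IsLocalRing.maximalIdeal (WS d K) := by
    rw [LiftStep_mem_WS, hΘc]
    exact (LiftStep_mem_WS _).mp (hρm i₀)
  have hΘom : om d K Θ = θ := by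
    rw [hΘdef, map_add, om_io]
    ring
  obtain ⟨Γ', hΓ'C, hΓ'X⟩ := exists_extend Γy' Θ hΘm
  have hΓ'F : Γ' (F : PowerSeries (MvPowerSeries (Fin n) K)) = ∏ i, (Θ - ρ i) := by
    rw [eval_coe]
    have h1 : ((Γ' : PowerSeries (MvPowerSeries (Fin n) K) →+* WS d K).comp
        PowerSeries.C) =
        ((PowerSeries.expand N hN : WS d K →ₐ[MvPowerSeries (Fin d) K] WS d K).toRingHom.comp
        (Γy : MvPowerSeries (Fin n) K →+* WS d K)) := by
      ext1 y
      exact hΓ'C y
    rw [h1, hprod, Polynomial.eval_prod]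
    refine Finset.prod_congr rfl fun i _ => ?_
    rw [Polynomial.eval_sub, Polynomial.eval_X, Polynomial.eval_C, hΓ'X]
  refine ⟨N * q, hNq, Γ'.comp (σ : MvPowerSeries (Fin (n + 1)) K →ₐ[K]
    PowerSeries (MvPowerSeries (Fin n) K)), ?_, ?_, ?_⟩
  · -- restriction to `w = 0`
    have h1 : (LiftStep_om d K).comp Γ' = δ := by
      refine hom_ext' _ _ ?_ ?_ ?_ ?_
      · show om d K (Γ' PowerSeries.X) ∈ _
        rw [hΓ'X, hΘom]
        exact hδloc _ hXm
      · intro i
        show om d K (Γ' (PowerSeries.C (X i))) ∈ _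
        rw [hΓ'C, ← hδ]
        refine hδloc _ (hCloc _ ?_)
        rw [mem_maximalIdeal_iff_constantCoeff, constantCoeff_X]
      · show om d K (Γ' PowerSeries.X) = _
        rw [hΓ'X, hΘom]
      · intro i
        show om d K (Γ' (PowerSeries.C (X i))) = _
        rw [hΓ'C, ← hδ]
    intro x
    show (LiftStep_om d K).comp Γ' (σ x) = _
    rw [h1]
    show PowerSeries.expand (N * q) hNq (γ (σ.symm (σ x))) = _
    rw [AlgEquiv.symm_apply_apply]
  · -- the origins
    let χ : PowerSeries (MvPowerSeries (Fin n) K) →+* MvPowerSeries (Fin d) K :=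
      (PowerSeries.constantCoeff (R := MvPowerSeries (Fin d) K)).comp
        (Γ' : PowerSeries (MvPowerSeries (Fin n) K) →+* WS d K)
    have hχC : ∀ y, χ (PowerSeries.C y) = PowerSeries.constantCoeff (Γy y) := by
      intro y
      show PowerSeries.constantCoeff (Γ' (PowerSeries.C y)) = _
      rw [hΓ'C, hΓy', PowerSeries.constantCoeff_expand]
    have hχC0 : ∀ y, χ (PowerSeries.C y) = 0 ↔ PowerSeries.C y ∈ Ideal.map σ I := by
      intro y
      rw [hχC, hcc, Ideal.mem_comap]
    have hχX : χ PowerSeries.X = PowerSeries.constantCoeff (ρ i₀) := by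
      show PowerSeries.constantCoeff (Γ' PowerSeries.X) = _
      rw [hΓ'X, hΘc]
    obtain ⟨ε, hεC, hεX, hεd⟩ := Pool.Agent.Helper38.ED.exists_eval τ hτ0
    -- all roots have the same origin
    have hsame : ∀ i, PowerSeries.constantCoeff (ρ i) = PowerSeries.constantCoeff (ρ i₀) := by
      intro i
      by_cases hi : i = i₀
      · rw [hi]
      obtain ⟨e, he⟩ := hρd i i₀ hi
      have he0 : e ≠ 0 := by
        rintro rfl
        rw [pow_zero] at he
        have h1 : IsUnit (ρ i - ρ i₀) := by
          rw [← associated_one_iff_isUnit]; exact he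
        exact (IsLocalRing.mem_maximalIdeal _).mp (Ideal.sub_mem _ (hρm i) (hρm i₀)) h1
      have h1 : (PowerSeries.X : WS d K) ∣ ρ i - ρ i₀ := (dvd_pow_self _ he0).trans he.symm.dvd
      rw [PowerSeries.X_dvd_iff, map_sub, sub_eq_zero] at h1
      exact h1
    have hFI : (F : PowerSeries (MvPowerSeries (Fin n) K)) ∈ Ideal.map σ I := by
      have h1 : σ f ∈ Ideal.map σ I := Ideal.mem_map_of_mem _ hfI
      rw [hσf] at h1
      exact (Ideal.mul_unit_mem_iff_mem _ hU.isUnit).mp h1
    have hεF : PowerSeries.C (ε (F : PowerSeries (MvPowerSeries (Fin n) K))) ∈ Ideal.map σ I := by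
      obtain ⟨w, hw⟩ := hεd (F : PowerSeries (MvPowerSeries (Fin n) K))
      have h1 : PowerSeries.C (ε (F : PowerSeries (MvPowerSeries (Fin n) K))) =
          (F : PowerSeries (MvPowerSeries (Fin n) K)) -
          (PowerSeries.X - PowerSeries.C τ) * w := by
        rw [eq_sub_iff_add_eq]; exact hw.symm
      rw [h1]
      exact Ideal.sub_mem _ hFI (Ideal.mul_mem_right _ _ hτ)
    have hχτ : χ (PowerSeries.C τ) = PowerSeries.constantCoeff (ρ i₀) := by
      have h1 : χ (PowerSeries.C (ε (F : PowerSeries (MvPowerSeries (Fin n) K)))) = 0 :=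
        (hχC0 _).mpr hεF
      have h2 : χ (PowerSeries.C (ε (F : PowerSeries (MvPowerSeries (Fin n) K)))) =
          ∏ i, (χ (PowerSeries.C τ) - PowerSeries.constantCoeff (ρ i)) := by
        have h3 : ε (F : PowerSeries (MvPowerSeries (Fin n) K)) = F.eval τ := by
          have h4 : ((F : PowerSeries (MvPowerSeries (Fin n) K))) =
              F.eval₂ PowerSeries.C PowerSeries.X := by
            conv_lhs => rw [← Polynomial.eval₂_C_X (p := F)]
            rw [← Polynomial.coeToPowerSeries.ringHom_apply, Polynomial.hom_eval₂]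
            congr 1
            · ext1 a
              rw [RingHom.comp_apply, Polynomial.coeToPowerSeries.ringHom_apply,
                Polynomial.coe_C]
            · rw [Polynomial.coeToPowerSeries.ringHom_apply, Polynomial.coe_X]
          rw [h4, Polynomial.hom_eval₂, hεX]
          have h5 : ε.comp PowerSeries.C = RingHom.id _ := by
            ext1 a; exact hεC a
          rw [h5]
          rfl
        rw [h3]
        have h6 : χ (PowerSeries.C (F.eval τ)) =
            PowerSeries.constantCoeff ((F.map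
              ((PowerSeries.expand N hN : WS d K →ₐ[MvPowerSeries (Fin d) K] WS d K).toRingHom.comp
              (Γy : MvPowerSeries (Fin n) K →+* WS d K))).eval
              (PowerSeries.expand N hN (Γy τ))) := by
          rw [hχC, ← PowerSeries.constantCoeff_expand N hN, Polynomial.eval_map]
          congr 1
          rw [← Polynomial.eval₂_id (p := F), Polynomial.eval₂_eq_eval_map, Polynomial.map_id]
          exact (Polynomial.eval₂_at_apply
            ((PowerSeries.expand N hN : WS d K →ₐ[MvPowerSeries (Fin d) K] WS d K).toRingHom.comp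
              (Γy : MvPowerSeries (Fin n) K →+* WS d K)) τ).symm
        rw [h6, hprod, Polynomial.eval_prod, map_prod]
        refine Finset.prod_congr rfl fun i _ => ?_
        rw [Polynomial.eval_sub, Polynomial.eval_X, Polynomial.eval_C, map_sub, hχC,
          PowerSeries.constantCoeff_expand]
      rw [h1] at h2
      have h3 : ∏ i : Fin F.natDegree, (χ (PowerSeries.C τ) - PowerSeries.constantCoeff (ρ i)) =
          (χ (PowerSeries.C τ) - PowerSeries.constantCoeff (ρ i₀)) ^ F.natDegree := by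
        rw [Finset.prod_congr rfl fun i _ => by rw [hsame i], Finset.prod_const,
          Finset.card_univ, Fintype.card_fin]
      rw [h3] at h2
      exact sub_eq_zero.mp (pow_eq_zero_iff hm |>.mp h2.symm)
    intro x
    show χ (σ x) = 0 ↔ x ∈ I
    obtain ⟨w, hw⟩ := hεd (σ x)
    have h1 : χ (σ x) = χ (PowerSeries.C (ε (σ x))) := by
      conv_lhs => rw [hw]
      rw [map_add, map_mul, map_sub, hχX, hχτ, sub_self, zero_mul, add_zero]
    have h2 : σ x ∈ Ideal.map σ I ↔ PowerSeries.C (ε (σ x)) ∈ Ideal.map σ I := by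
      have h3 : σ x - PowerSeries.C (ε (σ x)) ∈ Ideal.map σ I := by
        have h4 : σ x - PowerSeries.C (ε (σ x)) = (PowerSeries.X - PowerSeries.C τ) * w := by
          rw [sub_eq_iff_eq_add']; exact hw
        rw [h4]
        exact Ideal.mul_mem_right _ _ hτ
      constructor
      · intro h
        have := Ideal.sub_mem _ h h3
        rwa [sub_sub_cancel] at this
      · intro h
        have := Ideal.add_mem _ h h3
        rwa [add_sub_cancel] at this
    have h3 : σ x ∈ Ideal.map σ I ↔ x ∈ I := by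
      constructor
      · intro h
        obtain ⟨y, hy, hyx⟩ := (Ideal.mem_map_iff_of_surjective σ σ.surjective).mp h
        rwa [← σ.injective hyx]
      · exact fun h => Ideal.mem_map_of_mem _ h
    rw [h1, hχC0, ← h2, h3]
  · -- `f` is a power of `s` up to a unit
    choose e he using hi₀
    refine ⟨∑ i, e i, ?_⟩
    have h1 : Γ' (σ f) = (∏ i, (Θ - ρ i)) * Γ' U := by
      rw [hσf, map_mul, hΓ'F]
    show Associated (Γ' (σ f)) _
    rw [h1, ← Finset.prod_pow_eq_pow_sum]
    have h2 : IsUnit (Γ' U) := hU.isUnit.map Γ'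
    refine (associated_mul_unit_left _ _ h2).trans ?_
    exact Associated.prod _ _ _ fun i _ => he i

end Pool.Agent.Helper38.GP
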