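import Pool.Agent.Helper38.GP.LiftBase
import Pool.Agent.Helper38.GP.LiftStep
import Pool.Agent.Helper38.GP.ExistsLin

/-! Equisingular germs have the arc extension property. -/

namespace Pool.Agent.Helper38.GP

open MvPowerSeries Pool.Agent.Helper38.EQ

/-- If the projection is permissible, `W` is a graph over its image: some `h ∈ I` has
`lin h v ≠ 0` for the direction `v` of the fibres, so `tr h ≠ 0` (`Proj.tr_eq_lin`: `v` is a
multiple of `(tr X_j)_j`, as both are in the one-dimensional kernel of the linear parts of the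
`z_i = σ⁻¹ (C (X i))`), and `exists_root` gives `σ h = U (X - C τ)`. Here `h` is in `𝔪` as `I ≠ ⊤`. -/
theorem exists_graph {n : ℕ} {K : Type} [Field K]
    (p : Proj n K) {z : Fin n → MvPowerSeries (Fin (n + 1)) K}
    (hz : LinIndep z) (hσ : ∀ i, p.σ (z i) = PowerSeries.C (X i))
    {I : Ideal (MvPowerSeries (Fin (n + 1)) K)} (hI : I ≠ ⊤) (hp : Permissible I z) :
    ∃ τ ∈ IsLocalRing.maximalIdeal (MvPowerSeries (Fin n) K),
      PowerSeries.X - PowerSeries.C τ ∈ Ideal.map p.σ I := by
  classical
  obtain ⟨v, hv, h, hh, hhv⟩ := hp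
  -- the matrix of the linear parts
  let M : Matrix (Fin n) (Fin (n + 1)) K := fun i j => coeff (Finsupp.single j 1) (z i)
  have hMv : ∀ u : Fin (n + 1) → K, (∀ i, lin (z i) u = 0) → u ∈ LinearMap.ker M.mulVecLin := by
    intro u hu
    rw [LinearMap.mem_ker]
    funext i
    exact hu i
  have hrank : M.rank = n := by
    have h1 : LinearIndependent K M.row := hz.2
    have h2 := h1.rank_matrix
    rwa [Fintype.card_fin] at h2
  have hker : Module.finrank K (LinearMap.ker M.mulVecLin) = 1 := by
    have h1 := LinearMap.finrank_range_add_finrank_ker M.mulVecLin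
    rw [Module.finrank_fin_fun] at h1
    change M.rank + _ = _ at h1
    omega
  -- the direction of the fibres
  let w : Fin (n + 1) → K := fun j => p.tr (X j)
  have hw : ∀ i, lin (z i) w = 0 := by
    intro i
    rw [← p.tr_eq_lin]
    change constantCoeff (PowerSeries.coeff 1 (p.σ (z i))) = 0
    rw [hσ, PowerSeries.coeff_C, if_neg one_ne_zero, map_zero]
  have hw0 : w ≠ 0 := by
    intro h0
    have h1 : p.tr (p.σ.symm PowerSeries.X) = 1 := by
      change constantCoeff (PowerSeries.coeff 1 (p.σ (p.σ.symm PowerSeries.X))) = 1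
      rw [AlgEquiv.apply_symm_apply, PowerSeries.coeff_one_X, map_one]
    rw [p.tr_eq_lin] at h1
    change lin _ w = 1 at h1
    rw [h0] at h1
    simp [lin] at h1
  have hht : p.tr h ≠ 0 := by
    have h1 := (finrank_eq_one_iff_of_nonzero' (⟨w, hMv w hw⟩ : LinearMap.ker M.mulVecLin)
      (fun h2 => hw0 (congrArg Subtype.val h2))).1 hker ⟨v, hMv v hv⟩
    obtain ⟨c, hc⟩ := h1
    have h2 : c • w = v := congrArg Subtype.val hc
    rw [p.tr_eq_lin]
    intro h3
    apply hhv
    rw [← h2]
    have h4 : lin h (c • w) = c * lin h w := by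
      simp only [lin, Pi.smul_apply, smul_eq_mul, Finset.mul_sum]
      exact Finset.sum_congr rfl fun j _ => by ring
    rw [h4]
    change c * lin h (fun j => p.tr (X j)) = 0
    rw [h3, mul_zero]
  have hmax : h ∈ IsLocalRing.maximalIdeal (MvPowerSeries (Fin (n + 1)) K) := by
    intro hu
    exact hI (Ideal.eq_top_of_isUnit_mem I hh hu)
  obtain ⟨r, U, hr, ⟨U, rfl⟩, hrU⟩ := exists_root p h hmax hht
  refine ⟨r, hr, ?_⟩
  rw [ex_eq] at hrU
  have h1 : PowerSeries.X - PowerSeries.C r =
      ((U⁻¹ : (PowerSeries (R1 n K))ˣ) : PowerSeries (R1 n K)) * p.σ h := by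
    rw [hrU, ← mul_assoc, Units.inv_mul, one_mul]
  rw [h1]
  exact Ideal.mul_mem_left _ _ (Ideal.mem_map_of_mem _ hh)

end Pool.Agent.Helper38.GP
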