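import Pool.Agent.Helper38.GP.LiftBase
import Pool.Agent.Helper38.GP.LiftStep
import Pool.Agent.Helper38.GP.ExistsLin
import Pool.Agent.Helper38.GP.ArcA

/-! Equisingular germs have the arc extension property. -/

namespace Pool.Agent.Helper38.GP

open MvPowerSeries Pool.Agent.Helper38.EQ

/-- An ideal along which a germ is equisingular is not the whole ring (by induction; for the step,
`Ideal.comap C (Ideal.map σ ⊤) = ⊤`). -/
theorem Equi.ne_top {K : Type} [Field K] {𝒞 : ProjClass K} {r n : ℕ}
    {f : MvPowerSeries (Fin n) K} {I : Ideal (MvPowerSeries (Fin n) K)}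
    (h : Equi 𝒞 r n f I) : I ≠ ⊤ := by
  induction r generalizing n f I with
  | zero =>
    obtain ⟨h1, -, h3⟩ := h
    rw [h3]
    intro htop
    have h4 : Ideal.span {f} ≤ IsLocalRing.maximalIdeal (MvPowerSeries (Fin n) K) := by
      rw [Ideal.span_le, Set.singleton_subset_iff]
      exact h1
    rw [htop, top_le_iff] at h4
    exact (IsLocalRing.maximalIdeal.isMaximal _).ne_top h4
  | succ r ih =>
    cases n with
    | zero => exact absurd h id
    | succ n =>
      obtain ⟨-, z, -, -, -, g, I', ⟨σ, F, -, -, -, hI'⟩, hE⟩ := h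
      intro htop
      apply ih hE
      rw [hI', Coord.image, htop, Ideal.map_top, Ideal.comap_top]

/-- The arc extension theorem: by induction on `r`, from `lifts_base` and `lifts_step`. (The
degree of `F` is not `0` as `f` is in the maximal ideal, by `Equi.ne_top`.) -/
theorem Equi.lifts {K : Type} [Field K] [IsAlgClosed K] [CharZero K] {𝒞 : ProjClass K}
    {r n d : ℕ} (hn : n = r + d + 1) {f : MvPowerSeries (Fin n) K}
    {I : Ideal (MvPowerSeries (Fin n) K)} (h : Equi 𝒞 r n f I) :
    ∃ G, Lifts d f I G := by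
  induction r generalizing n f I with
  | zero =>
    obtain rfl : n = d + 1 := by omega
    obtain ⟨h1, h2, h3⟩ := h
    rw [h3]
    exact ⟨f, lifts_base h1 h2⟩
  | succ r ih =>
    cases n with
    | zero => exact absurd h id
    | succ n =>
      have hItop : I ≠ ⊤ := Equi.ne_top h
      obtain ⟨hfI, z, -, hpar, hper, g, I', ⟨σ, F, hσz, hF, hg, hI'⟩, hE⟩ := h
      obtain ⟨G, hG⟩ := ih (by omega) hE
      obtain ⟨τ, hτ0, hτ⟩ := exists_graph (⟨σ.equiv⟩ : Proj n K) hpar.1 hσz hItop hper
      rw [hI'] at hG
      refine ⟨_, lifts_step σ.equiv hF hg hfI hτ0 hτ ?_ hG⟩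
      intro hdeg
      obtain ⟨U, hU⟩ := hF
      have hF1 : F = 1 := by
        have hmon : F.Monic := hU.isDistinguishedAt.monic
        exact hmon.natDegree_eq_zero.1 hdeg
      have h1 : IsUnit (σ.equiv f) := by
        have h2 : σ.app f = (F : PowerSeries (MvPowerSeries (Fin n) K)) * U := hU.eq_mul
        change IsUnit (σ.app f)
        rw [h2, hF1, Polynomial.coe_one, one_mul]
        exact hU.isUnit
      have h3 : IsUnit f := by
        have h4 := h1.map σ.equiv.symm
        rwa [AlgEquiv.symm_apply_apply] at h4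
      exact hItop (Ideal.eq_top_of_isUnit_mem _ hfI h3)

end Pool.Agent.Helper38.GP
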