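import Pool.Agent.Helper38.GP.Good

/-! The discriminant of `V`: independence. -/

namespace Pool.Agent.Helper38.GP

open MvPowerSeries Pool.Agent.Helper38.EQ
open Pool.Agent.Helper38.ED (LI LI_iff prime_of_notMem_sq exists_eval discr_prod Rad comps0 comps1 comps2 comps3 isUnit_natCast_add isUnit_one_add rad_comps1 rad_comps2)

variable {m : ℕ} {K : Type} [Field K] {z x1 x2 x3 a0 a1 : MvPowerSeries (Fin (m + 1)) K}

/-- The independence of `a, b, c, d`. Proof: with `w0` the constant term of `w`,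
`LI ![a, b, c', a0' + C w0 * a1']` by `Sec.LI_ev` and `Good.li w0` (`ev_C`); replace `C w0` by `w`
by `LI.congr`, then apply `LI.of_span`. -/
theorem calc0_LI (h : Good z x1 x2 x3 a0 a1) (p : Proj m K)
    (s : Sec p z) {c d w : R1 m K} (hc : s.pull x2 ∣ c - s.pull x3)
    (hd : d - (s.pull a0 + w * s.pull a1) ∈ Ideal.span {s.pull x2, s.pull x3}) :
    LI ![s.pull x1, s.pull x2, c, d] := by
  obtain ⟨hz, hx1, hx2, hx3⟩ := h.mem
  have m1 := s.pull_mem hx1
  have m2 := s.pull_mem hx2
  have m3 := s.pull_mem hx3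
  have ma0 := s.pull_mem h.mem0
  have ma1 := s.pull_mem h.mem1
  -- the constant term of `w`
  have hw : w - C (constantCoeff w) ∈ IsLocalRing.maximalIdeal (R1 m K) := by
    rw [mem_maximalIdeal_iff_constantCoeff, map_sub, constantCoeff_C, sub_self]
  have h1 : LI (fun i => s.ev ((![ex x1, ex x2, ex x3,
      ex a0 + C (constantCoeff w) * ex a1] : Fin 4 → SL m K) i)) :=
    s.LI_ev ![ex x1, ex x2, ex x3, ex a0 + C (constantCoeff w) * ex a1]
      (h.li (constantCoeff w))
  have h2 : LI (![s.pull x1, s.pull x2, s.pull x3, s.pull a0 + w * s.pull a1] :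
      Fin 4 → R1 m K) := by
    refine LI.congr h1 fun i => ?_
    fin_cases i
    · show s.pull x1 - s.ev (ex x1) ∈ _
      rw [s.ev_ex, sub_self]
      exact Ideal.zero_mem _
    · show s.pull x2 - s.ev (ex x2) ∈ _
      rw [s.ev_ex, sub_self]
      exact Ideal.zero_mem _
    · show s.pull x3 - s.ev (ex x3) ∈ _
      rw [s.ev_ex, sub_self]
      exact Ideal.zero_mem _
    · show s.pull a0 + w * s.pull a1 - s.ev (ex a0 + C (constantCoeff w) * ex a1) ∈ _
      rw [map_add, map_mul, s.ev_ex, s.ev_ex, s.ev_C]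
      have h3 : s.pull a0 + w * s.pull a1 -
          (s.pull a0 + C (constantCoeff w) * s.pull a1) =
          (w - C (constantCoeff w)) * s.pull a1 := by ring
      rw [h3, pow_two]
      exact Ideal.mul_mem_mul hw ma1
  obtain ⟨k, hk⟩ := hc
  have hc3 : c = s.pull x3 + s.pull x2 * k := by linear_combination hk
  have hsp : Ideal.span {s.pull x2, s.pull x3} ≤ IsLocalRing.maximalIdeal (R1 m K) := by
    rw [Ideal.span_le]
    intro x hx
    rcases hx with rfl | hx
    · exact m2
    · rw [Set.mem_singleton_iff] at hx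
      rw [hx]
      exact m3
  set J : Ideal (R1 m K) := Ideal.span (Set.range (![s.pull x1, s.pull x2, c, d] :
    Fin 4 → R1 m K)) with hJ
  have j0 : s.pull x1 ∈ J := Ideal.subset_span ⟨0, rfl⟩
  have j1 : s.pull x2 ∈ J := Ideal.subset_span ⟨1, rfl⟩
  have j2 : c ∈ J := Ideal.subset_span ⟨2, rfl⟩
  have j3 : d ∈ J := Ideal.subset_span ⟨3, rfl⟩
  have j4 : s.pull x3 ∈ J := by
    have h3 : s.pull x3 = c - s.pull x2 * k := by rw [hc3]; ring
    rw [h3]
    exact Ideal.sub_mem _ j2 (Ideal.mul_mem_right _ _ j1)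
  have hsp2 : Ideal.span {s.pull x2, s.pull x3} ≤ J := by
    rw [Ideal.span_le]
    intro x hx
    rcases hx with rfl | hx
    · exact j1
    · rw [Set.mem_singleton_iff] at hx
      rw [hx]
      exact j4
  refine LI.of_span h2 (fun i => ?_) (fun i => ?_)
  · fin_cases i
    · exact m1
    · exact m2
    · show c ∈ _
      rw [hc3]
      exact Ideal.add_mem _ m3 (Ideal.mul_mem_right _ _ m2)
    · show d ∈ _
      have h3 : d = (d - (s.pull a0 + w * s.pull a1)) + (s.pull a0 + w * s.pull a1) := by ring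
      rw [h3]
      exact Ideal.add_mem _ (hsp hd) (Ideal.add_mem _ ma0 (Ideal.mul_mem_left _ _ ma1))
  · fin_cases i
    · exact j0
    · exact j1
    · exact j4
    · show s.pull a0 + w * s.pull a1 ∈ J
      have h3 : s.pull a0 + w * s.pull a1 = d - (d - (s.pull a0 + w * s.pull a1)) := by ring
      rw [h3]
      exact Ideal.sub_mem _ j3 (hsp2 hd)

end Pool.Agent.Helper38.GP
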