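import Pool.Agent.Helper38.GP.Good

/-! The discriminant of `V`: the differences of the roots. -/

namespace Pool.Agent.Helper38.GP

open MvPowerSeries Pool.Agent.Helper38.EQ
open Pool.Agent.Helper38.ED (LI LI_iff prime_of_notMem_sq exists_eval discr_prod Rad comps0 comps1 comps2 comps3 isUnit_natCast_add isUnit_one_add rad_comps1 rad_comps2)

variable {m : ℕ} {K : Type} [Field K] {z x1 x2 x3 a0 a1 : MvPowerSeries (Fin (m + 1)) K}

private def calc0AM {R : Type} [CommRing R] (x1 x2 x3 a0 a1 : R) : Fin 6 → R :=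
  ![0, x1, 1, 1 + x1 + x2 * x3, 2 + a1, 2 + a1 + x1 + 2 * x2 * x3 + a0 * x2 ^ 2]

private def calc0Ac : Fin 6 → ℕ := ![0, 0, 1, 1, 2, 2]

private theorem calc0A_comps {R : Type} [CommRing R] (z x1 x2 x3 a0 a1 : R) (i : Fin 6) :
    comps0 z x1 x2 x3 a0 a1 i = z - x2 ^ 2 * calc0AM x1 x2 x3 a0 a1 i := by
  fin_cases i <;> simp [comps0, calc0AM]

private theorem calc0A_mem (h : Good z x1 x2 x3 a0 a1) (i : Fin 6) :
    calc0AM x1 x2 x3 a0 a1 i - (calc0Ac i : MvPowerSeries (Fin (m + 1)) K) ∈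
      IsLocalRing.maximalIdeal (MvPowerSeries (Fin (m + 1)) K) := by
  obtain ⟨_, h1, h2, _⟩ := h.mem
  have h4 := h.mem1
  fin_cases i
  · simp [calc0AM, calc0Ac]
  · simpa [calc0AM, calc0Ac] using h1
  · simp [calc0AM, calc0Ac]
  · have : calc0AM x1 x2 x3 a0 a1 3 - ((calc0Ac 3 : ℕ) : MvPowerSeries (Fin (m + 1)) K) =
        x1 + x2 * x3 := by
      simp only [calc0AM, calc0Ac]
      simp
      ring
    change calc0AM x1 x2 x3 a0 a1 3 - ((calc0Ac 3 : ℕ) : MvPowerSeries (Fin (m + 1)) K) ∈ _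
    rw [this]
    exact Ideal.add_mem _ h1 (Ideal.mul_mem_right _ _ h2)
  · simpa [calc0AM, calc0Ac] using h4
  · have : calc0AM x1 x2 x3 a0 a1 5 - ((calc0Ac 5 : ℕ) : MvPowerSeries (Fin (m + 1)) K) =
        a1 + x1 + x2 * (2 * x3 + a0 * x2) := by
      simp only [calc0AM, calc0Ac]
      simp
      ring
    change calc0AM x1 x2 x3 a0 a1 5 - ((calc0Ac 5 : ℕ) : MvPowerSeries (Fin (m + 1)) K) ∈ _
    rw [this]
    exact Ideal.add_mem _ (Ideal.add_mem _ h4 h1) (Ideal.mul_mem_right _ _ h2)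

/-- The restriction of `z`. -/
private theorem calc0A_z (p : Proj m K)
    (s : ∀ i, Sec p (comps0 z x1 x2 x3 a0 a1 i)) (i : Fin 6) :
    (s i).pull z = (s i).pull x2 ^ 2 * (s i).pull (calc0AM x1 x2 x3 a0 a1 i) := by
  have h := (s i).pull_self
  have h2 := congrArg (s i).pull (calc0A_comps z x1 x2 x3 a0 a1 i)
  rw [h, map_sub, map_mul, map_pow] at h2
  exact sub_eq_zero.1 h2.symm

private theorem calc0A_pull (p : Proj m K)
    (s : ∀ i, Sec p (comps0 z x1 x2 x3 a0 a1 i)) (i j : Fin 6) :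
    (s i).pull (comps0 z x1 x2 x3 a0 a1 j) = - ((s i).pull x2 ^ 2 *
      (s i).pull (calc0AM x1 x2 x3 a0 a1 j - calc0AM x1 x2 x3 a0 a1 i)) := by
  have h2 := congrArg (s i).pull (calc0A_comps z x1 x2 x3 a0 a1 j)
  rw [h2, map_sub, map_mul, map_pow, calc0A_z p s i, map_sub]
  ring

/-- The differences of the roots, up to units. With `ι_i = (s i).pull`, `e_i = z - x2 ^ 2 m_i`
(`m = 0, x1, 1, 1 + x1 + x2 x3, 2 + a1, 2 + a1 + x1 + 2 x2 x3 + a0 x2 ^ 2`):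
`ι_i e_i = 0` gives `ι_i z = (ι_i x2) ^ 2 * ι_i m_i`, so `ι_i e_j = (ι_i x2) ^ 2 * ι_i (m_i - m_j)`.
First `r_i - r_0` is a multiple of `b ^ 2`, `b = ι_0 x2` (it is associated to
`ι_0 e_i = - b ^ 2 ι_0 m_i`, as `ι_0 z = 0`), so `ι_i x2 = b + (r_i - r_0) t ~ b` (`b ∈ 𝔪`). -/
theorem Good.x2_assoc [CharZero K] (h : Good z x1 x2 x3 a0 a1) (p : Proj m K)
    (s : ∀ i, Sec p (comps0 z x1 x2 x3 a0 a1 i)) (i : Fin 6) :
    Associated ((s i).pull x2) ((s 0).pull x2) ∧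
    (s 0).pull x2 ^ 2 ∣ (s i).r - (s 0).r := by
  have h1 : (s 0).pull x2 ^ 2 ∣ (s i).r - (s 0).r := by
    have h2 := (s 0).assoc (s i)
    have h3 : (s 0).pull x2 ^ 2 ∣ (s 0).pull (comps0 z x1 x2 x3 a0 a1 i) := by
      rw [calc0A_pull p s 0 i]
      exact (Dvd.intro _ rfl).neg_right
    have h4 : (s 0).pull x2 ^ 2 ∣ (s 0).r - (s i).r := h3.trans h2.dvd
    have h5 := h4.neg_right
    rwa [neg_sub] at h5
  refine ⟨?_, h1⟩
  have hb : (s 0).pull x2 ∈ IsLocalRing.maximalIdeal (R1 m K) := (s 0).pull_mem h.mem.2.2.1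
  obtain ⟨t, ht⟩ := h1.trans ((s 0).pull_sub_dvd (s i) x2)
  have hu : IsUnit (1 + (s 0).pull x2 * t) :=
    isUnit_one_add (K := K) (Ideal.mul_mem_right _ _ hb)
  have heq : (s i).pull x2 = (s 0).pull x2 * (1 + (s 0).pull x2 * t) := by
    linear_combination ht
  rw [heq]
  exact associated_mul_unit_left _ _ hu

/-- The restrictions of the equations to each other, up to units: `b ^ 2` for the pairs
other than `(0,1), (2,3), (4,5)` (there `ι_i (m_i - m_j)` is a unit), and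
`b ^ 2 L` for these three, with `L = ι_0 x1`, `ι_2 (x1 + x2 x3)`, `ι_4 (x1 + 2 x2 x3 + a0 x2 ^ 2)`. -/
theorem Good.pull_assoc [CharZero K] (h : Good z x1 x2 x3 a0 a1) (p : Proj m K)
    (s : ∀ i, Sec p (comps0 z x1 x2 x3 a0 a1 i)) :
    Associated ((s 0).pull (comps0 z x1 x2 x3 a0 a1 1)) ((s 0).pull x2 ^ 2 * (s 0).pull x1) ∧
    Associated ((s 2).pull (comps0 z x1 x2 x3 a0 a1 3))
      ((s 0).pull x2 ^ 2 * (s 2).pull (x1 + x2 * x3)) ∧
    Associated ((s 4).pull (comps0 z x1 x2 x3 a0 a1 5))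
      ((s 0).pull x2 ^ 2 * (s 4).pull (x1 + 2 * x2 * x3 + a0 * x2 ^ 2)) ∧
    ∀ i j, i < j → ¬ (i = 0 ∧ j = 1) → ¬ (i = 2 ∧ j = 3) → ¬ (i = 4 ∧ j = 5) →
      Associated ((s i).pull (comps0 z x1 x2 x3 a0 a1 j)) ((s 0).pull x2 ^ 2) := by
  have key : ∀ (i j : Fin 6) (L : MvPowerSeries (Fin (m + 1)) K),
      calc0AM x1 x2 x3 a0 a1 j - calc0AM x1 x2 x3 a0 a1 i = L →
      Associated ((s i).pull (comps0 z x1 x2 x3 a0 a1 j)) ((s 0).pull x2 ^ 2 * (s i).pull L) := by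
    intro i j L hL
    rw [calc0A_pull p s i j, hL]
    have h1 := ((h.x2_assoc p s i).1.pow_pow (n := 2)).mul_right ((s i).pull L)
    exact (Associated.neg_left (Associated.refl _)).trans h1
  refine ⟨key 0 1 x1 ?_, key 2 3 _ ?_, key 4 5 _ ?_, ?_⟩
  · simp [calc0AM]
  · simp only [calc0AM]
    simp
    ring
  · simp only [calc0AM]
    simp
    ring
  · intro i j hij h01 h23 h45
    have hc : ∀ i j : Fin 6, i < j → ¬ (i = 0 ∧ j = 1) → ¬ (i = 2 ∧ j = 3) → ¬ (i = 4 ∧ j = 5) →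
        calc0Ac i < calc0Ac j := by
      decide
    have hlt := hc i j hij h01 h23 h45
    have h1 := key i j _ rfl
    have hu : IsUnit (calc0AM x1 x2 x3 a0 a1 j - calc0AM x1 x2 x3 a0 a1 i) := by
      have hm := Ideal.sub_mem _ (calc0A_mem h j) (calc0A_mem h i)
      have h2 := isUnit_natCast_add (m := calc0Ac j - calc0Ac i) (by omega) hm
      have h3 : ((calc0Ac j - calc0Ac i : ℕ) : MvPowerSeries (Fin (m + 1)) K) +
          (calc0AM x1 x2 x3 a0 a1 j - (calc0Ac j : MvPowerSeries (Fin (m + 1)) K) -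
          (calc0AM x1 x2 x3 a0 a1 i - (calc0Ac i : MvPowerSeries (Fin (m + 1)) K))) =
          calc0AM x1 x2 x3 a0 a1 j - calc0AM x1 x2 x3 a0 a1 i := by
        rw [Nat.cast_sub hlt.le]
        ring
      rwa [h3] at h2
    exact h1.trans (associated_mul_unit_left _ _ (hu.map _))

end Pool.Agent.Helper38.GP
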