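import Pool.Agent.Helper38.GP.Comps

/-! The discriminant of `a b (a + b c) (a + 2 b c + b ^ 2 d) = 0`. -/

namespace Pool.Agent.Helper38.GP

open MvPowerSeries Pool.Agent.Helper38.EQ
open Pool.Agent.Helper38.ED (LI LI_iff prime_of_notMem_sq exists_eval discr_prod Rad comps0 comps1 comps2 comps3 isUnit_natCast_add isUnit_one_add rad_comps1 rad_comps2)

private theorem Calc1_not_dvd {n : ℕ} {K : Type} [Field K] [CharZero K]
    {b c d : MvPowerSeries (Fin n) K} (θ : MvPowerSeries (Fin n) K)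
    (h : LI ![b, c, d]) : (∀ i, Prime (comps2 b c d θ i)) ∧
      ∀ i j, i < j → ¬ comps2 b c d θ i ∣ comps2 b c d θ j := by
  have hb : b ∈ IsLocalRing.maximalIdeal (MvPowerSeries (Fin n) K) := h.mem 0
  have hc : c ∈ IsLocalRing.maximalIdeal (MvPowerSeries (Fin n) K) := h.mem 1
  have hd : d ∈ IsLocalRing.maximalIdeal (MvPowerSeries (Fin n) K) := h.mem 2
  have hb2 : b ∉ IsLocalRing.maximalIdeal (MvPowerSeries (Fin n) K) ^ 2 := h.notMem_sq 0
  have hc2 : c ∉ IsLocalRing.maximalIdeal (MvPowerSeries (Fin n) K) ^ 2 := h.notMem_sq 1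
  have hd2 : d ∉ IsLocalRing.maximalIdeal (MvPowerSeries (Fin n) K) ^ 2 := h.notMem_sq 2
  have Pb := prime_of_notMem_sq hb hb2
  have Pc := prime_of_notMem_sq hc hc2
  have Pd := prime_of_notMem_sq hd hd2
  have hLI2 : ∀ x y : Fin 3, x ≠ y →
      ¬ (![b, c, d] : Fin 3 → MvPowerSeries (Fin n) K) x ∣
        (![b, c, d] : Fin 3 → MvPowerSeries (Fin n) K) y := by
    intro x y hxy
    apply LI.not_dvd
    have h1 := h.comp (![x, y] : Fin 2 → Fin 3) (by
      intro i j hij
      fin_cases i <;> fin_cases j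
      · rfl
      · exact absurd hij hxy
      · exact absurd hij.symm hxy
      · rfl)
    have h2 : (fun i => (![b, c, d] : Fin 3 → MvPowerSeries (Fin n) K)
        ((![x, y] : Fin 2 → Fin 3) i)) =
        ![(![b, c, d] : Fin 3 → MvPowerSeries (Fin n) K) x,
          (![b, c, d] : Fin 3 → MvPowerSeries (Fin n) K) y] := by
      funext i
      fin_cases i <;> rfl
    rwa [h2] at h1
  have hbc : ¬ b ∣ c := hLI2 0 1 (by decide)
  have hcb : ¬ c ∣ b := hLI2 1 0 (by decide)
  have hcd : ¬ c ∣ d := hLI2 1 2 (by decide)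
  have hdc : ¬ d ∣ c := hLI2 2 1 (by decide)
  have u2 : IsUnit (2 : MvPowerSeries (Fin n) K) := by
    have h1 := isUnit_natCast_add (K := K) (n := n) (m := 2) (by norm_num)
      (h := 0) (Ideal.zero_mem _)
    simpa using h1
  have u1 : IsUnit (1 + b * θ) := isUnit_one_add (Ideal.mul_mem_right _ _ hb)
  have u1' : IsUnit (1 - b * θ) := by
    have h1 := isUnit_one_add (Ideal.neg_mem_iff _ |>.mpr (Ideal.mul_mem_right θ _ hb))
    rwa [← sub_eq_add_neg] at h1
  have hbd2 : b * d ∈ IsLocalRing.maximalIdeal (MvPowerSeries (Fin n) K) ^ 2 := by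
    rw [pow_two]
    exact Ideal.mul_mem_mul hb hd
  -- the third factor
  have hp : 2 * c + b * d ∈ IsLocalRing.maximalIdeal (MvPowerSeries (Fin n) K) :=
    Ideal.add_mem _ (Ideal.mul_mem_left _ _ hc) (Ideal.mul_mem_left _ _ hd)
  have hp2 : 2 * c + b * d ∉ IsLocalRing.maximalIdeal (MvPowerSeries (Fin n) K) ^ 2 := by
    intro h1
    rw [Ideal.add_mem_iff_left _ hbd2] at h1
    exact hc2 ((Ideal.unit_mul_mem_iff_mem _ u2).mp h1)
  have hq : (1 + b * θ) * c + b * d ∈ IsLocalRing.maximalIdeal (MvPowerSeries (Fin n) K) :=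
    Ideal.add_mem _ (Ideal.mul_mem_left _ _ hc) (Ideal.mul_mem_left _ _ hd)
  have hq2 : (1 + b * θ) * c + b * d ∉
      IsLocalRing.maximalIdeal (MvPowerSeries (Fin n) K) ^ 2 := by
    intro h1
    rw [Ideal.add_mem_iff_left _ hbd2] at h1
    exact hc2 ((Ideal.unit_mul_mem_iff_mem _ u1).mp h1)
  have Pp := prime_of_notMem_sq hp hp2
  have Pq := prime_of_notMem_sq hq hq2
  have hbp : ¬ b ∣ 2 * c + b * d := by
    intro h1
    rw [dvd_add_left (dvd_mul_right b d), u2.dvd_mul_left] at h1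
    exact hbc h1
  have hbq : ¬ b ∣ (1 + b * θ) * c + b * d := by
    intro h1
    rw [dvd_add_left (dvd_mul_right b d), u1.dvd_mul_left] at h1
    exact hbc h1
  have hcbd : ¬ c ∣ b * d := by
    intro h1
    rcases Pc.dvd_or_dvd h1 with h2 | h2
    · exact hcb h2
    · exact hcd h2
  have hcp : ¬ c ∣ 2 * c + b * d := by
    intro h1
    rw [dvd_add_right (dvd_mul_left c 2)] at h1
    exact hcbd h1
  have hcq : ¬ c ∣ (1 + b * θ) * c + b * d := by
    intro h1
    rw [dvd_add_right (dvd_mul_left c _)] at h1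
    exact hcbd h1
  have hpq : ¬ 2 * c + b * d ∣ (1 + b * θ) * c + b * d := by
    intro h1
    have h2 : 2 * c + b * d ∣ b * d * (1 - b * θ) := by
      have h3 : b * d * (1 - b * θ) = 2 * ((1 + b * θ) * c + b * d) -
          (1 + b * θ) * (2 * c + b * d) := by ring
      rw [h3]
      exact dvd_sub (Dvd.dvd.mul_left h1 _) (dvd_mul_left _ _)
    rw [u1'.dvd_mul_right] at h2
    rcases Pp.dvd_or_dvd h2 with h3 | h3
    · exact hbp (Pp.associated_of_dvd Pb h3).symm.dvd
    · have h4 := (Pp.associated_of_dvd Pd h3).symm.dvd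
      rw [dvd_add_left (dvd_mul_left d b), u2.dvd_mul_left] at h4
      exact hdc h4
  refine ⟨fun i => ?_, fun i j hij => ?_⟩
  · fin_cases i
    · exact Pb
    · exact Pc
    · exact Pp
    · exact Pq
  · fin_cases i <;> fin_cases j
    all_goals first | exact absurd hij (by decide) | skip
    · exact hbc
    · exact hbp
    · exact hbq
    · exact hcp
    · exact hcq
    · exact hpq

/-- `b c (2 c + b d) ((1 + b θ) c + b d)` is radical. Proof: the four factors are
in `𝔪` and not in `𝔪 ^ 2`, so they are prime (`prime_of_notMem_sq`); use `Rad.prod`. They are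
pairwise nonassociated: `b ∤ c, ...` and the like by `LI.not_dvd` (`LI ![b, c]` gives also
`LI ![b, 2 c + b d]` by `LI.congr`, and `LI.comp` for the order and choice); `c ∣ 2 c + b d` would
give `c ∣ b d`, so `c ∣ b` or `c ∣ d`; similarly for the other pairs with `c`;
with `p = 2 c + b d`, `q = (1 + b θ) c + b d`, `2 q - (1 + b θ) p = b d (1 - b θ)`, so `p ∣ q` gives
`p ∣ b` or `p ∣ d`, and similarly for `q ∣ p`. -/
theorem rad_comps2 {n : ℕ} {K : Type} [Field K] [CharZero K]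
    {b c d : MvPowerSeries (Fin n) K} (θ : MvPowerSeries (Fin n) K)
    (h : LI ![b, c, d]) : Rad (∏ i, comps2 b c d θ i) := by
  obtain ⟨h1, h2⟩ := Calc1_not_dvd θ h
  refine Rad.prod _ h1 fun i j hij h3 => ?_
  rcases lt_or_gt_of_ne hij with hlt | hlt
  · exact h2 i j hlt h3
  · exact h2 j i hlt ((h1 i).associated_of_dvd (h1 j) h3).symm.dvd

/-- Let `e_0 = a`, `e_1 = b`, `e_2 = a + b c`, `e_3 = a + 2 b c + b ^ 2 d`, `ι_i = (s i).pull`,
`β = ι_0 b`, `γ = ι_0 c`, `δ = ι_0 d`; `LI ![β, γ, δ]` by `Sec.LI_pull`.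
The restrictions, up to units:
* `(0,1)`: `ι_0 b = β`.
* `(0,2)`: `ι_0 e_2 = β γ` as `ι_0 a = 0`.
* `(0,3)`: `ι_0 e_3 = β (2 γ + β δ)`.
* `(1,2)`: `ι_1 e_2 = ι_1 a ~ ι_0 b = β`, as `ι_1 b = 0`.
* `(1,3)`: `ι_1 e_3 = ι_1 a ~ β`.
* `(2,3)`: `e_3 = e_2 + b c + b ^ 2 d`, so `ι_2 e_3 = ι_2 b (ι_2 c + ι_2 b ι_2 d)`. By
  `pull_sub_dvd`, with `r_2 - r_0 ~ ι_0 e_2 = β γ`: `ι_2 b = β (1 + γ t)`, `ι_2 c = γ (1 + β t')`,
  `ι_2 d = δ + β γ t''`. Hence `ι_2 e_3 = ι_2 b ((1 + β θ) γ + β δ)` with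
  `θ = t' + t δ + β (1 + γ t) t''`, and `ι_2 b ~ β`.
Radicality: `rad_comps2`. -/
theorem calc1 {n : ℕ} {K : Type} [Field K] [CharZero K] (p : Proj n K)
    {a b c d : MvPowerSeries (Fin (n + 1)) K}
    (h : LI ![a, b, c, d]) (s : ∀ i, Sec p (comps1 a b c d i)) :
    LI ![(s 0).pull b, (s 0).pull c, (s 0).pull d] ∧
    (∃ θ, IsDisc s (∏ i, comps2 ((s 0).pull b) ((s 0).pull c) ((s 0).pull d) θ i)) ∧
    ∀ i j, i < j → (s 0).pull b ∣ (s i).pull (comps1 a b c d j) := by
  have := charZero_gen n K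
  have hLI : LI ![(s 0).pull b, (s 0).pull c, (s 0).pull d] := by
    have h1 : LI (Fin.cons (comps1 a b c d 0) ![b, c, d] :
        Fin 4 → MvPowerSeries (Fin (n + 1)) K) := h
    have h2 := (s 0).LI_pull ![b, c, d] h1
    have h3 : (fun i => (s 0).pull ((![b, c, d] : Fin 3 → MvPowerSeries (Fin (n + 1)) K) i)) =
        ![(s 0).pull b, (s 0).pull c, (s 0).pull d] := by
      funext i
      fin_cases i <;> rfl
    rwa [h3] at h2
  have hγ : (s 0).pull c ∈ IsLocalRing.maximalIdeal (R1 n K) := hLI.mem 1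
  have h00 : (s 0).pull a = 0 := (s 0).pull_self
  have h11 : (s 1).pull b = 0 := (s 1).pull_self
  have h22 : (s 2).pull (a + b * c) = 0 := (s 2).pull_self
  have E01 : (s 0).pull (comps1 a b c d 1) = (s 0).pull b := rfl
  have E02 : (s 0).pull (comps1 a b c d 2) = (s 0).pull b * (s 0).pull c := by
    change (s 0).pull (a + b * c) = _
    rw [map_add, map_mul, h00, zero_add]
  have E03 : (s 0).pull (comps1 a b c d 3) =
      (s 0).pull b * (2 * (s 0).pull c + (s 0).pull b * (s 0).pull d) := by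
    change (s 0).pull (a + 2 * b * c + b ^ 2 * d) = _
    simp only [map_add, map_mul, map_pow, map_ofNat]
    rw [h00]
    ring
  have E12 : (s 1).pull (comps1 a b c d 2) = (s 1).pull a := by
    change (s 1).pull (a + b * c) = _
    rw [map_add, map_mul, h11, zero_mul, add_zero]
  have E13 : (s 1).pull (comps1 a b c d 3) = (s 1).pull a := by
    change (s 1).pull (a + 2 * b * c + b ^ 2 * d) = _
    simp only [map_add, map_mul, map_pow, map_ofNat]
    rw [h11]
    ring
  have A1 : Associated ((s 1).pull a) ((s 0).pull b) := by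
    have h1 : Associated ((s 1).pull a) ((s 1).r - (s 0).r) := (s 1).assoc (s 0)
    have h2 : Associated ((s 0).pull b) ((s 0).r - (s 1).r) := (s 0).assoc (s 1)
    have h3 : Associated ((s 1).r - (s 0).r) ((s 0).r - (s 1).r) := by
      rw [← neg_sub]
      exact Associated.neg_left (Associated.refl _)
    exact h1.trans (h3.trans h2.symm)
  have D02 : (s 0).pull b * (s 0).pull c ∣ (s 2).r - (s 0).r := by
    rw [← E02, ← neg_sub, dvd_neg]
    exact ((s 0).assoc (s 2)).dvd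
  obtain ⟨t, ht⟩ := D02.trans ((s 0).pull_sub_dvd (s 2) b)
  obtain ⟨t', ht'⟩ := D02.trans ((s 0).pull_sub_dvd (s 2) c)
  obtain ⟨t'', ht''⟩ := D02.trans ((s 0).pull_sub_dvd (s 2) d)
  set β := (s 0).pull b with hβ
  set γ := (s 0).pull c with hγ'
  set δ := (s 0).pull d with hδ
  set θ : R1 n K := t' + t * δ + β * (1 + γ * t) * t'' with hθ
  have hb2 : (s 2).pull b = β * (1 + γ * t) := by linear_combination ht
  have hc2 : (s 2).pull c = γ + β * γ * t' := by linear_combination ht'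
  have hd2 : (s 2).pull d = δ + β * γ * t'' := by linear_combination ht''
  have E23 : (s 2).pull (comps1 a b c d 3) = (s 2).pull b * ((1 + β * θ) * γ + β * δ) := by
    have h1 : comps1 a b c d 3 = (a + b * c) + b * (c + b * d) := by
      change a + 2 * b * c + b ^ 2 * d = _
      ring
    rw [h1, map_add, h22, zero_add, map_mul, map_add, map_mul]
    congr 1
    rw [hb2, hc2, hd2, hθ]
    ring
  have A2 : Associated ((s 2).pull b) β := by
    rw [hb2]
    exact associated_mul_unit_left _ _ (isUnit_one_add (Ideal.mul_mem_right _ _ hγ))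
  have hP : ∏ i, comps2 β γ δ θ i = β * γ * (2 * γ + β * δ) * ((1 + β * θ) * γ + β * δ) := by
    rw [Fin.prod_univ_four]
    rfl
  have key : ∀ i j, i < j → ((s i).pull (comps1 a b c d j) ∣ ∏ i, comps2 β γ δ θ i) ∧
      β ∣ (s i).pull (comps1 a b c d j) := by
    intro i j hij
    rw [hP]
    have hβP : β ∣ β * γ * (2 * γ + β * δ) * ((1 + β * θ) * γ + β * δ) :=
      ⟨γ * (2 * γ + β * δ) * ((1 + β * θ) * γ + β * δ), by ring⟩
    fin_cases i <;> fin_cases j
    all_goals first | exact absurd hij (by decide) | skip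
    · exact ⟨hβP, dvd_refl _⟩
    · change (s 0).pull (comps1 a b c d 2) ∣ _ ∧ β ∣ (s 0).pull (comps1 a b c d 2)
      rw [E02]
      exact ⟨⟨(2 * γ + β * δ) * ((1 + β * θ) * γ + β * δ), by ring⟩, dvd_mul_right _ _⟩
    · change (s 0).pull (comps1 a b c d 3) ∣ _ ∧ β ∣ (s 0).pull (comps1 a b c d 3)
      rw [E03]
      exact ⟨⟨γ * ((1 + β * θ) * γ + β * δ), by ring⟩, dvd_mul_right _ _⟩
    · change (s 1).pull (comps1 a b c d 2) ∣ _ ∧ β ∣ (s 1).pull (comps1 a b c d 2)
      rw [E12]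
      exact ⟨A1.dvd.trans hβP, A1.symm.dvd⟩
    · change (s 1).pull (comps1 a b c d 3) ∣ _ ∧ β ∣ (s 1).pull (comps1 a b c d 3)
      rw [E13]
      exact ⟨A1.dvd.trans hβP, A1.symm.dvd⟩
    · change (s 2).pull (comps1 a b c d 3) ∣ _ ∧ β ∣ (s 2).pull (comps1 a b c d 3)
      rw [E23]
      refine ⟨(mul_dvd_mul_right A2.dvd _).trans ?_, A2.symm.dvd.trans (dvd_mul_right _ _)⟩
      exact ⟨γ * (2 * γ + β * δ), by ring⟩
  refine ⟨hLI, ⟨θ, ⟨rad_comps2 θ hLI, fun i j hij => ⟨1, ?_⟩, ⟨1, ?_⟩⟩⟩,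
    fun i j hij => (key i j hij).2⟩
  · rw [pow_one]
    exact (key i j hij).1
  · rw [pow_one, hP, Fin.prod_univ_four]
    have f0 : (Finset.univ.filter (fun j : Fin 4 => (0 : Fin 4) < j)) = {1, 2, 3} := by decide
    have f1 : (Finset.univ.filter (fun j : Fin 4 => (1 : Fin 4) < j)) = {2, 3} := by decide
    have f2 : (Finset.univ.filter (fun j : Fin 4 => (2 : Fin 4) < j)) = {3} := by decide
    have f3 : (Finset.univ.filter (fun j : Fin 4 => (3 : Fin 4) < j)) = ∅ := by decide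
    rw [f0, f1, f2, f3, Finset.prod_insert (by decide), Finset.prod_insert (by decide),
      Finset.prod_singleton, Finset.prod_insert (by decide), Finset.prod_singleton,
      Finset.prod_singleton, Finset.prod_empty, E01, E02, E03, E12, E13, E23, hb2]
    exact ⟨β * β * (s 1).pull a * (s 1).pull a * β * (1 + γ * t), by ring⟩

end Pool.Agent.Helper38.GP
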