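import Pool.Agent.Helper38.GP.Comps

/-! The discriminant of `b c (2 c + b d) ((1 + b θ) c + b d) = 0`. -/

namespace Pool.Agent.Helper38.GP

open MvPowerSeries Pool.Agent.Helper38.EQ
open Pool.Agent.Helper38.ED (LI LI_iff prime_of_notMem_sq exists_eval discr_prod Rad comps0 comps1 comps2 comps3 isUnit_natCast_add isUnit_one_add rad_comps1 rad_comps2)

private theorem Calc2_isUnit_two {n : ℕ} {K : Type} [Field K] [CharZero K] :
    IsUnit (2 : R1 n K) := by
  have := charZero_gen n K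
  rw [MvPowerSeries.isUnit_iff_constantCoeff, map_ofNat]
  exact (two_ne_zero).isUnit

private theorem Calc2_rad {n : ℕ} {L : Type} [Field L] {β δ : MvPowerSeries (Fin n) L}
    (h : LI ![β, δ]) : Rad (β * δ) := by
  have h' : LI ![δ, β] := by
    have := h.comp (![1, 0] : Fin 2 → Fin 2) (by decide)
    have e : (fun i => ![β, δ] ((![1, 0] : Fin 2 → Fin 2) i)) = ![δ, β] := by
      funext i
      fin_cases i <;> rfl
    rwa [e] at this
  have h1 := Rad.prod ![β, δ] (fun i => prime_of_notMem_sq (h.mem i) (h.notMem_sq i)) (by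
    intro i j hij
    fin_cases i <;> fin_cases j
    · exact absurd rfl hij
    · exact h.not_dvd
    · exact h'.not_dvd
    · exact absurd rfl hij)
  have e : ∏ i, ![β, δ] i = β * δ := by
    rw [Fin.prod_univ_two]
    rfl
  rwa [e] at h1

private theorem Calc2_aux {n : ℕ} {K : Type} [Field K] [CharZero K] {p : Proj n K}
    {b c d θ : MvPowerSeries (Fin (n + 1)) K}
    (h : LI ![b, c, d]) (s0 : Sec p b) (s1 : Sec p c) (s2 : Sec p (2 * c + b * d)) :
    LI ![s1.pull b, s1.pull d] ∧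
    (s1.pull b ∣ s0.pull c ∧ s0.pull c ∣ s1.pull b * s1.pull d) ∧
    (s1.pull b ∣ s0.pull (2 * c + b * d) ∧ s0.pull (2 * c + b * d) ∣ s1.pull b * s1.pull d) ∧
    (s1.pull b ∣ s0.pull ((1 + b * θ) * c + b * d) ∧
      s0.pull ((1 + b * θ) * c + b * d) ∣ s1.pull b * s1.pull d) ∧
    (s1.pull (2 * c + b * d) = s1.pull b * s1.pull d) ∧
    (s1.pull ((1 + b * θ) * c + b * d) = s1.pull b * s1.pull d) ∧
    (s1.pull b ∣ s2.pull ((1 + b * θ) * c + b * d) ∧
      s2.pull ((1 + b * θ) * c + b * d) ∣ s1.pull b * s1.pull d) := by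
  have hb : b ∈ IsLocalRing.maximalIdeal (MvPowerSeries (Fin (n + 1)) K) := h.mem 0
  have h2 := Calc2_isUnit_two (n := n) (K := K)
  have hLI : LI ![s1.pull b, s1.pull d] := by
    have h3 : LI (Fin.cons c ![b, d] : Fin 3 → MvPowerSeries (Fin (n + 1)) K) := by
      have := h.comp (![1, 0, 2] : Fin 3 → Fin 3) (by decide)
      have e : (fun i => ![b, c, d] ((![1, 0, 2] : Fin 3 → Fin 3) i)) =
          (Fin.cons c ![b, d] : Fin 3 → MvPowerSeries (Fin (n + 1)) K) := by
        funext i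
        fin_cases i <;> rfl
      rwa [e] at this
    have h4 := s1.LI_pull ![b, d] h3
    have e : (fun i => s1.pull ((![b, d] : Fin 2 → MvPowerSeries (Fin (n + 1)) K) i)) =
        ![s1.pull b, s1.pull d] := by
      funext i
      fin_cases i <;> rfl
    rwa [e] at h4
  have h00 : s0.pull b = 0 := s0.pull_self
  have h11 : s1.pull c = 0 := s1.pull_self
  have h22 : 2 * s2.pull c + s2.pull b * s2.pull d = 0 := by
    have := s2.pull_self
    rwa [map_add, map_mul, map_mul, map_ofNat] at this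
  -- `ι_0 c ~ β`
  have a01 : Associated (s0.pull c) (s1.pull b) := by
    have h5 := s0.assoc s1
    have h6 := s1.assoc s0
    have h7 : Associated (s0.r - s1.r) (s1.r - s0.r) := by
      rw [← neg_sub]
      exact (Associated.refl _).neg_left
    exact (h5.trans h7).trans h6.symm
  have e02 : s0.pull (2 * c + b * d) = 2 * s0.pull c := by
    rw [map_add, map_mul, map_mul, map_ofNat, h00]
    ring
  have e03 : s0.pull ((1 + b * θ) * c + b * d) = s0.pull c := by
    rw [map_add, map_mul, map_mul, map_add, map_mul, map_one, h00]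
    ring
  have e12 : s1.pull (2 * c + b * d) = s1.pull b * s1.pull d := by
    rw [map_add, map_mul, map_mul, map_ofNat, h11]
    ring
  have e13 : s1.pull ((1 + b * θ) * c + b * d) = s1.pull b * s1.pull d := by
    rw [map_add, map_mul, map_mul, map_add, map_mul, map_one, h11]
    ring
  have a02 : Associated (s0.pull (2 * c + b * d)) (s1.pull b) := by
    rw [e02]
    exact (associated_unit_mul_left _ _ h2).trans a01
  -- `ι_2 b ~ β`
  have a20 : Associated (s2.pull b) (s1.pull b) := by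
    have h5 := s2.assoc s0
    have h6 := s0.assoc s2
    have h7 : Associated (s2.r - s0.r) (s0.r - s2.r) := by
      rw [← neg_sub]
      exact (Associated.refl _).neg_left
    exact ((h5.trans h7).trans h6.symm).trans a02
  -- `ι_2 d ~ δ`
  have a2d : Associated (s2.pull d) (s1.pull d) := by
    have h5 : Associated (s2.r - s1.r) (s1.pull b * s1.pull d) := by
      have h6 := s1.assoc s2
      rw [e12] at h6
      have h7 : Associated (s2.r - s1.r) (s1.r - s2.r) := by
        rw [← neg_sub]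
        exact (Associated.refl _).neg_left
      exact h7.trans h6.symm
    obtain ⟨t, ht⟩ := h5.symm.dvd.trans (s1.pull_sub_dvd s2 d)
    have h6 : s2.pull d = (1 + s1.pull b * t) * s1.pull d := by
      linear_combination ht
    rw [h6]
    refine associated_unit_mul_left _ _ (isUnit_one_add ?_)
    exact Ideal.mul_mem_right _ _ (s1.pull_mem hb)
  have e23 : 2 * s2.pull ((1 + b * θ) * c + b * d) =
      (1 + s2.pull b * (-s2.pull θ)) * (s2.pull b * s2.pull d) := by
    rw [map_add, map_mul, map_mul, map_add, map_mul, map_one]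
    linear_combination (1 + s2.pull b * s2.pull θ) * h22
  have a23 : Associated (s2.pull ((1 + b * θ) * c + b * d)) (s1.pull b * s1.pull d) := by
    have h5 : Associated (2 * s2.pull ((1 + b * θ) * c + b * d))
        (s2.pull ((1 + b * θ) * c + b * d)) := associated_unit_mul_left _ _ h2
    have h6 : IsUnit (1 + s2.pull b * (-s2.pull θ)) :=
      isUnit_one_add (Ideal.mul_mem_right _ _ (s2.pull_mem hb))
    have h7 : Associated (2 * s2.pull ((1 + b * θ) * c + b * d)) (s2.pull b * s2.pull d) := by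
      rw [e23]
      exact associated_unit_mul_left _ _ h6
    exact h5.symm.trans (h7.trans (a20.mul_mul a2d))
  refine ⟨hLI, ⟨a01.symm.dvd, a01.dvd.trans (Dvd.intro _ rfl)⟩,
    ⟨a02.symm.dvd, a02.dvd.trans (Dvd.intro _ rfl)⟩, ?_, e12, e13, ?_, a23.dvd⟩
  · rw [e03]
    exact ⟨a01.symm.dvd, a01.dvd.trans (Dvd.intro _ rfl)⟩
  · exact (Dvd.intro _ rfl).trans a23.symm.dvd

/-- Let `e_0 = b`, `e_1 = c`, `e_2 = 2 c + b d`, `e_3 = (1 + b θ) c + b d`, `ι_i = (s i).pull`,
`β = ι_1 b`, `δ = ι_1 d`. Then `LI ![β, δ]` by `Sec.LI_pull` (and `LI.comp` for the order), so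
`β`, `δ` are nonassociated primes and `β δ` is radical.
The restrictions, up to units (`~` is `Associated`; `ι_i e_j ~ r_i - r_j ~ ι_j e_i` by `Sec.assoc`):
* `(0,1)`: `ι_0 c ~ ι_1 b = β`.
* `(0,2)`: `ι_0 e_2 = 2 ι_0 c + ι_0 b * ι_0 d = 2 ι_0 c ~ β` as `ι_0 b = 0`.
* `(0,3)`: `ι_0 e_3 = ι_0 c ~ β`.
* `(1,2)`: `ι_1 e_2 = β δ` as `ι_1 c = 0`.
* `(1,3)`: `ι_1 e_3 = β δ`.
* `(2,3)`: `ι_2 e_2 = 0` gives `2 ι_2 c = - ι_2 b * ι_2 d`, so
  `2 ι_2 e_3 = - (1 + ι_2 b * ι_2 θ) ι_2 b ι_2 d + 2 ι_2 b ι_2 d = ι_2 b ι_2 d (1 - ι_2 b ι_2 θ)`,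
  a unit times `ι_2 b * ι_2 d`; `ι_2 b ~ ι_0 e_2 ~ β`; `ι_2 d = δ + (multiple of r_2 - r_1)` by
  `pull_sub_dvd`, `r_2 - r_1 ~ β δ`, so `ι_2 d = δ (1 + β t) ~ δ`. -/
theorem calc2 {n : ℕ} {K : Type} [Field K] [CharZero K] (p : Proj n K)
    {b c d : MvPowerSeries (Fin (n + 1)) K} (θ : MvPowerSeries (Fin (n + 1)) K)
    (h : LI ![b, c, d]) (s : ∀ i, Sec p (comps2 b c d θ i)) :
    LI ![(s 1).pull b, (s 1).pull d] ∧
    IsDisc s ((s 1).pull b * (s 1).pull d) ∧
    ∀ i j, i < j → (s 1).pull b ∣ (s i).pull (comps2 b c d θ j) := by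
  obtain ⟨hLI, h01, h02, h03, h12, h13, h23⟩ := Calc2_aux (θ := θ) h (s 0) (s 1) (s 2)
  have key : ∀ i j, i < j → ((s 1).pull b ∣ (s i).pull (comps2 b c d θ j) ∧
      (s i).pull (comps2 b c d θ j) ∣ (s 1).pull b * (s 1).pull d) := by
    intro i j hij
    have k12 : (s 1).pull b ∣ (s 1).pull (2 * c + b * d) ∧
        (s 1).pull (2 * c + b * d) ∣ (s 1).pull b * (s 1).pull d :=
      ⟨(Dvd.intro _ rfl).trans h12.symm.dvd, h12.dvd⟩
    have k13 : (s 1).pull b ∣ (s 1).pull ((1 + b * θ) * c + b * d) ∧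
        (s 1).pull ((1 + b * θ) * c + b * d) ∣ (s 1).pull b * (s 1).pull d :=
      ⟨(Dvd.intro _ rfl).trans h13.symm.dvd, h13.dvd⟩
    fin_cases i <;> fin_cases j
    · exact absurd hij (by decide)
    · exact h01
    · exact h02
    · exact h03
    · exact absurd hij (by decide)
    · exact absurd hij (by decide)
    · exact k12
    · exact k13
    · exact absurd hij (by decide)
    · exact absurd hij (by decide)
    · exact absurd hij (by decide)
    · exact h23
    · exact absurd hij (by decide)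
    · exact absurd hij (by decide)
    · exact absurd hij (by decide)
    · exact absurd hij (by decide)
  refine ⟨hLI, ⟨Calc2_rad hLI, fun i j hij => ⟨1, ?_⟩, ⟨1, ?_⟩⟩, fun i j hij => (key i j hij).1⟩
  · rw [pow_one]
    exact (key i j hij).2
  · rw [pow_one]
    have h5 : (s 1).pull b * (s 1).pull d ∣ (s 1).pull (comps2 b c d θ 2) := h12.symm.dvd
    refine h5.trans ?_
    refine Dvd.dvd.trans ?_ (Finset.dvd_prod_of_mem
      (fun i => ∏ j ∈ Finset.univ.filter (fun j => i < j), (s i).pull (comps2 b c d θ j))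
      (Finset.mem_univ (1 : Fin 4)))
    exact Finset.dvd_prod_of_mem (fun j => (s 1).pull (comps2 b c d θ j))
      (Finset.mem_filter.2 ⟨Finset.mem_univ (2 : Fin 4), by decide⟩)

end Pool.Agent.Helper38.GP
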