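import Pool.Agent.Helper38.GP.Step
import Pool.Agent.Helper38.GP.SecLI
import Pool.Agent.Helper38.ED.PrimeOf

/-! Imports for the computations. -/

namespace Pool.Agent.Helper38.GP

theorem charZero_gen (_n : ℕ) (K : Type) [Field K] [h : CharZero K] : CharZero K := h

end Pool.Agent.Helper38.GP
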