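import Pool.Agent.Helper38.GP.EquiStep

/-! Ideals of curves, and their images. -/

namespace Pool.Agent.Helper38.GP

open MvPowerSeries Pool.Agent.Helper38.EQ

private theorem curveA_ex_mem {n : ℕ} {K : Type} [Field K] (p : Proj n K)
    (I : Ideal (MvPowerSeries (Fin (n + 1)) K)) (h : MvPowerSeries (Fin (n + 1)) K) :
    p.σ (ex h) ∈ Ideal.map p.σ I ↔ h ∈ I := by
  rw [mem_map_algEquiv, ex_eq]

private theorem curveA_iff {n : ℕ} {K : Type} [Field K] {p : Proj n K}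
    {e : MvPowerSeries (Fin (n + 1)) K} {I : Ideal (MvPowerSeries (Fin (n + 1)) K)}
    (s : Sec p e) (he : e ∈ I) (φ : PowerSeries (R1 n K)) :
    s.ε φ ∈ p.img I ↔ φ ∈ Ideal.map p.σ I := by
  have h0 : PowerSeries.X - PowerSeries.C s.r ∈ Ideal.map p.σ I := by
    have h1 : p.σ (ex e) ∈ Ideal.map p.σ I := (curveA_ex_mem p I e).2 he
    rw [s.eq] at h1
    exact (Ideal.unit_mul_mem_iff_mem _ s.isUnit).mp h1
  have h2 : s.ε φ ∈ p.img I ↔ PowerSeries.C (s.ε φ) ∈ Ideal.map p.σ I := Iff.rfl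
  rw [h2]
  obtain ⟨q, hq⟩ := s.ε_dvd φ
  have h1 : (PowerSeries.X - PowerSeries.C s.r) * q ∈ Ideal.map p.σ I :=
    Ideal.mul_mem_right _ _ h0
  constructor
  · intro h
    rw [hq]
    exact Ideal.add_mem _ h h1
  · intro h
    rw [hq] at h
    exact (Ideal.add_mem_iff_left _ h1).mp h

/-- If `e, h ∈ I`, the restriction of `h` to `e = 0` is in `img I` (compare
`Sec.pull_mem_img` in `ED/UpDown.lean`). -/
theorem Sec.pull_mem_img {n : ℕ} {K : Type} [Field K] {p : Proj n K}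
    {e : MvPowerSeries (Fin (n + 1)) K} {I : Ideal (MvPowerSeries (Fin (n + 1)) K)}
    (s : Sec p e) (he : e ∈ I) {h : MvPowerSeries (Fin (n + 1)) K} (hh : h ∈ I) :
    s.pull h ∈ p.img I := by
  rw [Sec.pull_apply, curveA_iff s he, curveA_ex_mem]
  exact hh

/-- Conversely (`I` need not be radical). -/
theorem Sec.mem_of_pull_mem {n : ℕ} {K : Type} [Field K] {p : Proj n K}
    {e : MvPowerSeries (Fin (n + 1)) K} {I : Ideal (MvPowerSeries (Fin (n + 1)) K)}
    (s : Sec p e) (he : e ∈ I) {h : MvPowerSeries (Fin (n + 1)) K}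
    (hh : s.pull h ∈ p.img I) : h ∈ I := by
  rw [Sec.pull_apply, curveA_iff s he, curveA_ex_mem] at hh
  exact hh

end Pool.Agent.Helper38.GP
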