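import Pool.Agent.Helper38.GP.EquiStep
import Pool.Agent.Helper38.GP.CurveA

/-! Ideals of curves, and their images. -/

namespace Pool.Agent.Helper38.GP

open MvPowerSeries Pool.Agent.Helper38.EQ

/-- `I` is the kernel of a homomorphism to `K⟦s⟧`, not the whole maximal ideal. -/
def CurveIdeal {n : ℕ} {K : Type} [Field K] (I : Ideal (MvPowerSeries (Fin n) K)) : Prop :=
  ∃ φ : MvPowerSeries (Fin n) K →ₐ[K] PowerSeries K, RingHom.ker φ = I ∧
    ∃ x ∈ IsLocalRing.maximalIdeal (MvPowerSeries (Fin n) K), φ x ≠ 0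

/-- The image of a curve is a curve. Proof: for `φ` with kernel `I`, `φ ∘ σ⁻¹ ∘ C` has kernel
`p.img I`. If it vanished on the maximal ideal, `φ ∘ σ⁻¹` would vanish on the `C (X i)`, and on
`X - C r` (from `exists_root` for `a ∈ I`), so `φ` would vanish on the maximal ideal. -/
theorem CurveIdeal.img {n : ℕ} {K : Type} [Field K] {p : Proj n K}
    {I : Ideal (MvPowerSeries (Fin (n + 1)) K)} (hI : CurveIdeal I)
    {a : MvPowerSeries (Fin (n + 1)) K}
    (ha1 : a ∈ IsLocalRing.maximalIdeal (MvPowerSeries (Fin (n + 1)) K))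
    (ha : a ∈ I) (ht : p.tr a ≠ 0) : CurveIdeal (p.img I) := by
  obtain ⟨φ, hφ, x, hx, hxφ⟩ := hI
  obtain ⟨r, U, hr, hU, hrU⟩ := exists_root p a ha1 ht
  rw [ex_eq] at hrU
  let ψ : PowerSeries (R1 n K) →ₐ[K] PowerSeries K :=
    φ.comp (p.σ.symm : PowerSeries (R1 n K) →ₐ[K] MvPowerSeries (Fin (n + 1)) K)
  have hψ : ∀ h, ψ (p.σ h) = φ h := fun h => by
    change φ (p.σ.symm (p.σ h)) = φ h
    rw [AlgEquiv.symm_apply_apply]
  let χ : R1 n K →ₐ[K] PowerSeries K :=
    { (ψ : PowerSeries (R1 n K) →+* PowerSeries K).comp (PowerSeries.C (R := R1 n K)) with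
      commutes' := by
        intro c
        have h4 : algebraMap K (PowerSeries (R1 n K)) c = PowerSeries.C (algebraMap K (R1 n K) c) := by
          rw [IsScalarTower.algebraMap_apply K (R1 n K) (PowerSeries (R1 n K))]
          rfl
        change ψ (PowerSeries.C (algebraMap K (R1 n K) c)) = _
        rw [← h4, AlgHom.commutes] }
  have hχ : ∀ h, χ h = ψ (PowerSeries.C h) := fun h => rfl
  refine ⟨χ, ?_, ?_⟩
  · ext h
    rw [RingHom.mem_ker, hχ]
    have h1 : PowerSeries.C h = p.σ (p.σ.symm (PowerSeries.C h)) :=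
      (AlgEquiv.apply_symm_apply _ _).symm
    have h2 : h ∈ p.img I ↔ PowerSeries.C h ∈ Ideal.map p.σ I := Iff.rfl
    rw [h2, h1, mem_map_algEquiv, hψ, ← hφ, RingHom.mem_ker]
  · by_contra hcon
    push Not at hcon
    have h1 : ψ U * ψ (PowerSeries.X - PowerSeries.C r) = 0 := by
      rw [← map_mul, ← hrU, hψ]
      rw [← hφ, RingHom.mem_ker] at ha
      exact ha
    have h2 : ψ PowerSeries.X = 0 := by
      rcases mul_eq_zero.1 h1 with h3 | h3
      · exact absurd h3 (hU.map ψ).ne_zero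
      · rw [map_sub, ← hχ, hcon r hr, sub_zero] at h3
        exact h3
    apply hxφ
    obtain ⟨q, hq⟩ := PowerSeries.X_dvd_iff.2
      (show PowerSeries.constantCoeff (p.σ x - PowerSeries.C (PowerSeries.constantCoeff (p.σ x))) = 0
        by simp)
    have h3 : p.σ x = PowerSeries.C (PowerSeries.constantCoeff (p.σ x)) + PowerSeries.X * q := by
      rw [← hq]
      ring
    have h4 : PowerSeries.constantCoeff (p.σ x) ∈ IsLocalRing.maximalIdeal (R1 n K) := by
      intro h5
      have h6 : IsUnit (p.σ x) := PowerSeries.isUnit_iff_constantCoeff.2 h5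
      have h7 : IsUnit x := by
        have := h6.map p.σ.symm
        rwa [AlgEquiv.symm_apply_apply] at this
      exact hx h7
    rw [← hψ, h3, map_add, map_mul, h2, zero_mul, add_zero, ← hχ]
    exact hcon _ h4

/-- a curve in one variable -/
private theorem CurveId_one {K : Type} [Field K] {I : Ideal (MvPowerSeries (Fin 1) K)}
    (hI : CurveIdeal I) : I = ⊥ := by
  classical
  obtain ⟨φ, hφ, x, hx, hxφ⟩ := hI
  rw [eq_bot_iff]
  intro h hh
  rw [Ideal.mem_bot]
  by_contra hne
  rw [← hφ, RingHom.mem_ker] at hh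
  have h0 : ∀ m : Fin 1 →₀ ℕ, m = Finsupp.single 0 (m 0) := by
    intro m
    refine Finsupp.ext fun i => ?_
    rw [Subsingleton.elim i 0, Finsupp.single_eq_same]
  have h1 : ∃ k, coeff (Finsupp.single (0 : Fin 1) k) h ≠ 0 := by
    by_contra hcon
    push Not at hcon
    apply hne
    apply MvPowerSeries.ext
    intro m
    rw [h0 m, hcon, map_zero]
  have h2 : (X (0 : Fin 1) : MvPowerSeries (Fin 1) K) ^ Nat.find h1 ∣ h := by
    rw [X_pow_dvd_iff]
    intro m hm
    by_contra hcon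
    rw [h0 m] at hcon
    exact Nat.find_min h1 hm hcon
  obtain ⟨u, hu⟩ := h2
  have h3 : IsUnit u := by
    rw [MvPowerSeries.isUnit_iff_constantCoeff, isUnit_iff_ne_zero,
      ← coeff_zero_eq_constantCoeff_apply]
    have h4 := Nat.find_spec h1
    have h5 : coeff (Finsupp.single (0 : Fin 1) (Nat.find h1) + 0)
        (monomial (Finsupp.single (0 : Fin 1) (Nat.find h1)) 1 * u) = 1 * coeff 0 u :=
      coeff_add_monomial_mul _ _ _ _
    rw [← X_pow_eq, ← hu, add_zero, one_mul] at h5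
    rwa [h5] at h4
  have h4 : φ (X 0) ^ Nat.find h1 * φ u = 0 := by
    rw [← map_pow, ← map_mul, ← hu, hh]
  have h5 : φ (X 0) = 0 := by
    rcases mul_eq_zero.1 h4 with h6 | h6
    · exact eq_zero_of_pow_eq_zero h6
    · exact absurd h6 (h3.map φ).ne_zero
  have h6 : (X (0 : Fin 1) : MvPowerSeries (Fin 1) K) ∣ x := by
    rw [X_dvd_iff]
    intro m hm
    rw [mem_maximalIdeal_iff_constantCoeff] at hx
    rw [h0 m, hm, Finsupp.single_zero, coeff_zero_eq_constantCoeff_apply, hx]
  obtain ⟨g, rfl⟩ := h6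
  apply hxφ
  rw [map_mul, h5, zero_mul]

/-- In two variables, a curve contained in a smooth curve is equal to it. Proof: let `δ = τ (X 0)`
for an automorphism `τ`; modulo `δ` every element is `τ (X 1) ^ k` times a unit, or zero; `I` is prime
and does not contain the maximal ideal. -/
theorem CurveIdeal.eq_span {K : Type} [Field K] {I : Ideal (MvPowerSeries (Fin 2) K)}
    (hI : CurveIdeal I) {δ : MvPowerSeries (Fin 2) K}
    (h1 : δ ∈ IsLocalRing.maximalIdeal (MvPowerSeries (Fin 2) K))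
    (h2 : δ ∉ IsLocalRing.maximalIdeal (MvPowerSeries (Fin 2) K) ^ 2) (hδ : δ ∈ I) :
    I = Ideal.span {δ} := by
  obtain ⟨v, hv⟩ := exists_lin_of_notMem_sq h1 h2
  have hv0 : v ≠ 0 := by
    rintro rfl
    apply hv
    simp [lin]
  obtain ⟨p, hp, -⟩ := exists_proj_of_vec (n := 1) v hv0
  have ht : p.tr δ ≠ 0 := by
    rw [p.tr_eq_lin]
    have h3 : (fun j => p.tr (X j)) = v := funext hp
    rw [h3]
    exact hv
  have hbot : p.img I = ⊥ := CurveId_one (hI.img h1 hδ ht)
  obtain ⟨s⟩ := exists_sec p δ h1 ht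
  apply le_antisymm
  · intro h hh
    have h3 := s.pull_mem_img hδ hh
    rw [hbot, Ideal.mem_bot, Sec.pull_apply, ex_eq] at h3
    obtain ⟨q, hq⟩ := s.ε_dvd (p.σ h)
    rw [h3, map_zero, zero_add] at hq
    have h4 := s.eq
    rw [ex_eq] at h4
    obtain ⟨U, hU⟩ := s.isUnit
    have h5 : p.σ h ∈ Ideal.map p.σ (Ideal.span {δ}) := by
      rw [hq]
      apply Ideal.mul_mem_right
      have h6 : PowerSeries.X - PowerSeries.C s.r =
          ((U⁻¹ : (PowerSeries (R1 1 K))ˣ) : PowerSeries (R1 1 K)) * p.σ δ := by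
        rw [h4, ← hU, ← mul_assoc, Units.inv_mul, one_mul]
      rw [h6]
      exact Ideal.mul_mem_left _ _ (Ideal.mem_map_of_mem _ (Ideal.mem_span_singleton_self δ))
    exact (mem_map_algEquiv p.σ _ _).1 h5
  · rw [Ideal.span_singleton_le_iff_mem]
    exact hδ

end Pool.Agent.Helper38.GP
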