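import Pool.Agent.Helper38.ED.Calc0D
import Pool.Agent.Helper38.EQ.Stmt

/-!
Sections of a projection, over a fixed field (the analogue of `ED/Defs.lean`, where the projection
is generic and defined over a bigger field).
-/

namespace Pool.Agent.Helper38.GP

open MvPowerSeries Pool.Agent.Helper38.EQ

/-- The ring of power series in `n` variables. -/
abbrev R1 (n : ℕ) (K : Type) [Field K] : Type := MvPowerSeries (Fin n) K

/-- The ring of power series in `n + 1` variables. -/
abbrev SL (n : ℕ) (K : Type) [Field K] : Type := MvPowerSeries (Fin (n + 1)) K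

/-- The identity map, written as an extension of the coefficients. -/
noncomputable abbrev ex {n : ℕ} {K : Type} [Field K] :
    MvPowerSeries (Fin (n + 1)) K →+* SL n K := ext K K

theorem ex_eq {n : ℕ} {K : Type} [Field K] (h : MvPowerSeries (Fin (n + 1)) K) : ex h = h := by
  apply MvPowerSeries.ext
  intro ν
  show coeff ν (MvPowerSeries.map (algebraMap K K) h) = _
  rw [coeff_map]
  rfl

/-- Coordinates `(y, z)`. -/
structure Proj (n : ℕ) (K : Type) [Field K] where
  /-- the coordinates -/
  σ : SL n K ≃ₐ[K] PowerSeries (R1 n K)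

/-- The section of the projection over the smooth hypersurface germ `e = 0`:
in the coordinates `(y, z)`, `e` is a unit times `z - r(y)`, and `ε` is the evaluation
`φ(y, z) ↦ φ(y, r(y))`. -/
structure Sec {n : ℕ} {K : Type} [Field K] (p : Proj n K)
    (e : MvPowerSeries (Fin (n + 1)) K) where
  /-- the root -/
  r : R1 n K
  r_mem : r ∈ IsLocalRing.maximalIdeal (R1 n K)
  /-- the unit -/
  U : PowerSeries (R1 n K)
  isUnit : IsUnit U
  eq : p.σ (ex e) = U * (PowerSeries.X - PowerSeries.C r)
  /-- the evaluation at the root -/
  ε : PowerSeries (R1 n K) →+* R1 n K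
  ε_C : ∀ a, ε (PowerSeries.C a) = a
  ε_X : ε PowerSeries.X = r
  ε_dvd : ∀ φ, ∃ q, φ = PowerSeries.C (ε φ) + (PowerSeries.X - PowerSeries.C r) * q

namespace Sec

variable {n : ℕ} {K : Type} [Field K] {p : Proj n K} {e : MvPowerSeries (Fin (n + 1)) K}

/-- The restriction of a power series to `e = 0`, as a power series in `y`. -/
noncomputable def ev (s : Sec p e) : SL n K →+* R1 n K :=
  s.ε.comp (p.σ : SL n K →+* PowerSeries (R1 n K))

/-- The restriction of a power series to `e = 0`, as a power series in `y`. -/
noncomputable def pull (s : Sec p e) : MvPowerSeries (Fin (n + 1)) K →+* R1 n K :=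
  s.ev.comp ex

end Sec

/-- The derivative of `h` in the direction of the fibre, at the origin. -/
noncomputable def Proj.tr {n : ℕ} {K : Type} [Field K] (p : Proj n K)
    (h : MvPowerSeries (Fin (n + 1)) K) : K :=
  constantCoeff (PowerSeries.coeff 1 (p.σ h))

end Pool.Agent.Helper38.GP
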