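import Pool.Agent.Helper38.GP.Comps
import Pool.Agent.Helper38.GP.ExistsLin

/-! One step of the recursion for unions of smooth germs. -/

namespace Pool.Agent.Helper38.GP

open MvPowerSeries Pool.Agent.Helper38.EQ

/-- A class of projections that contains the linear transversal projections. -/
def HasLin {K : Type} [Field K] (𝒞 : ProjClass K) : Prop :=
  ∀ (n : ℕ) (f : MvPowerSeries (Fin (n + 1)) K) (z : Fin n → MvPowerSeries (Fin (n + 1)) K),
    LinearTransversal K n f z → 𝒞 n f z

/-- The ideal of the image of `W`. -/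
noncomputable def Proj.img {n : ℕ} {K : Type} [Field K] (p : Proj n K)
    (I : Ideal (MvPowerSeries (Fin (n + 1)) K)) : Ideal (R1 n K) :=
  Ideal.comap (PowerSeries.C (R := R1 n K)) (Ideal.map p.σ I)

private theorem EquiA_C {n : ℕ} {K : Type} [Field K] (p : Proj n K) (a : K) :
    p.σ (C a) = PowerSeries.C (C a) := by
  have h2 := p.σ.commutes a
  have h3 : algebraMap K (SL n K) a = C a := rfl
  have h4 : algebraMap K (PowerSeries (R1 n K)) a = PowerSeries.C (C a) := by
    rw [IsScalarTower.algebraMap_apply K (R1 n K) (PowerSeries (R1 n K))]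
    rfl
  rw [← h3, h2, h4]

/-- The value of `σ h` at `t = 0`. -/
private noncomputable def EquiA_pi {n : ℕ} {K : Type} [Field K] (p : Proj n K) :
    MvPowerSeries (Fin (n + 1)) K →+* R1 n K :=
  (PowerSeries.constantCoeff (R := R1 n K)).comp (p.σ : SL n K →+* PowerSeries (R1 n K))

private theorem EquiA_pi_apply {n : ℕ} {K : Type} [Field K] (p : Proj n K)
    (h : MvPowerSeries (Fin (n + 1)) K) :
    EquiA_pi p h = PowerSeries.constantCoeff (p.σ h) := rfl

private theorem EquiA_pi_mem {n : ℕ} {K : Type} [Field K] (p : Proj n K)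
    {h : MvPowerSeries (Fin (n + 1)) K}
    (hh : h ∈ IsLocalRing.maximalIdeal (MvPowerSeries (Fin (n + 1)) K)) :
    EquiA_pi p h ∈ IsLocalRing.maximalIdeal (R1 n K) := by
  rw [IsLocalRing.mem_maximalIdeal, mem_nonunits_iff] at hh ⊢
  intro h1
  apply hh
  have h2 : IsUnit (p.σ h) := PowerSeries.isUnit_iff_constantCoeff.2 h1
  have h3 := h2.map p.σ.symm
  rwa [AlgEquiv.symm_apply_apply] at h3

private theorem EquiA_pi_z {n : ℕ} {K : Type} [Field K] (p : Proj n K) (a : R1 n K) :
    EquiA_pi p (p.σ.symm (PowerSeries.C a)) = a := by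
  rw [EquiA_pi_apply, AlgEquiv.apply_symm_apply, PowerSeries.constantCoeff_C]

private theorem EquiA_symm_mem {n : ℕ} {K : Type} [Field K] (p : Proj n K) {a : R1 n K}
    (ha : a ∈ IsLocalRing.maximalIdeal (R1 n K)) :
    p.σ.symm (PowerSeries.C a) ∈ IsLocalRing.maximalIdeal (MvPowerSeries (Fin (n + 1)) K) := by
  rw [IsLocalRing.mem_maximalIdeal, mem_nonunits_iff] at ha ⊢
  intro h1
  apply ha
  have h2 := h1.map (EquiA_pi p)
  rwa [EquiA_pi_z] at h2

/-- `σ⁻¹ (C a)` is in the ideal of the `z_i`. -/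
private theorem EquiA_symm_span {n : ℕ} {K : Type} [Field K] (p : Proj n K) {a : R1 n K}
    (ha : a ∈ IsLocalRing.maximalIdeal (R1 n K)) :
    p.σ.symm (PowerSeries.C a) ∈
      Ideal.span (Set.range fun i : Fin n => p.σ.symm (PowerSeries.C (X i))) := by
  rw [maximalIdeal_eq_span_X] at ha
  have h1 : Ideal.span (Set.range fun i => (X i : MvPowerSeries (Fin n) K)) ≤
      Ideal.comap ((p.σ.symm : PowerSeries (R1 n K) →+* SL n K).comp
        (PowerSeries.C (R := R1 n K)))
        (Ideal.span (Set.range fun i : Fin n => p.σ.symm (PowerSeries.C (X i)))) := by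
    rw [Ideal.span_le]
    rintro _ ⟨i, rfl⟩
    exact Ideal.subset_span ⟨i, rfl⟩
  exact h1 ha

/-- A prime ideal that contains the `z_i` and the last coordinate contains the maximal ideal. -/
private theorem EquiA_max_le {n : ℕ} {K : Type} [Field K] (p : Proj n K)
    (P : Ideal (MvPowerSeries (Fin (n + 1)) K))
    (h1 : Ideal.span (Set.range fun i : Fin n => p.σ.symm (PowerSeries.C (X i))) ≤ P)
    (h2 : p.σ.symm PowerSeries.X ∈ P) :
    IsLocalRing.maximalIdeal (MvPowerSeries (Fin (n + 1)) K) ≤ P := by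
  intro h hh
  have h3 : (PowerSeries.X : PowerSeries (R1 n K)) ∣
      p.σ h - PowerSeries.C (PowerSeries.constantCoeff (p.σ h)) := by
    rw [PowerSeries.X_dvd_iff, map_sub, PowerSeries.constantCoeff_C, sub_self]
  obtain ⟨q, hq⟩ := h3
  have h4 : h = p.σ.symm (PowerSeries.C (EquiA_pi p h)) + p.σ.symm PowerSeries.X * p.σ.symm q := by
    rw [← map_mul, ← map_add, ← hq, EquiA_pi_apply, add_sub_cancel, AlgEquiv.symm_apply_apply]
  rw [h4]
  exact P.add_mem (h1 (EquiA_symm_span p (EquiA_pi_mem p hh))) (P.mul_mem_right _ h2)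

/-- For `z_i = σ⁻¹ (C (X i))` and `f` a unit times `∏ e_i`, with `tr e_i ≠ 0`: the `z_i` form
a set of parameters. (The linear parts are independent, as `σ⁻¹` is an isomorphism; the ideal
generated by `f` and the `z_i` contains `σ⁻¹ X ^ m` times a unit: modulo the `y_i`,
`σ (e_i) = U (X - C r_i)` is a unit times `X`, by `exists_root`.) -/
theorem isParams_of_tr {n m : ℕ} {K : Type} [Field K] (p : Proj n K)
    {e : Fin m → MvPowerSeries (Fin (n + 1)) K}
    (he : ∀ i, e i ∈ IsLocalRing.maximalIdeal (MvPowerSeries (Fin (n + 1)) K))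
    (ht : ∀ i, p.tr (e i) ≠ 0) (hm : m ≠ 0) {f : MvPowerSeries (Fin (n + 1)) K}
    (hf : Associated f (∏ i, e i)) :
    IsParams f (fun i => p.σ.symm (PowerSeries.C (X i))) := by
  have hX : ∀ i : Fin n, (X i : R1 n K) ∈ IsLocalRing.maximalIdeal (R1 n K) := fun i => by
    rw [mem_maximalIdeal_iff_constantCoeff, constantCoeff_X]
  refine ⟨?_, le_antisymm ?_ ?_⟩
  · refine (Pool.Agent.Helper38.ED.LI_iff _).2 ⟨fun i => EquiA_symm_mem p (hX i), fun c hc => ?_⟩
    have h1 : EquiA_pi p (∑ i, C (c i) * p.σ.symm (PowerSeries.C (X i))) ∈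
        IsLocalRing.maximalIdeal (R1 n K) ^ 2 := by
      have h2 : IsLocalRing.maximalIdeal (MvPowerSeries (Fin (n + 1)) K) ≤
          Ideal.comap (EquiA_pi p) (IsLocalRing.maximalIdeal (R1 n K)) := fun h hh =>
        EquiA_pi_mem p hh
      have h3 := Ideal.pow_right_mono h2 2
      have h4 := h3.trans (Ideal.le_comap_pow (EquiA_pi p) 2)
      exact h4 hc
    have h5 : EquiA_pi p (∑ i, C (c i) * p.σ.symm (PowerSeries.C (X i))) =
        ∑ i, C (c i) * X i := by
      rw [map_sum]
      refine Finset.sum_congr rfl fun i _ => ?_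
      rw [map_mul, EquiA_pi_z, EquiA_pi_apply, EquiA_C, PowerSeries.constantCoeff_C]
    rw [h5, Pool.Agent.Helper38.ED.LIBasic1_mem_sq_iff] at h1
    funext j
    have h6 := h1.2 j
    rw [map_sum, Finset.sum_eq_single j] at h6
    · rw [coeff_C_mul, coeff_X, if_pos rfl, mul_one] at h6
      exact h6
    · intro b _ hb
      rw [coeff_C_mul, coeff_X, if_neg, mul_zero]
      intro h7
      exact hb ((Finsupp.single_left_injective one_ne_zero h7).symm)
    · intro h7
      exact absurd (Finset.mem_univ j) h7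
  · rw [(Ideal.IsMaximal.isPrime inferInstance :
      (IsLocalRing.maximalIdeal (MvPowerSeries (Fin (n + 1)) K)).IsPrime).radical_le_iff,
      Ideal.span_le]
    rintro x (rfl | ⟨i, rfl⟩)
    · have h1 : e ⟨0, Nat.pos_of_ne_zero hm⟩ ∣ x :=
        (Finset.dvd_prod_of_mem e (Finset.mem_univ _)).trans hf.symm.dvd
      exact Ideal.mem_of_dvd _ h1 (he _)
    · exact EquiA_symm_mem p (hX i)
  · rw [Ideal.radical_eq_sInf]
    refine le_sInf fun P hP => ?_
    obtain ⟨hJ, hPp⟩ := hP
    have hz : Ideal.span (Set.range fun i : Fin n => p.σ.symm (PowerSeries.C (X i))) ≤ P :=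
      (Ideal.span_mono (Set.subset_insert _ _)).trans hJ
    refine EquiA_max_le p P hz ?_
    have hfP : ∏ i, e i ∈ P := Ideal.mem_of_dvd _ hf.dvd (hJ (Ideal.subset_span (Set.mem_insert _ _)))
    obtain ⟨i, -, hi⟩ := hPp.prod_mem_iff.1 hfP
    obtain ⟨r, U, hr, hU, heq⟩ := exists_root p (e i) (he i) (ht i)
    rw [ex_eq] at heq
    have h1 : e i = p.σ.symm U * (p.σ.symm PowerSeries.X - p.σ.symm (PowerSeries.C r)) := by
      rw [← map_sub, ← map_mul, ← heq, AlgEquiv.symm_apply_apply]
    rw [h1] at hi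
    rcases hPp.mem_or_mem hi with h2 | h2
    · exact absurd (Ideal.eq_top_of_isUnit_mem _ h2 (hU.map p.σ.symm)) hPp.ne_top
    · have h3 := P.add_mem h2 (hz (EquiA_symm_span p hr))
      rwa [sub_add_cancel] at h3

/-- The projection is permissible if some `h ∈ I` has `tr h ≠ 0`: the line `l_z` is spanned by
`v = (tr (X j))_j` (`Proj.tr_eq_lin`; `tr (z_i) = 0`). -/
theorem permissible_of_tr {n : ℕ} {K : Type} [Field K] (p : Proj n K)
    {I : Ideal (MvPowerSeries (Fin (n + 1)) K)} {h : MvPowerSeries (Fin (n + 1)) K} (hh : h ∈ I)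
    (ht : p.tr h ≠ 0) : Permissible I (fun i => p.σ.symm (PowerSeries.C (X i))) := by
  refine ⟨fun j => p.tr (X j), fun i => ?_, h, hh, ?_⟩
  · rw [← p.tr_eq_lin]
    unfold Proj.tr
    rw [AlgEquiv.apply_symm_apply, PowerSeries.coeff_C, if_neg one_ne_zero, map_zero]
  · rwa [← p.tr_eq_lin]

end Pool.Agent.Helper38.GP
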