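import Pool.Agent.Helper38.GP.LinA

/-! Projections of unions of smooth germs are transversal. -/

namespace Pool.Agent.Helper38.GP

open MvPowerSeries Pool.Agent.Helper38.EQ

private theorem TransA_mem {n d : ℕ} (ν : Fin n →₀ ℕ) :
    ν ∈ Finset.univ.finsuppAntidiag d ↔ ν.degree = d := by
  rw [Finset.mem_finsuppAntidiag, Finsupp.degree_eq_sum]
  exact ⟨fun h => h.1, fun h => ⟨h, Finset.subset_univ _⟩⟩

private theorem TransA_w {n : ℕ} {K : Type} [Field K] (v : Fin n → K) (α β : Fin n →₀ ℕ) :
    ∏ j, v j ^ (α + β) j = (∏ j, v j ^ α j) * ∏ j, v j ^ β j := by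
  rw [← Finset.prod_mul_distrib]
  refine Finset.prod_congr rfl fun j _ => ?_
  rw [Finsupp.add_apply, pow_add]

/-- The least part of a product. -/
theorem homPart_mul {n : ℕ} {K : Type} [Field K] {f g : MvPowerSeries (Fin n) K} {c d : ℕ}
    (hf : ∀ ν : Fin n →₀ ℕ, ν.degree < c → coeff ν f = 0)
    (hg : ∀ ν : Fin n →₀ ℕ, ν.degree < d → coeff ν g = 0) (v : Fin n → K) :
    (∀ ν : Fin n →₀ ℕ, ν.degree < c + d → coeff ν (f * g) = 0) ∧
      homPart (f * g) (c + d) v = homPart f c v * homPart g d v := by
  classical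
  constructor
  · intro ν hν
    rw [coeff_mul]
    refine Finset.sum_eq_zero fun p hp => ?_
    rw [Finset.HasAntidiagonal.mem_antidiagonal] at hp
    have h1 : p.1.degree + p.2.degree = ν.degree := by
      rw [← map_add, hp]
    rcases lt_or_ge p.1.degree c with h | h
    · rw [hf _ h, zero_mul]
    · rw [hg p.2 (by omega), mul_zero]
  · unfold homPart
    have h1 : ∀ ν ∈ Finset.univ.finsuppAntidiag (c + d),
        coeff ν (f * g) * ∏ j, v j ^ ν j =
        ∑ p ∈ Finset.HasAntidiagonal.antidiagonal ν, (coeff p.1 f * ∏ j, v j ^ p.1 j) *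
          (coeff p.2 g * ∏ j, v j ^ p.2 j) := by
      intro ν _
      rw [coeff_mul, Finset.sum_mul]
      refine Finset.sum_congr rfl fun p hp => ?_
      rw [Finset.HasAntidiagonal.mem_antidiagonal] at hp
      rw [← hp, TransA_w]
      ring
    rw [Finset.sum_congr rfl h1, ← Finset.sum_biUnion, Finset.sum_mul_sum, ← Finset.sum_product']
    · symm
      apply Finset.sum_subset
      · intro p hp
        rw [Finset.mem_product, TransA_mem, TransA_mem] at hp
        rw [Finset.mem_biUnion]
        refine ⟨p.1 + p.2, ?_, Finset.HasAntidiagonal.mem_antidiagonal.2 rfl⟩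
        rw [TransA_mem, map_add, hp.1, hp.2]
      · intro p hp hp'
        rw [Finset.mem_biUnion] at hp
        obtain ⟨ν, hν, hp⟩ := hp
        rw [TransA_mem] at hν
        rw [Finset.HasAntidiagonal.mem_antidiagonal] at hp
        rw [Finset.mem_product, TransA_mem, TransA_mem] at hp'
        have h2 : p.1.degree + p.2.degree = c + d := by
          rw [← map_add, hp, hν]
        rcases lt_or_ge p.1.degree c with h | h
        · rw [hf _ h, zero_mul, zero_mul]
        · have h3 : p.2.degree < d := by
            by_contra h4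
            exact hp' ⟨by omega, by omega⟩
          rw [hg _ h3, zero_mul, mul_zero]
    · intro ν _ ν' _ hne
      rw [Function.onFun, Finset.disjoint_left]
      intro p hp hp'
      rw [Finset.HasAntidiagonal.mem_antidiagonal] at hp hp'
      exact hne (hp.symm.trans hp')

private theorem TransA_one {n : ℕ} {K : Type} [Field K] (h : MvPowerSeries (Fin n) K)
    (v : Fin n → K) : homPart h 1 v = lin h v := by
  classical
  unfold homPart lin
  have h1 : Finset.univ.finsuppAntidiag 1 =
      (Finset.univ : Finset (Fin n)).image fun j => Finsupp.single j 1 := by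
    ext ν
    rw [TransA_mem, Finset.mem_image]
    constructor
    · intro hν
      obtain ⟨j, hj⟩ : ∃ j, ν j ≠ 0 := by
        by_contra hcon
        push Not at hcon
        have : ν = 0 := Finsupp.ext hcon
        rw [this, map_zero] at hν
        exact zero_ne_one hν
      refine ⟨j, Finset.mem_univ j, ?_⟩
      rw [Finsupp.degree_eq_sum] at hν
      have h2 : ∑ i, ν i = ν j + ∑ i ∈ Finset.univ.erase j, ν i :=
        (Finset.add_sum_erase _ _ (Finset.mem_univ j)).symm
      ext i
      by_cases hi : i = j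
      · rw [hi, Finsupp.single_eq_same]
        omega
      · rw [Finsupp.single_eq_of_ne hi]
        have h3 : ν i ≤ ∑ i ∈ Finset.univ.erase j, ν i :=
          Finset.single_le_sum (f := fun i => ν i) (fun _ _ => Nat.zero_le _)
            (Finset.mem_erase.2 ⟨hi, Finset.mem_univ i⟩)
        omega
    · rintro ⟨j, -, rfl⟩
      rw [Finsupp.degree_single]
  rw [h1, Finset.sum_image (fun i _ j _ hij => Finsupp.single_left_injective one_ne_zero hij)]
  refine Finset.sum_congr rfl fun j _ => ?_
  congr 1
  rw [Finset.prod_eq_single j]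
  · rw [Finsupp.single_eq_same, pow_one]
  · intro i _ hij
    rw [Finsupp.single_eq_of_ne hij, pow_zero]
  · intro hj
    exact absurd (Finset.mem_univ j) hj

private theorem TransA_zero {n : ℕ} {K : Type} [Field K] (h : MvPowerSeries (Fin n) K)
    (v : Fin n → K) : homPart h 0 v = constantCoeff h := by
  unfold homPart
  rw [Finset.finsuppAntidiag_zero, Finset.sum_singleton]
  simp

private theorem TransA_prod {n : ℕ} {K : Type} [Field K] (v : Fin n → K) : ∀ (m : ℕ)
    (e : Fin m → MvPowerSeries (Fin n) K) (_ : ∀ i, constantCoeff (e i) = 0),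
    (∀ ν : Fin n →₀ ℕ, ν.degree < m → coeff ν (∏ i, e i) = 0) ∧
      homPart (∏ i, e i) m v = ∏ i, lin (e i) v := by
  intro m
  induction m with
  | zero =>
    intro e _
    refine ⟨fun ν hν => absurd hν (Nat.not_lt_zero _), ?_⟩
    rw [TransA_zero, Finset.univ_eq_empty, Finset.prod_empty, Finset.prod_empty, map_one]
  | succ m ih =>
    intro e he
    obtain ⟨h1, h2⟩ := ih (fun i => e i.castSucc) (fun i => he _)
    have h3 : ∀ ν : Fin n →₀ ℕ, ν.degree < 1 → coeff ν (e (Fin.last m)) = 0 := by
      intro ν hν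
      have h4 : ν.degree = 0 := by omega
      rw [Finsupp.degree_eq_zero_iff] at h4
      rw [h4]
      exact he _
    obtain ⟨h4, h5⟩ := homPart_mul h1 h3 v
    rw [Fin.prod_univ_castSucc, Fin.prod_univ_castSucc]
    refine ⟨h4, ?_⟩
    rw [h5, h2, TransA_one]

/-- If `f` is a unit times the product of the smooth germs `e_i`, with `tr e_i ≠ 0`, the projection
is transversal: `v = (tr X_j)_j`, `d = m`; the part of degree `m` of `f` is a constant times the
product of the linear parts of the `e_i`, and `lin (e_i) v = tr e_i` (`Proj.tr_eq_lin`); for the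
`z_i`: `tr z_i = 0`. -/
theorem transversal_of_tr {n m : ℕ} {K : Type} [Field K] (p : Proj n K)
    {e : Fin m → MvPowerSeries (Fin (n + 1)) K}
    (he : ∀ i, e i ∈ IsLocalRing.maximalIdeal (MvPowerSeries (Fin (n + 1)) K))
    (ht : ∀ i, p.tr (e i) ≠ 0) {f : MvPowerSeries (Fin (n + 1)) K}
    (hf : Associated f (∏ i, e i)) :
    Transversal f (fun i => p.σ.symm (PowerSeries.C (X i))) := by
  obtain ⟨u, hu⟩ := hf.symm
  have he' : ∀ i, constantCoeff (e i) = 0 := by
    intro i
    have h1 := he i
    rwa [IsLocalRing.mem_maximalIdeal, mem_nonunits_iff, isUnit_iff_constantCoeff,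
      isUnit_iff_ne_zero, not_not] at h1
  obtain ⟨h1, h2⟩ := TransA_prod (fun j => p.tr (X j)) m e he'
  obtain ⟨h3, h4⟩ := homPart_mul (d := 0) (g := (u : MvPowerSeries (Fin (n + 1)) K)) h1
    (fun ν hν => absurd hν (Nat.not_lt_zero _)) (fun j => p.tr (X j))
  rw [hu, add_zero] at h3 h4
  refine ⟨fun j => p.tr (X j), m, fun i => ?_, h3, ?_⟩
  · rw [← Proj.tr_eq_lin]
    unfold Proj.tr
    rw [AlgEquiv.apply_symm_apply, PowerSeries.coeff_C, if_neg one_ne_zero, map_zero]
  · rw [h4, h2, TransA_zero]
    refine mul_ne_zero (Finset.prod_ne_zero_iff.2 fun i _ => ?_) ?_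
    · rw [← Proj.tr_eq_lin]
      exact ht i
    · exact isUnit_iff_ne_zero.1 (isUnit_iff_constantCoeff.1 u.isUnit)

end Pool.Agent.Helper38.GP
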