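import Pool.Agent.Helper38.GP.Comps
import Pool.Agent.Helper38.GP.ExistsLin
import Pool.Agent.Helper38.GP.EquiA
import Pool.Agent.Helper38.GP.TransA

/-! One step of the recursion for unions of smooth germs. -/

namespace Pool.Agent.Helper38.GP

open MvPowerSeries Pool.Agent.Helper38.EQ

/-- One step for a given linear projection `p`: `isParams_of_tr`, `transversal_of_tr`,
`permissible_of_tr`, `IsDisc.exists` (`GP/Step.lean`), with `IsCrit` given by `⟨p.σ⟩`; `f ∈ I` as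
`e i₀ ∈ I`. -/
theorem equi_of_disc {K : Type} [Field K] {𝒞 : ProjClass K} (h𝒞 : HasLin 𝒞) {r n m : ℕ}
    (p : Proj n K) (hp : ∀ i : Fin n, IsLinear (p.σ.symm (PowerSeries.C (X i))))
    {e : Fin m → MvPowerSeries (Fin (n + 1)) K}
    (he : ∀ i, e i ∈ IsLocalRing.maximalIdeal (MvPowerSeries (Fin (n + 1)) K))
    (ht : ∀ i, p.tr (e i) ≠ 0) {f : MvPowerSeries (Fin (n + 1)) K}
    (hf : Associated f (∏ i, e i)) {I : Ideal (MvPowerSeries (Fin (n + 1)) K)} {i₀ : Fin m}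
    (hi : e i₀ ∈ I) {s : ∀ i, Sec p (e i)} {P : R1 n K} (hP : IsDisc s P)
    (hE : Equi 𝒞 r n P (p.img I)) : Equi 𝒞 (r + 1) (n + 1) f I := by
  have hm : m ≠ 0 := fun h => by
    subst h
    exact i₀.elim0
  have hfI : f ∈ I :=
    Ideal.mem_of_dvd _ ((Finset.dvd_prod_of_mem e (Finset.mem_univ i₀)).trans hf.symm.dvd) hi
  obtain ⟨F, U, hFU, hg⟩ := IsDisc.exists hP hf
  rw [ex_eq] at hFU
  refine ⟨hfI, fun i => p.σ.symm (PowerSeries.C (X i)), ?_, isParams_of_tr p he ht hm hf,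
    permissible_of_tr p hi (ht i₀), P, p.img I, ?_, hE⟩
  · exact h𝒞 n f _ ⟨hp, transversal_of_tr p he ht hf⟩
  · refine ⟨⟨p.σ⟩, F, fun i => ?_, ⟨U, hFU⟩, hg, rfl⟩
    exact p.σ.apply_symm_apply _

end Pool.Agent.Helper38.GP
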