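import Pool.Agent.Helper38.GP.Stmt

/-! Generic coefficients. -/

namespace Pool.Agent.Helper38.GP

open MvPowerSeries Pool.Agent.Helper38.EQ

/-- The polynomial power series are convergent. -/
theorem isConvergent_of_finite {n : ℕ} {h : MvPowerSeries (Fin n) ℂ}
    (hh : {ν | coeff ν h ≠ 0}.Finite) : IsConvergent h := by
  classical
  refine ⟨∑ ν ∈ hh.toFinset, ‖coeff ν h‖, 1, fun ν => ?_⟩
  rw [one_pow, mul_one]
  by_cases hν : coeff ν h = 0
  · rw [hν, norm_zero]
    exact Finset.sum_nonneg fun _ _ => norm_nonneg _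
  · exact Finset.single_le_sum (f := fun ν => ‖coeff ν h‖) (fun _ _ => norm_nonneg _)
      (hh.mem_toFinset.2 hν)

private abbrev GenPoly_I : Type := Fin 5 × {ν : Fin 6 →₀ ℕ // ν ≠ 0}

private noncomputable def GenPoly_ix (i : Fin 5) (j : Fin 6) : GenPoly_I :=
  (i, ⟨Finsupp.single j 1, by simp⟩)

/-- the matrix of the last five columns -/
private noncomputable def GenPoly_M (R : Type) (a : GenPoly_I → R) : Matrix (Fin 5) (Fin 5) R :=
  Matrix.of fun i j => a (GenPoly_ix i j.succ)

/-- the first column -/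
private noncomputable def GenPoly_c (R : Type) (a : GenPoly_I → R) : Fin 5 → R :=
  fun i => a (GenPoly_ix i 0)

private theorem GenPoly_ix_inj {i i' : Fin 5} {j j' : Fin 6}
    (h : GenPoly_ix i j = GenPoly_ix i' j') : i = i' ∧ j = j' := by
  have h1 := congrArg Prod.fst h
  have h2 := congrArg (fun p : GenPoly_I => (p.2 : Fin 6 →₀ ℕ)) h
  refine ⟨h1, ?_⟩
  exact Finsupp.single_left_injective one_ne_zero h2

private theorem GenPoly_exists (L : Fin 5 → Fin 6 → ℂ) :
    ∃ a : GenPoly_I → ℂ, ∀ i j, a (GenPoly_ix i j) = L i j := by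
  classical
  refine ⟨fun p => ∑ j : Fin 6, if GenPoly_ix p.1 j = p then L p.1 j else 0, fun i j => ?_⟩
  have h1 : ∀ j' : Fin 6, (if GenPoly_ix (GenPoly_ix i j).1 j' = GenPoly_ix i j then
      L (GenPoly_ix i j).1 j' else 0) = if j' = j then L i j else 0 := by
    intro j'
    by_cases hj : j' = j
    · subst hj
      rw [if_pos rfl, if_pos]
      · rfl
      · rfl
    · rw [if_neg hj, if_neg]
      intro h
      exact hj (GenPoly_ix_inj h).2
  simp only [h1]
  simp

private theorem GenPoly_H0 :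
    (GenPoly_M (MvPolynomial GenPoly_I ℂ) MvPolynomial.X).det ≠ 0 := by
  classical
  obtain ⟨a, ha⟩ := GenPoly_exists (fun i j => if j = i.succ then 1 else 0)
  intro h
  have h1 := congrArg (MvPolynomial.eval a) h
  rw [map_zero, RingHom.map_det] at h1
  have h2 : (MvPolynomial.eval a).mapMatrix (GenPoly_M (MvPolynomial GenPoly_I ℂ) MvPolynomial.X)
      = 1 := by
    ext i j
    rw [RingHom.mapMatrix_apply, Matrix.map_apply]
    change MvPolynomial.eval a (MvPolynomial.X (GenPoly_ix i j.succ)) = _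
    rw [MvPolynomial.eval_X, ha, Matrix.one_apply]
    by_cases hij : i = j
    · subst hij; simp
    · rw [if_neg hij, if_neg]
      intro h3
      exact hij (Fin.succ_injective _ h3).symm
  rw [h2, Matrix.det_one] at h1
  exact one_ne_zero h1

private theorem GenPoly_H1 :
    ((GenPoly_M (MvPolynomial GenPoly_I ℂ) MvPolynomial.X).updateCol 0
      (GenPoly_c (MvPolynomial GenPoly_I ℂ) MvPolynomial.X)).det ≠ 0 := by
  classical
  obtain ⟨a, ha⟩ := GenPoly_exists
    (fun i j => if j = 0 then (if i = 0 then 1 else 0) else if j = i.succ then 1 else 0)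
  intro h
  have h1 := congrArg (MvPolynomial.eval a) h
  rw [map_zero, RingHom.map_det] at h1
  have h2 : (MvPolynomial.eval a).mapMatrix
      ((GenPoly_M (MvPolynomial GenPoly_I ℂ) MvPolynomial.X).updateCol 0
      (GenPoly_c (MvPolynomial GenPoly_I ℂ) MvPolynomial.X)) = 1 := by
    ext i j
    rw [RingHom.mapMatrix_apply, Matrix.map_apply, Matrix.updateCol_apply]
    by_cases hj : j = 0
    · subst hj
      rw [if_pos rfl]
      change MvPolynomial.eval a (MvPolynomial.X (GenPoly_ix i 0)) = _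
      rw [MvPolynomial.eval_X, ha, Matrix.one_apply, if_pos rfl]
    · rw [if_neg hj]
      change MvPolynomial.eval a (MvPolynomial.X (GenPoly_ix i j.succ)) = _
      rw [MvPolynomial.eval_X, ha, Matrix.one_apply, if_neg (Fin.succ_ne_zero j)]
      by_cases hij : i = j
      · subst hij; simp
      · rw [if_neg hij, if_neg]
        intro h3
        exact hij (Fin.succ_injective _ h3).symm
  rw [h2, Matrix.det_one] at h1
  exact one_ne_zero h1

/-- For every nonzero polynomial `G` in the coefficients `a^{(i)}_ν`, `ν ≠ 0`, there are convergent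
power series `z_i` without constant term, with `G(a) ≠ 0`, with independent linear parts, and such
that the line `l_z` is spanned by a vector with nonzero components `0` and `1`. Proof: multiply `G`
by the product `H` of the minors `Δ_0`, `Δ_1` of the matrix of the linear parts (the vector of the
signed minors spans `l_z`); `G * H ≠ 0`, so it does not vanish at some point
(`MvPolynomial.funext`); replace the values of the variables that do not occur in `G * H` by `0`. -/
theorem exists_generic (G : MvPolynomial (Fin 5 × {ν : Fin 6 →₀ ℕ // ν ≠ 0}) ℂ) (hG : G ≠ 0) :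
    ∃ (z : Fin 5 → MvPowerSeries (Fin 6) ℂ) (v : Fin 6 → ℂ),
      (∀ i, IsConvergent (z i) ∧ constantCoeff (z i) = 0) ∧
      MvPolynomial.eval (fun p => coeff p.2.1 (z p.1)) G ≠ 0 ∧ LinIndep z ∧
      (∀ i, lin (z i) v = 0) ∧ v 0 ≠ 0 ∧ v 1 ≠ 0 := by
  classical
  set H0 := (GenPoly_M (MvPolynomial GenPoly_I ℂ) MvPolynomial.X).det with hH0
  set H1 := ((GenPoly_M (MvPolynomial GenPoly_I ℂ) MvPolynomial.X).updateCol 0
      (GenPoly_c (MvPolynomial GenPoly_I ℂ) MvPolynomial.X)).det with hH1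
  have hP : G * H0 * H1 ≠ 0 := mul_ne_zero (mul_ne_zero hG GenPoly_H0) GenPoly_H1
  obtain ⟨b, hb⟩ : ∃ b : GenPoly_I → ℂ, MvPolynomial.eval b (G * H0 * H1) ≠ 0 := by
    by_contra hcon
    push Not at hcon
    exact hP (MvPolynomial.funext fun x => by rw [hcon x, map_zero])
  let a : GenPoly_I → ℂ := fun p => if p ∈ (G * H0 * H1).vars then b p else 0
  have hab : MvPolynomial.eval a (G * H0 * H1) = MvPolynomial.eval b (G * H0 * H1) := by
    refine MvPolynomial.hom_congr_vars (f₁ := MvPolynomial.eval a) (f₂ := MvPolynomial.eval b)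
      (by ext c; simp) ?_ rfl
    intro i hi _
    rw [MvPolynomial.eval_X, MvPolynomial.eval_X]
    exact if_pos hi
  rw [← hab, map_mul, map_mul] at hb
  have hG' : MvPolynomial.eval a G ≠ 0 := left_ne_zero_of_mul (left_ne_zero_of_mul hb)
  have hH0' : MvPolynomial.eval a H0 ≠ 0 := right_ne_zero_of_mul (left_ne_zero_of_mul hb)
  have hH1' : MvPolynomial.eval a H1 ≠ 0 := right_ne_zero_of_mul hb
  have e0 : MvPolynomial.eval a H0 = (GenPoly_M ℂ a).det := by
    rw [hH0, RingHom.map_det]
    congr 1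
    ext i j
    rw [RingHom.mapMatrix_apply, Matrix.map_apply]
    exact MvPolynomial.eval_X _
  have e1 : MvPolynomial.eval a H1 = ((GenPoly_M ℂ a).updateCol 0 (GenPoly_c ℂ a)).det := by
    rw [hH1, RingHom.map_det]
    congr 1
    ext i j
    rw [RingHom.mapMatrix_apply, Matrix.map_apply, Matrix.updateCol_apply,
      Matrix.updateCol_apply]
    by_cases hj : j = 0
    · rw [if_pos hj, if_pos hj]
      exact MvPolynomial.eval_X _
    · rw [if_neg hj, if_neg hj]
      exact MvPolynomial.eval_X _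
  rw [e0] at hH0'
  rw [e1] at hH1'
  let z : Fin 5 → MvPowerSeries (Fin 6) ℂ :=
    fun i ν => if h : ν ≠ 0 then a (i, ⟨ν, h⟩) else 0
  have hz : ∀ i ν, coeff ν (z i) = if h : ν ≠ 0 then a (i, ⟨ν, h⟩) else 0 := fun _ _ => rfl
  have hz1 : ∀ p : GenPoly_I, coeff p.2.1 (z p.1) = a p := by
    intro p
    rw [hz, dif_pos p.2.2]
  have hzl : ∀ i j, coeff (Finsupp.single j 1) (z i) = a (GenPoly_ix i j) := by
    intro i j
    exact hz1 (GenPoly_ix i j)
  have hz0 : ∀ i, constantCoeff (z i) = 0 := by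
    intro i
    rw [← coeff_zero_eq_constantCoeff_apply, hz, dif_neg (by simp)]
  let v : Fin 6 → ℂ := Fin.cons (-(GenPoly_M ℂ a).det) ((GenPoly_M ℂ a).cramer (GenPoly_c ℂ a))
  have hv0 : v 0 = -(GenPoly_M ℂ a).det := rfl
  have hvs : ∀ j : Fin 5, v j.succ = (GenPoly_M ℂ a).cramer (GenPoly_c ℂ a) j := fun _ => rfl
  refine ⟨z, v, fun i => ⟨isConvergent_of_finite ?_, hz0 i⟩, ?_, ⟨hz0, ?_⟩, ?_, ?_, ?_⟩
  · refine Set.Finite.subset ((G * H0 * H1).vars.image fun p => p.2.1).finite_toSet ?_
    intro ν hν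
    have hν' : coeff ν (z i) ≠ 0 := hν
    rw [hz] at hν'
    by_cases h0 : ν ≠ 0
    · rw [dif_pos h0] at hν'
      have hmem : (i, (⟨ν, h0⟩ : {ν : Fin 6 →₀ ℕ // ν ≠ 0})) ∈ (G * H0 * H1).vars := by
        by_contra hcon
        exact hν' (if_neg hcon)
      exact Finset.mem_coe.2 (Finset.mem_image.2 ⟨_, hmem, rfl⟩)
    · rw [dif_neg h0] at hν'
      exact absurd rfl hν'
  · have : (fun p : GenPoly_I => coeff p.2.1 (z p.1)) = a := funext hz1
    rw [this]
    exact hG'
  · refine LinearIndependent.of_comp (LinearMap.funLeft ℂ ℂ (Fin.succ : Fin 5 → Fin 6)) ?_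
    have h1 : ((LinearMap.funLeft ℂ ℂ (Fin.succ : Fin 5 → Fin 6)) ∘
        fun i => fun j : Fin 6 => coeff (Finsupp.single j 1) (z i)) = (GenPoly_M ℂ a).row := by
      funext i j
      exact hzl i j.succ
    rw [h1, Matrix.linearIndependent_rows_iff_isUnit, Matrix.isUnit_iff_isUnit_det]
    exact isUnit_iff_ne_zero.2 hH0'
  · intro i
    unfold lin
    rw [Fin.sum_univ_succ, hv0, hzl]
    have h1 := congrFun (Matrix.mulVec_cramer (GenPoly_M ℂ a) (GenPoly_c ℂ a)) i
    have h2 : ((GenPoly_M ℂ a).mulVec ((GenPoly_M ℂ a).cramer (GenPoly_c ℂ a))) i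
        = ∑ j : Fin 5, coeff (Finsupp.single j.succ 1) (z i) * v j.succ := by
      rw [Matrix.mulVec, dotProduct]
      refine Finset.sum_congr rfl fun j _ => ?_
      rw [hzl, hvs]
      rfl
    rw [← h2, h1]
    simp only [Pi.smul_apply, smul_eq_mul]
    change a (GenPoly_ix i 0) * -(GenPoly_M ℂ a).det + (GenPoly_M ℂ a).det * a (GenPoly_ix i 0) = 0
    ring
  · rw [hv0]
    exact neg_ne_zero.2 hH0'
  · have h1 : v 1 = (GenPoly_M ℂ a).cramer (GenPoly_c ℂ a) 0 := hvs 0
    rw [h1, Matrix.cramer_apply]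
    exact hH1'

end Pool.Agent.Helper38.GP
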