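import Pool.Agent.Helper38.GP.Example
import Pool.Agent.Helper38.GP.GenPoly
import Pool.Agent.Helper38.ED.LIBasic
import Pool.Agent.Helper38.ED.PrimeOf
import Pool.Agent.Helper38.ED.Radical
import Pool.Agent.Helper38.EQ.LenTwo

/-! Elementary properties of the example. -/

namespace Pool.Agent.Helper38.GP

open MvPowerSeries Pool.Agent.Helper38.EQ

private theorem ExRad_coeff_sq {K : Type} [Field K] (m : MvPowerSeries (Fin 6) K) (k : Fin 6) :
    coeff (Finsupp.single k 1) (X 2 ^ 2 * m) = 0 := by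
  have h : (X 2 ^ 2 * m : MvPowerSeries (Fin 6) K) = (X 2 * m) * X 2 := by ring
  rw [h, ED.LIBasic_coeff_mul _ _ (constantCoeff_X _), map_mul, constantCoeff_X, zero_mul,
    zero_mul]

private theorem ExRad_const {K : Type} [Field K] (m : MvPowerSeries (Fin 6) K) :
    constantCoeff (X 0 - X 2 ^ 2 * m : MvPowerSeries (Fin 6) K) = 0 := by
  simp

private theorem ExRad_single {K : Type} [Field K] (k l : Fin 6) :
    coeff (Finsupp.single k 1) (X l : MvPowerSeries (Fin 6) K) = if k = l then 1 else 0 := by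
  rw [coeff_X]
  by_cases h : k = l
  · rw [if_pos h, if_pos (by rw [h])]
  · rw [if_neg h, if_neg]
    intro h2
    exact h (Finsupp.single_left_injective one_ne_zero h2)

/-- What the divisibility by one of the factors implies for the constant term and the
linear part. -/
private theorem ExRad_dvd {K : Type} [Field K] {m g : MvPowerSeries (Fin 6) K}
    (h : (X 0 - X 2 ^ 2 * m) ∣ g) :
    constantCoeff g = 0 ∧ ∀ k, k ≠ 0 → coeff (Finsupp.single k 1) g = 0 := by
  obtain ⟨q, rfl⟩ := h
  refine ⟨by rw [map_mul, ExRad_const, zero_mul], fun k hk => ?_⟩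
  rw [mul_comm, ED.LIBasic_coeff_mul _ _ (ExRad_const m), map_sub, ExRad_coeff_sq, ExRad_single,
    if_neg hk, sub_zero, mul_zero]

private theorem ExRad_prime {K : Type} [Field K] (m : MvPowerSeries (Fin 6) K) :
    Prime (X 0 - X 2 ^ 2 * m : MvPowerSeries (Fin 6) K) := by
  refine ED.prime_of_notMem_sq ((mem_maximalIdeal_iff_constantCoeff _).2 (ExRad_const m)) ?_
  intro h
  have h1 := ((ED.LIBasic1_mem_sq_iff _).1 h).2 0
  rw [map_sub, ExRad_coeff_sq, ExRad_single, if_pos rfl, sub_zero] at h1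
  exact one_ne_zero h1

private theorem ExRad_cons {K : Type} [Field K] (i : Fin 6) :
    constantCoeff (exM K i) = ![0, 0, 1, 1, 2, 2] i ∧
      coeff (Finsupp.single 1 1) (exM K i) = ![0, 1, 0, 1, 0, 1] i := by
  have hC : ∀ (a : K), coeff (Finsupp.single 1 1) (C a : MvPowerSeries (Fin 6) K) = 0 := by
    intro a
    rw [coeff_C, if_neg]
    intro h
    have := congrArg (fun f : Fin 6 →₀ ℕ => f 1) h
    simp at this
  have h1 : coeff (Finsupp.single 1 1) (1 : MvPowerSeries (Fin 6) K) = 0 := by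
    have := hC 1
    rwa [map_one] at this
  have h2 : coeff (Finsupp.single 1 1) (2 : MvPowerSeries (Fin 6) K) = 0 := by
    have := hC 2
    rwa [map_ofNat] at this
  have h3 : coeff (Finsupp.single 1 1) (X 2 * X 3 : MvPowerSeries (Fin 6) K) = 0 := by
    rw [ED.LIBasic_coeff_mul _ _ (constantCoeff_X _), constantCoeff_X, zero_mul]
  have h4 : coeff (Finsupp.single 1 1) (2 * X 2 * X 3 : MvPowerSeries (Fin 6) K) = 0 := by
    rw [ED.LIBasic_coeff_mul _ _ (constantCoeff_X _), map_mul, constantCoeff_X, mul_zero, zero_mul]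
  have h5 : coeff (Finsupp.single 1 1) (X 5 * X 2 ^ 2 : MvPowerSeries (Fin 6) K) = 0 := by
    rw [mul_comm]
    exact ExRad_coeff_sq _ _
  have h6 : constantCoeff (2 : MvPowerSeries (Fin 6) K) = 2 := map_ofNat _ 2
  fin_cases i
  · simp [exM]
  · simp [exM]
  · simp [exM, h1]
  · simp [exM, h1, h3]
  · simp [exM, h2, h6, ExRad_single]
  · simp [exM, h2, h4, h5, h6, ExRad_single]

/-- The six factors are prime (`prime_of_notMem_sq`) and pairwise nonassociated
(for `i ≠ j`, if `e_i ∣ e_j` then `e_i ∣ X 2 ^ 2 (m_i - m_j)`, where `m_i - m_j` is a unit,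
or a unit times a prime whose linear part is independent of that of `X 0`); `Rad.prod`. -/
theorem exF_radical {K : Type} [Field K] [CharZero K] : (Ideal.span {exF K}).IsRadical := by
  have hrad : ED.Rad (exF K) := by
    refine ED.Rad.prod _ (fun i => ExRad_prime _) ?_
    intro i j hij hdvd
    have h1 : (X 0 - X 2 ^ 2 * exM K i) ∣ X 2 ^ 2 * (exM K i - exM K j) := by
      have h2 : (X 2 ^ 2 * (exM K i - exM K j) : MvPowerSeries (Fin 6) K) =
          (X 0 - X 2 ^ 2 * exM K j) - (X 0 - X 2 ^ 2 * exM K i) := by ring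
      rw [h2]
      exact dvd_sub hdvd dvd_rfl
    rcases (ExRad_prime (exM K i)).dvd_or_dvd h1 with h2 | h2
    · have h3 := (ExRad_dvd ((ExRad_prime (exM K i)).dvd_of_dvd_pow h2)).2 2 (by decide)
      rw [ExRad_single, if_pos rfl] at h3
      exact one_ne_zero h3
    · obtain ⟨h3, h4⟩ := ExRad_dvd h2
      have h5 := h4 1 (by decide)
      rw [map_sub, (ExRad_cons i).1, (ExRad_cons j).1] at h3
      rw [map_sub, (ExRad_cons i).2, (ExRad_cons j).2] at h5
      apply hij
      fin_cases i <;> fin_cases j <;> simp at h3 h5 ⊢ <;> norm_num at h3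
  intro x hx
  obtain ⟨N, hN⟩ := Ideal.mem_radical_iff.1 hx
  exact Ideal.mem_span_singleton.2 (hrad x N (Ideal.mem_span_singleton.1 hN))

end Pool.Agent.Helper38.GP
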