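import Pool.Agent.Helper38.GP.Example
import Pool.Agent.Helper38.GP.GenPoly
import Pool.Agent.Helper38.ED.LIBasic
import Pool.Agent.Helper38.ED.PrimeOf
import Pool.Agent.Helper38.ED.Radical
import Pool.Agent.Helper38.EQ.LenTwo
import Pool.Agent.Helper38.GP.ExRad

/-! Elementary properties of the example. -/

namespace Pool.Agent.Helper38.GP

open MvPowerSeries Pool.Agent.Helper38.EQ

/-- the power series that are polynomials -/
private noncomputable def ExProps_S (n : ℕ) : Subring (MvPowerSeries (Fin n) ℂ) :=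
  (MvPolynomial.coeToMvPowerSeries.ringHom :
    MvPolynomial (Fin n) ℂ →+* MvPowerSeries (Fin n) ℂ).range

private theorem ExProps_conv {n : ℕ} {h : MvPowerSeries (Fin n) ℂ} (hh : h ∈ ExProps_S n) :
    IsConvergent h := by
  obtain ⟨P, rfl⟩ := hh
  refine isConvergent_of_finite (P.support.finite_toSet.subset fun ν hν => ?_)
  have h1 : coeff ν (MvPolynomial.coeToMvPowerSeries.ringHom P : MvPowerSeries (Fin n) ℂ) =
      MvPolynomial.coeff ν P := MvPolynomial.coeff_coe P ν
  have h2 : coeff ν (MvPolynomial.coeToMvPowerSeries.ringHom P : MvPowerSeries (Fin n) ℂ) ≠ 0 :=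
    hν
  rw [h1] at h2
  exact Finset.mem_coe.2 (MvPolynomial.mem_support_iff.2 h2)

private theorem ExProps_X {n : ℕ} (j : Fin n) : (X j : MvPowerSeries (Fin n) ℂ) ∈ ExProps_S n :=
  ⟨MvPolynomial.X j, MvPolynomial.coe_X j⟩

private theorem ExProps_C {n : ℕ} (a : ℂ) : (C a : MvPowerSeries (Fin n) ℂ) ∈ ExProps_S n :=
  ⟨MvPolynomial.C a, MvPolynomial.coe_C a⟩

private theorem ExProps_two {n : ℕ} : (2 : MvPowerSeries (Fin n) ℂ) ∈ ExProps_S n := by
  have h : (2 : MvPowerSeries (Fin n) ℂ) = 1 + 1 := by norm_num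
  rw [h]
  exact add_mem (one_mem _) (one_mem _)

theorem exF_convergent : IsConvergent (exF ℂ) := by
  refine ExProps_conv (Subring.prod_mem _ fun i _ => ?_)
  refine sub_mem (ExProps_X 0) (mul_mem (pow_mem (ExProps_X 2) 2) ?_)
  have X1 := ExProps_X (n := 6) 1
  have X2 := ExProps_X (n := 6) 2
  have X3 := ExProps_X (n := 6) 3
  have X4 := ExProps_X (n := 6) 4
  have X5 := ExProps_X (n := 6) 5
  have h2 := ExProps_two (n := 6)
  have h1 := one_mem (ExProps_S 6)
  fin_cases i
  · exact zero_mem _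
  · exact X1
  · exact h1
  · exact add_mem h1 (add_mem X1 (mul_mem X2 X3))
  · exact add_mem h2 X4
  · exact add_mem (add_mem h2 X4) (add_mem (add_mem X1 (mul_mem (mul_mem h2 X2) X3))
      (mul_mem X5 (pow_mem X2 2)))

theorem linear_convergent {n : ℕ} (ℓ : Fin n → ℂ) :
    IsConvergent (∑ j, C (ℓ j) * X j : MvPowerSeries (Fin n) ℂ) :=
  ExProps_conv (sum_mem fun j _ => mul_mem (ExProps_C _) (ExProps_X j))

/-- the indices of the equations of `W` -/
private def ExProps_idx : Fin 5 → Fin 6 := ![0, 1, 2, 3, 5]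

private theorem ExProps_inj : Function.Injective ExProps_idx := by decide

theorem exI_smooth {K : Type} [Field K] : IsSmoothGerm 5 (exI K) := by
  refine ⟨fun i => X (ExProps_idx i), ⟨fun i => constantCoeff_X _, ?_⟩, ?_⟩
  · have h1 : (fun i => fun j : Fin 6 => coeff (Finsupp.single j 1)
        (X (ExProps_idx i) : MvPowerSeries (Fin 6) K)) =
        (Pi.basisFun K (Fin 6)) ∘ ExProps_idx := by
      funext i j
      rw [Function.comp_apply, Pi.basisFun_apply, coeff_X]
      by_cases h : j = ExProps_idx i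
      · subst h
        rw [if_pos rfl, Pi.single_eq_same]
      · rw [Pi.single_eq_of_ne h, if_neg]
        intro h2
        exact h (Finsupp.single_left_injective one_ne_zero h2)
    rw [h1]
    exact (Pi.basisFun K (Fin 6)).linearIndependent.comp _ ExProps_inj
  · unfold exI
    congr 1
    ext x
    simp only [Set.mem_insert_iff, Set.mem_singleton_iff, Set.mem_range]
    constructor
    · rintro (rfl | rfl | rfl | rfl | rfl)
      · exact ⟨0, rfl⟩
      · exact ⟨1, rfl⟩
      · exact ⟨2, rfl⟩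
      · exact ⟨3, rfl⟩
      · exact ⟨4, rfl⟩
    · rintro ⟨i, rfl⟩
      fin_cases i
      · left; rfl
      · right; left; rfl
      · right; right; left; rfl
      · right; right; right; left; rfl
      · right; right; right; right; rfl

/-- `singIdeal_le_of_mem_sq` (`EQ/LenTwo.lean`). -/
theorem exF_sing {K : Type} [Field K] : singIdeal (exF K) ≤ exI K := by
  refine singIdeal_le_of_mem_sq _ _ ?_
  have hX0 : (X 0 : MvPowerSeries (Fin 6) K) ∈ exI K :=
    Ideal.subset_span (by simp)
  have hX2 : (X 2 : MvPowerSeries (Fin 6) K) ∈ exI K :=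
    Ideal.subset_span (by simp)
  have hfac : ∀ i, (X 0 - X 2 ^ 2 * exM K i : MvPowerSeries (Fin 6) K) ∈ exI K := by
    intro i
    refine Ideal.sub_mem _ hX0 (Ideal.mul_mem_right _ _ ?_)
    rw [pow_two]
    exact Ideal.mul_mem_left _ _ hX2
  have h1 : exF K = ((X 0 - X 2 ^ 2 * exM K 0) * (X 0 - X 2 ^ 2 * exM K 1)) *
      ∏ i : Fin 4, (X 0 - X 2 ^ 2 * exM K i.succ.succ) := by
    unfold exF
    rw [Fin.prod_univ_succ, Fin.prod_univ_succ, mul_assoc]
    rfl
  rw [h1, pow_two]
  exact Ideal.mul_mem_right _ _ (Ideal.mul_mem_mul (hfac 0) (hfac 1))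

end Pool.Agent.Helper38.GP
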