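import Pool.Agent.Helper38.GP.SecBasic
import Pool.Agent.Helper38.EQ.AdicComplete

/-! The Weierstrass polynomial of a product of smooth germs. -/

namespace Pool.Agent.Helper38.GP

open MvPowerSeries Pool.Agent.Helper38.EQ
open Pool.Agent.Helper38.ED (LI LI_iff prime_of_notMem_sq exists_eval discr_prod Rad comps0 comps1 comps2 comps3 isUnit_natCast_add isUnit_one_add rad_comps1 rad_comps2)

variable {n : ℕ} {K : Type} [Field K] {p : Proj n K}

/-- A product of Weierstrass factorizations. -/
private theorem Factor_prod {A : Type} [CommRing A] [IsLocalRing A] {ι : Type} (t : Finset ι)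
    (g : ι → PowerSeries A) (F : ι → Polynomial A) (h : ι → PowerSeries A)
    (H : ∀ i, (g i).IsWeierstrassFactorization (F i) (h i)) :
    (∏ i ∈ t, g i).IsWeierstrassFactorization (∏ i ∈ t, F i) (∏ i ∈ t, h i) := by
  classical
  induction t using Finset.induction_on with
  | empty =>
    simp only [Finset.prod_empty]
    exact ⟨⟨⟨fun {n} hn => by simp at hn⟩, Polynomial.monic_one⟩, isUnit_one, by simp⟩
  | insert a t ha ih =>
    rw [Finset.prod_insert ha, Finset.prod_insert ha, Finset.prod_insert ha]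
    exact (H a).mul ih

/-- `X - C r` is distinguished for `r` in the maximal ideal. -/
private theorem Factor_X_sub_C {A : Type} [CommRing A] [IsLocalRing A] {r : A}
    (hr : r ∈ IsLocalRing.maximalIdeal A) :
    (Polynomial.X - Polynomial.C r).IsDistinguishedAt (IsLocalRing.maximalIdeal A) := by
  refine ⟨⟨fun {i} hi => ?_⟩, Polynomial.monic_X_sub_C r⟩
  rw [Polynomial.natDegree_X_sub_C, Nat.lt_one_iff] at hi
  subst hi
  rw [Polynomial.coeff_sub, Polynomial.coeff_X_zero, Polynomial.coeff_C_zero, zero_sub]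
  exact neg_mem hr

/-- The Weierstrass polynomial `∏ (X - r_i)` of `f ~ ∏ e_i`. -/
theorem factor_exists {m : ℕ} {e : Fin m → MvPowerSeries (Fin (n + 1)) K}
    (s : ∀ i, Sec p (e i)) {f : MvPowerSeries (Fin (n + 1)) K} (hf : Associated f (∏ i, e i)) :
    ∃ U, (p.σ (ex f)).IsWeierstrassFactorization
      (∏ i, (Polynomial.X - Polynomial.C (s i).r)) U := by
  obtain ⟨u, hu⟩ := hf.symm
  have h1 : ∀ i, (p.σ (ex (e i))).IsWeierstrassFactorization
      (Polynomial.X - Polynomial.C (s i).r) (s i).U := by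
    intro i
    refine ⟨Factor_X_sub_C (s i).r_mem, (s i).isUnit, ?_⟩
    rw [(s i).eq, mul_comm]
    simp
  have h2 := Factor_prod Finset.univ _ _ _ h1
  have h3 : p.σ (ex f) = (∏ i, p.σ (ex (e i))) * p.σ (ex (u : MvPowerSeries (Fin (n + 1)) K)) := by
    rw [← hu, map_mul, map_mul, map_prod, map_prod]
  have h4 : IsUnit (p.σ (ex (u : MvPowerSeries (Fin (n + 1)) K))) := (u.isUnit.map ex).map p.σ
  refine ⟨(∏ i, (s i).U) * p.σ (ex (u : MvPowerSeries (Fin (n + 1)) K)),
    h2.isDistinguishedAt, h2.isUnit.mul h4, ?_⟩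
  rw [h3, h2.eq_mul, mul_assoc]

/-- Uniqueness of the Weierstrass polynomial (Mathlib has the uniqueness of the Weierstrass
factorization over a Hausdorff local ring; the product of the `X - C r_i` is distinguished). -/
theorem factor_unique {m : ℕ} {e : Fin m → MvPowerSeries (Fin (n + 1)) K}
    (s : ∀ i, Sec p (e i)) {f : MvPowerSeries (Fin (n + 1)) K} (hf : Associated f (∏ i, e i))
    {F : Polynomial (R1 n K)} {U : PowerSeries (R1 n K)}
    (hF : (p.σ (ex f)).IsWeierstrassFactorization F U) :
    F = ∏ i, (Polynomial.X - Polynomial.C (s i).r) := by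
  obtain ⟨V, hV⟩ := factor_exists s hf
  have := isAdicComplete_mvPowerSeries n K
  exact (hF.elim hV).1

end Pool.Agent.Helper38.GP
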