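import Pool.Agent.Helper38.GP.PosLevels
import Pool.Agent.Helper38.GP.Calc0
import Pool.Agent.Helper38.GP.Example

/-! `V` is equisingular along `W`. -/

namespace Pool.Agent.Helper38.GP

open MvPowerSeries Pool.Agent.Helper38.EQ
open Pool.Agent.Helper38.ED (LI comps0 comps1)

variable {K : Type} [Field K] [CharZero K]

theorem exF_eq : exF K = ∏ i, comps0 (X 0) (X 1) (X 2) (X 3) (X 5) (X 4) i := by
  unfold exF
  rw [Fin.prod_univ_six, Fin.prod_univ_six]
  change (X 0 - X 2 ^ 2 * (0 : MvPowerSeries (Fin 6) K)) * (X 0 - X 2 ^ 2 * X 1) *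
    (X 0 - X 2 ^ 2 * 1) * (X 0 - X 2 ^ 2 * (1 + (X 1 + X 2 * X 3))) *
    (X 0 - X 2 ^ 2 * (2 + X 4)) *
    (X 0 - X 2 ^ 2 * (2 + X 4 + (X 1 + 2 * X 2 * X 3 + X 5 * X 2 ^ 2))) =
    X 0 * (X 0 - X 2 ^ 2 * X 1) * (X 0 - X 2 ^ 2) * (X 0 - X 2 ^ 2 * (1 + X 1 + X 2 * X 3)) *
    (X 0 - X 2 ^ 2 * (2 + X 4)) *
    (X 0 - X 2 ^ 2 * (2 + X 4 + X 1 + 2 * X 2 * X 3 + X 5 * X 2 ^ 2))
  ring

theorem good_ex : Good (m := 5) (K := K) (X 0) (X 1) (X 2) (X 3) (X 5) (X 4) := by
  classical
  refine ⟨(mem_maximalIdeal_iff_constantCoeff _).2 (constantCoeff_X _),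
    (mem_maximalIdeal_iff_constantCoeff _).2 (constantCoeff_X _), fun w => ?_⟩
  rw [ex_eq, ex_eq, ex_eq, ex_eq, ex_eq, ex_eq]
  have hX : ∀ i j : Fin 6, coeff (Finsupp.single j 1) (X i : MvPowerSeries (Fin 6) K) =
      if j = i then 1 else 0 := by
    intro i j
    rw [coeff_X]
    by_cases h : j = i
    · rw [h, if_pos rfl, if_pos rfl]
    · rw [if_neg h, if_neg]
      intro h1
      exact h (Finsupp.single_left_injective one_ne_zero h1)
  refine ⟨fun i => ?_, ?_⟩
  · fin_cases i
    · exact constantCoeff_X _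
    · exact constantCoeff_X _
    · exact constantCoeff_X _
    · exact constantCoeff_X _
    · change constantCoeff (X 5 + C w * X 4 : MvPowerSeries (Fin 6) K) = 0
      rw [map_add, map_mul, constantCoeff_X, constantCoeff_X, mul_zero, add_zero]
  · rw [Fintype.linearIndependent_iff]
    intro g hg
    have h1 : ∀ j : Fin 6, g 0 * (if j = 0 then 1 else 0) + g 1 * (if j = 1 then 1 else 0) +
        g 2 * (if j = 2 then 1 else 0) + g 3 * (if j = 3 then 1 else 0) +
        g 4 * ((if j = 5 then 1 else 0) + w * (if j = 4 then 1 else 0)) = (0 : K) := by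
      intro j
      have h2 := congrFun hg j
      rw [Finset.sum_apply, Fin.sum_univ_five] at h2
      have h3 : coeff (Finsupp.single j 1) (X 5 + C w * X 4 : MvPowerSeries (Fin 6) K) =
          (if j = 5 then 1 else 0) + w * (if j = 4 then 1 else 0) := by
        rw [map_add, coeff_C_mul, hX, hX]
      rw [← hX, ← hX, ← hX, ← hX, ← h3]
      exact h2
    intro i
    fin_cases i
    · simpa using h1 0
    · simpa using h1 1
    · simpa using h1 2
    · simpa using h1 3
    · simpa using h1 5

/-- The kernel of `X 4 ↦ s`, `X j ↦ 0` for `j ≠ 4`. -/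
theorem curveIdeal_ex : CurveIdeal (exI K) := by
  classical
  let e : Unit ↪ Fin 6 := ⟨fun _ => 4, fun _ _ _ => rfl⟩
  refine ⟨(killCompl (R := K) e : MvPowerSeries (Fin 6) K →ₐ[K] MvPowerSeries Unit K), ?_,
    X 4, (mem_maximalIdeal_iff_constantCoeff _).2 (constantCoeff_X _), ?_⟩
  · have hI : exI K = coordIdeal K (Finset.univ.erase 4) := by
      have h1 : (X '' ((Finset.univ.erase 4 : Finset (Fin 6)) : Set (Fin 6)) :
          Set (MvPowerSeries (Fin 6) K)) = {X 0, X 1, X 2, X 3, X 5} := by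
        have h2 : (Finset.univ.erase 4 : Finset (Fin 6)) = {0, 1, 2, 3, 5} := by decide
        rw [h2]
        simp only [Finset.coe_insert, Finset.coe_singleton, Set.image_insert_eq,
          Set.image_singleton]
      unfold exI
      rw [← h1]
    rw [hI]
    ext p
    have h1 := mem_coordIdeal_pow_iff (K := K) (Finset.univ.erase 4 : Finset (Fin 6)) 1 p
    rw [pow_one] at h1
    rw [h1, RingHom.mem_ker]
    constructor
    · intro h α hα
      have h2 : ∀ i ∈ (Finset.univ.erase 4 : Finset (Fin 6)), α i = 0 := by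
        have h3 : (∑ i ∈ (Finset.univ.erase 4 : Finset (Fin 6)), α i) = 0 := by omega
        exact Finset.sum_eq_zero_iff.1 h3
      have h3 : α ∈ Set.range (Finsupp.embDomain (M := ℕ) e) := by
        rw [Finsupp.mem_range_embDomain_iff]
        intro i hi
        rw [Finset.mem_coe, Finsupp.mem_support_iff] at hi
        by_contra h5
        apply hi
        apply h2 i
        rw [Finset.mem_erase]
        refine ⟨fun h6 => h5 ⟨(), h6.symm⟩, Finset.mem_univ _⟩
      obtain ⟨x, hx⟩ := h3
      have h4 := coeff_killCompl (e := e) p x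
      rw [← hx, ← h4]
      have h5 : (killCompl (R := K) e) p = 0 := h
      rw [h5, map_zero]
    · intro h
      change (killCompl (R := K) e) p = 0
      refine MvPowerSeries.ext fun x => ?_
      rw [coeff_killCompl, map_zero]
      apply h
      have h2 : (∑ i ∈ (Finset.univ.erase 4 : Finset (Fin 6)), (Finsupp.embDomain e x) i) = 0 := by
        refine Finset.sum_eq_zero fun i hi => ?_
        apply Finsupp.embDomain_of_notMem_range
        rintro ⟨j, hj⟩
        have hj' : (4 : Fin 6) = i := hj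
        rw [Finset.mem_erase] at hi
        exact hi.1 hj'.symm
      omega
  · intro h
    have h1 : (killCompl (R := K) e) (X (e ())) = X () := killCompl_X ()
    have h2 : (X () : MvPowerSeries Unit K) = 0 := by
      rw [← h1]
      exact h
    have h3 := congrArg (coeff (Finsupp.single () 1)) h2
    rw [coeff_index_single_self_X, map_zero] at h3
    exact one_ne_zero h3

/-- The coordinates `z = X 0` (the fibre) and `X 1, …, X 5`. -/
theorem exists_std : ∃ p : Proj 5 K, p.σ (X 0) = PowerSeries.X ∧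
    ∀ i : Fin 5, p.σ (X i.succ) = PowerSeries.C (X i) :=
  ⟨⟨finSuccEquiv K 5⟩, finSuccEquiv_X_zero, fun i => finSuccEquiv_X_succ i⟩

end Pool.Agent.Helper38.GP
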