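import Pool.Agent.Helper38.GP.PosLevels
import Pool.Agent.Helper38.GP.Calc0
import Pool.Agent.Helper38.GP.Example
import Pool.Agent.Helper38.GP.PosA

/-! `V` is equisingular along `W`. -/

namespace Pool.Agent.Helper38.GP

open MvPowerSeries Pool.Agent.Helper38.EQ
open Pool.Agent.Helper38.ED (LI comps0 comps1)

variable {K : Type} [Field K] [CharZero K]

omit [CharZero K] in
private theorem Pos0_symm {p : Proj 5 K}
    (hX : ∀ i : Fin 5, p.σ (X i.succ) = PowerSeries.C (X i)) (i : Fin 5) :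
    p.σ.symm (PowerSeries.C (X i)) = X i.succ := by
  rw [← hX, AlgEquiv.symm_apply_apply]

omit [CharZero K] in
private theorem Pos0_img {p : Proj 5 K}
    (hX : ∀ i : Fin 5, p.σ (X i.succ) = PowerSeries.C (X i))
    {I : Ideal (MvPowerSeries (Fin 6) K)} {i : Fin 5} (h : (X i.succ : MvPowerSeries (Fin 6) K) ∈ I) :
    (X i : R1 5 K) ∈ p.img I := by
  rw [Proj.img, Ideal.mem_comap, ← hX]
  exact Ideal.mem_map_of_mem _ h

omit [CharZero K] in
private theorem Pos0_tr_aux {p : Proj 5 K} (h0 : p.σ (X 0) = PowerSeries.X)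
    (hX : ∀ i : Fin 5, p.σ (X i.succ) = PowerSeries.C (X i)) (g : MvPowerSeries (Fin 6) K) :
    p.tr (X 0 - X 2 ^ 2 * g) = 1 := by
  have h2 : p.σ (X 2) = PowerSeries.C (X 1) := hX 1
  unfold Proj.tr
  rw [map_sub, map_mul, map_pow, h0, h2, ← map_pow, map_sub, PowerSeries.coeff_C_mul,
    PowerSeries.coeff_one_X, map_sub, map_one, map_mul, map_pow, constantCoeff_X,
    zero_pow two_ne_zero, zero_mul, sub_zero]

omit [CharZero K] in
private theorem Pos0_tr {p : Proj 5 K} (h0 : p.σ (X 0) = PowerSeries.X)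
    (hX : ∀ i : Fin 5, p.σ (X i.succ) = PowerSeries.C (X i)) (i : Fin 6) :
    p.tr (comps0 (X 0) (X 1) (X 2) (X 3) (X 5) (X 4) i) = 1 := by
  obtain ⟨g, hg⟩ : ∃ g : MvPowerSeries (Fin 6) K,
      comps0 (X 0) (X 1) (X 2) (X 3) (X 5) (X 4) i = X 0 - X 2 ^ 2 * g := by
    fin_cases i
    · exact ⟨0, by rw [mul_zero, sub_zero]; rfl⟩
    · exact ⟨X 1, rfl⟩
    · exact ⟨1, by rw [mul_one]; rfl⟩
    · exact ⟨_, rfl⟩
    · exact ⟨_, rfl⟩
    · exact ⟨_, rfl⟩
  rw [hg]
  exact Pos0_tr_aux h0 hX g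

/-- `V` is equisingular along `W`: the projection `exists_std`, `calc0` (here
`σ (X 1) = C (X 0)`, so `q = 0` and `w = 0`: `(X - C r) q = C _` forces `q = 0`), so
`a, b, c, d ∈ p.img (exI K)`, and `equi_pos1`, `equi_of_disc`. -/
theorem equi_ex {𝒞 : ProjClass K} (h𝒞 : HasLin 𝒞) : Equi 𝒞 4 6 (exF K) (exI K) := by
  obtain ⟨p, h0, hX⟩ := exists_std (K := K)
  have he := fun i => (good_ex (K := K).comps_mem i).1
  have ht : ∀ i, p.tr (comps0 (X 0) (X 1) (X 2) (X 3) (X 5) (X 4) i) ≠ 0 := fun i => by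
    rw [Pos0_tr h0 hX]
    exact one_ne_zero
  have hs : ∀ i, Nonempty (Sec p (comps0 (X 0) (X 1) (X 2) (X 3) (X 5) (X 4) i)) := fun i =>
    exists_sec p _ (he i) (ht i)
  let s : ∀ i, Sec p (comps0 (X 0) (X 1) (X 2) (X 3) (X 5) (X 4) i) := fun i => (hs i).some
  obtain ⟨c, d, w, q, hLI, hP, -, h3, h4, h5, h6⟩ := calc0 good_ex p s
  have hpull : ∀ i : Fin 5, (s 0).pull (X i.succ) = X i := fun i => by
    rw [Sec.pull_apply, ex_eq, hX, Sec.ε_C]
  have e1 : (s 0).pull (X 1) = X 0 := hpull 0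
  have e2 : (s 0).pull (X 2) = X 1 := hpull 1
  have e3 : (s 0).pull (X 3) = X 2 := hpull 2
  have e5 : (s 0).pull (X 5) = X 4 := hpull 4
  have hr : (s 0).r = 0 := by
    have h7 := (s 0).pull_self
    rw [Sec.pull_apply, ex_eq] at h7
    have h8 : p.σ (comps0 (X 0) (X 1) (X 2) (X 3) (X 5) (X 4) 0) = PowerSeries.X := h0
    rw [h8, Sec.ε_X] at h7
    exact h7
  have hq : q = 0 := by
    rw [ex_eq, e1, hr, map_zero, sub_zero] at h4
    have h7 : p.σ (X 1) = PowerSeries.C (X 0) := hX 0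
    rw [h7] at h4
    have h8 : PowerSeries.X * q = 0 := by
      have h9 := h4.symm
      rwa [add_eq_left] at h9
    exact (mul_eq_zero.1 h8).resolve_left PowerSeries.X_ne_zero
  have hw : w = 0 := by
    rw [hq, map_zero] at h5
    exact (mul_eq_zero.1 h5).resolve_right ((s 0).ε_unit (s 0).isUnit).ne_zero
  rw [e1, e2] at hLI hP
  rw [e2, e3] at h3 h6
  rw [hw, zero_mul, add_zero, e5] at h6
  have mem : ∀ j : Fin 6, j ≠ 4 → (X j : MvPowerSeries (Fin 6) K) ∈ exI K := by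
    intro j hj
    apply Ideal.subset_span
    fin_cases j
    · exact Or.inl rfl
    · exact Or.inr (Or.inl rfl)
    · exact Or.inr (Or.inr (Or.inl rfl))
    · exact Or.inr (Or.inr (Or.inr (Or.inl rfl)))
    · exact absurd rfl hj
    · exact Or.inr (Or.inr (Or.inr (Or.inr rfl)))
  have m0 : (X 0 : R1 5 K) ∈ p.img (exI K) := Pos0_img hX (mem _ (by decide))
  have m1 : (X 1 : R1 5 K) ∈ p.img (exI K) := Pos0_img hX (mem _ (by decide))
  have m2 : (X 2 : R1 5 K) ∈ p.img (exI K) := Pos0_img hX (mem _ (by decide))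
  have m4 : (X 4 : R1 5 K) ∈ p.img (exI K) := Pos0_img hX (mem _ (by decide))
  have mc : c ∈ p.img (exI K) := by
    obtain ⟨k, hk⟩ := h3
    have h7 : c = X 1 * k + X 2 := by rw [← hk, sub_add_cancel]
    rw [h7]
    exact Ideal.add_mem _ (Ideal.mul_mem_right _ _ m1) m2
  have md : d ∈ p.img (exI K) := by
    have h7 : d - X 4 ∈ p.img (exI K) := by
      refine (Ideal.span_le.2 ?_) h6
      rintro x (rfl | hx)
      · exact m1
      · rw [Set.mem_singleton_iff] at hx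
        rw [hx]
        exact m2
    have h8 := Ideal.add_mem _ h7 m4
    rwa [sub_add_cancel] at h8
  have hz : (X 0 : MvPowerSeries (Fin 6) K) ∈ exI K := mem 0 (by decide)
  have hcurve : CurveIdeal (p.img (exI K)) := by
    refine CurveIdeal.img curveIdeal_ex (a := X 0) ?_ hz ?_
    · exact (good_ex (K := K)).mem.1
    · exact ht 0
  have hE : Equi 𝒞 3 5 (∏ i, comps1 (X 0) (X 1) c d i) (p.img (exI K)) :=
    equi_pos1 h𝒞 hLI (Associated.refl _) hcurve m0 m1 mc md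
  refine equi_of_disc h𝒞 p ?_ he ht ?_ (i₀ := 0) ?_ hP hE
  · intro i
    rw [Pos0_symm hX]
    refine ⟨Pi.single i.succ 1, ?_⟩
    rw [Finset.sum_eq_single i.succ]
    · rw [Pi.single_eq_same, map_one, one_mul]
    · intro j _ hj
      rw [Pi.single_eq_of_ne hj, map_zero, zero_mul]
    · intro h7
      exact absurd (Finset.mem_univ _) h7
  · rw [exF_eq]
  · exact hz

end Pool.Agent.Helper38.GP
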