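import Pool.Agent.Helper38.GP.Star
import Pool.Agent.Helper38.GP.Pos0

/-! The projections with a direction that has a nonzero component `0` are permissible for `W` and
transversal. -/

namespace Pool.Agent.Helper38.GP

open MvPowerSeries Pool.Agent.Helper38.EQ

/-- Series with independent linear parts are part of a system of coordinates (complete them by a
linear form; `span_eq_of_linear`, `exists_algEquiv`, `finSuccEquiv`, compare `ExistsLin.lean` and
`ED/ExistsProj.lean`). -/
theorem exists_proj_of_linIndep {n : ℕ} {K : Type} [Field K]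
    (z : Fin n → MvPowerSeries (Fin (n + 1)) K) (hz : LinIndep z) :
    ∃ p : Proj n K, ∀ i, p.σ (z i) = PowerSeries.C (X i) := by
  classical
  obtain ⟨hz0, hz1⟩ := hz
  obtain ⟨w, hw⟩ : ∃ w : Fin (n + 1) → K, w ∉ Submodule.span K
      (Set.range (fun i => fun j : Fin (n + 1) => coeff (Finsupp.single j 1) (z i))) := by
    by_contra hcon
    push Not at hcon
    have h1 : Submodule.span K
        (Set.range (fun i => fun j : Fin (n + 1) => coeff (Finsupp.single j 1) (z i))) = ⊤ :=
      eq_top_iff.2 fun x _ => hcon x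
    have h2 := finrank_span_eq_card hz1
    rw [h1, finrank_top, Module.finrank_fintype_fun_eq_card, Fintype.card_fin,
      Fintype.card_fin] at h2
    omega
  have hlin : LinearIndependent K (Fin.cons w
      (fun i => fun j : Fin (n + 1) => coeff (Finsupp.single j 1) (z i)) :
      Fin (n + 1) → (Fin (n + 1) → K)) := linearIndependent_finCons.mpr ⟨hz1, hw⟩
  let y : Fin (n + 1) → MvPowerSeries (Fin (n + 1)) K := Fin.cons (∑ j, C (w j) * X j) z
  have hy : ∀ i k : Fin (n + 1), coeff (Finsupp.single k 1) (y i) = (Fin.cons w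
      (fun i => fun j : Fin (n + 1) => coeff (Finsupp.single j 1) (z i)) :
      Fin (n + 1) → (Fin (n + 1) → K)) i k := by
    intro i k
    refine Fin.cases ?_ (fun i => ?_) i
    · change coeff (Finsupp.single k 1) (∑ j, C (w j) * X j) = w k
      rw [map_sum, Finset.sum_eq_single k]
      · rw [coeff_C_mul, coeff_X, if_pos rfl, mul_one]
      · intro j _ hjk
        rw [coeff_C_mul, coeff_X, if_neg, mul_zero]
        intro h
        exact hjk ((Finsupp.single_left_inj one_ne_zero).mp h).symm
      · intro h
        exact absurd (Finset.mem_univ _) h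
    · rfl
  have h0 : ∀ i, constantCoeff (y i) = 0 := by
    intro i
    refine Fin.cases ?_ (fun i => ?_) i
    · change constantCoeff (∑ j, C (w j) * X j) = 0
      rw [map_sum]
      exact Finset.sum_eq_zero fun j _ => by rw [map_mul, constantCoeff_X, mul_zero]
    · exact hz0 i
  have hdet : (Matrix.of fun i j => coeff (Finsupp.single j 1) (y i)).det ≠ 0 := by
    have h1 : (Matrix.of fun i j => coeff (Finsupp.single j 1) (y i)) = Matrix.of (Fin.cons w
      (fun i => fun j : Fin (n + 1) => coeff (Finsupp.single j 1) (z i)) :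
      Fin (n + 1) → (Fin (n + 1) → K)) := by
      ext i j
      exact hy i j
    rw [h1]
    have h2 := Matrix.linearIndependent_rows_iff_isUnit.1 (show LinearIndependent K
      (Matrix.of (Fin.cons w
      (fun i => fun j : Fin (n + 1) => coeff (Finsupp.single j 1) (z i)) :
      Fin (n + 1) → (Fin (n + 1) → K))).row from hlin)
    exact ((Matrix.isUnit_iff_isUnit_det _).1 h2).ne_zero
  obtain ⟨τ, hτ⟩ := exists_algEquiv y (span_eq_of_linear y h0 hdet)
  refine ⟨⟨τ.symm.trans (finSuccEquiv K n)⟩, fun i => ?_⟩
  change finSuccEquiv K n (τ.symm (z i)) = PowerSeries.C (X i)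
  have h1 : τ.symm (z i) = X i.succ := by
    rw [AlgEquiv.symm_apply_eq, hτ]
    rfl
  rw [h1, finSuccEquiv_X_succ]

private theorem NegA_mem {K : Type} [Field K] (i : Fin 6) :
    (X i : MvPowerSeries (Fin 6) K) ∈ IsLocalRing.maximalIdeal (MvPowerSeries (Fin 6) K) := by
  rw [mem_maximalIdeal_iff_constantCoeff, constantCoeff_X]

private theorem NegA_sq {K : Type} [Field K] (m : MvPowerSeries (Fin 6) K) :
    X 2 ^ 2 * m ∈ IsLocalRing.maximalIdeal (MvPowerSeries (Fin 6) K) ^ 2 :=
  Ideal.mul_mem_right _ _ (Ideal.pow_mem_pow (NegA_mem 2) 2)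

/-- These projections are permissible for `W` and transversal, and the `z_i` form a set of
parameters, if their linear parts are independent. Proof: `p` from `exists_proj_of_linIndep`; the
vector `(tr X_j)_j` is a nonzero multiple of `v` (both span the kernel of the linear parts of the
`z_i`), so `tr (X 0) ≠ 0`, and the six factors of `exF` have trace `tr (X 0)`; use
`isParams_of_tr`, `permissible_of_tr`, `transversal_of_tr`. -/
theorem good_proj_ex {K : Type} [Field K] [IsAlgClosed K] [CharZero K]
    (z : Fin 5 → MvPowerSeries (Fin 6) K) (hz : LinIndep z) {v : Fin 6 → K}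
    (hv : ∀ i, lin (z i) v = 0) (hv0 : v 0 ≠ 0) :
    IsParams (exF K) z ∧ Permissible (exI K) z ∧ Transversal (exF K) z := by
  classical
  obtain ⟨p, hp⟩ := exists_proj_of_linIndep z hz
  have hzp : z = fun i => p.σ.symm (PowerSeries.C (X i)) := by
    funext i
    rw [← hp i, AlgEquiv.symm_apply_apply]
  let t : Fin 6 → K := fun j => p.tr (X j)
  have ht : ∀ i, lin (z i) t = 0 := by
    intro i
    rw [← p.tr_eq_lin]
    unfold Proj.tr
    rw [hp i, PowerSeries.coeff_C, if_neg one_ne_zero, map_zero]
  have ht0 : t ≠ 0 := by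
    intro h
    have h1 : p.tr (p.σ.symm PowerSeries.X) = 1 := by
      unfold Proj.tr
      rw [AlgEquiv.apply_symm_apply, PowerSeries.coeff_one_X, map_one]
    rw [p.tr_eq_lin] at h1
    change lin _ t = 1 at h1
    rw [h] at h1
    unfold lin at h1
    simp at h1
  -- the kernel of the linear parts is a line
  let M : Matrix (Fin 5) (Fin 6) K := Matrix.of fun i j => coeff (Finsupp.single j 1) (z i)
  have hM : ∀ x : Fin 6 → K, (∀ i, lin (z i) x = 0) → x ∈ LinearMap.ker M.mulVecLin := by
    intro x hx
    rw [LinearMap.mem_ker]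
    funext i
    exact hx i
  have hrank : Module.finrank K (LinearMap.ker M.mulVecLin) = 1 := by
    have h1 : M.rank = 5 := by
      have h2 : LinearIndependent K M.row := hz.2
      rw [h2.rank_matrix, Fintype.card_fin]
    have h2 := LinearMap.finrank_range_add_finrank_ker M.mulVecLin
    have h3 : Module.finrank K (LinearMap.range M.mulVecLin) = 5 := h1
    rw [h3, Module.finrank_fintype_fun_eq_card, Fintype.card_fin] at h2
    omega
  have hvne : (⟨v, hM v hv⟩ : LinearMap.ker M.mulVecLin) ≠ 0 := by
    intro h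
    apply hv0
    have h1 := congrArg (fun x : LinearMap.ker M.mulVecLin => (x : Fin 6 → K) 0) h
    exact h1
  obtain ⟨c, hc⟩ := (finrank_eq_one_iff_of_nonzero' _ hvne).1 hrank ⟨t, hM t ht⟩
  have hc' : c • v = t := congrArg (fun x : LinearMap.ker M.mulVecLin => (x : Fin 6 → K)) hc
  have hc0 : c ≠ 0 := by
    rintro rfl
    apply ht0
    rw [← hc', zero_smul]
  have htr0 : p.tr (X 0) ≠ 0 := by
    have h1 : c * v 0 = p.tr (X 0) := congrFun hc' 0
    rw [← h1]
    exact mul_ne_zero hc0 hv0
  let e : Fin 6 → MvPowerSeries (Fin 6) K := fun i => X 0 - X 2 ^ 2 * exM K i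
  have he : ∀ i, e i ∈ IsLocalRing.maximalIdeal (MvPowerSeries (Fin 6) K) := fun i =>
    Ideal.sub_mem _ (NegA_mem 0) (Ideal.pow_le_self two_ne_zero (NegA_sq _))
  have hte : ∀ i, p.tr (e i) ≠ 0 := by
    intro i
    have h1 : p.tr (e i) = p.tr (X 0) := by
      rw [p.tr_eq_lin, p.tr_eq_lin]
      unfold lin
      refine Finset.sum_congr rfl fun j _ => ?_
      congr 1
      change coeff (Finsupp.single j 1) (X 0 - X 2 ^ 2 * exM K i) = _
      rw [map_sub]
      have h2 : coeff (Finsupp.single j 1) (X 2 ^ 2 * exM K i) = 0 := by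
        have h3 := (mem_maximalIdeal_pow_iff _ _).1 (NegA_sq (exM K i)) (Finsupp.single j 1)
        apply h3
        simp
      rw [h2, sub_zero]
    rw [h1]
    exact htr0
  have hf : Associated (exF K) (∏ i, e i) := Associated.refl _
  rw [hzp]
  refine ⟨isParams_of_tr p he hte (by norm_num) hf, permissible_of_tr p (h := X 0) ?_ htr0,
    transversal_of_tr p he hte hf⟩
  exact Ideal.subset_span (by simp)

end Pool.Agent.Helper38.GP
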