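import Pool.Agent.Helper38.GP.Neg
import Pool.Agent.Helper38.GP.NegA
import Pool.Agent.Helper38.GP.ExProps
import Pool.Agent.Helper38.GP.ExRad
import Pool.Agent.Helper38.GP.GenPoly

/-! The final statement. -/

namespace Pool.Agent.Helper38.GP

open MvPowerSeries Pool.Agent.Helper38.EQ

theorem hasLin_convergent : HasLin Convergent := by
  rintro n f z ⟨hz, -⟩ i
  obtain ⟨ℓ, hℓ⟩ := hz i
  rw [hℓ]
  exact linear_convergent ℓ

theorem hasLin_linear (K : Type) [Field K] : HasLin (LinearTransversal K) :=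
  fun _ _ _ h => h

/-- For almost all convergent projections: not equisingular. -/
theorem generic_ex (G : MvPolynomial (Fin 5 × {ν : Fin 6 →₀ ℕ // ν ≠ 0}) ℂ) (hG : G ≠ 0) :
    ∃ z : Fin 5 → MvPowerSeries (Fin 6) ℂ,
      (∀ i, IsConvergent (z i) ∧ constantCoeff (z i) = 0) ∧
      MvPolynomial.eval (fun p => coeff p.2.1 (z p.1)) G ≠ 0 ∧
      IsParams (exF ℂ) z ∧ Permissible (exI ℂ) z ∧ Transversal (exF ℂ) z ∧
      ¬ EquiProj (Formal ℂ) 3 (exF ℂ) (exI ℂ) z ∧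
      ¬ EquiProj Convergent 3 (exF ℂ) (exI ℂ) z := by
  obtain ⟨z, v, h1, h2, h3, h4, h5, h6⟩ := exists_generic G hG
  obtain ⟨h7, h8, h9⟩ := good_proj_ex z h3 h4 h5
  exact ⟨z, h1, h2, h7, h8, h9, neg_ex z h4 h5 h6, neg_ex z h4 h5 h6⟩

end Pool.Agent.Helper38.GP
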