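import Pool.Agent.Helper38.GP.Defs
import Pool.Agent.Helper38.EQ.AdicComplete
import Pool.Agent.Helper38.EQ.InvFun
import Pool.Agent.Helper38.EQ.Psi

/-! Homomorphisms from rings of power series to local rings. -/

namespace Pool.Agent.Helper38.GP

open MvPowerSeries Pool.Agent.Helper38.EQ

/-- The ring `K⟦w⟧⟦s⟧`. -/
abbrev WS (d : ℕ) (K : Type) [Field K] : Type := PowerSeries (MvPowerSeries (Fin d) K)

/-- A homomorphism of `K`-algebras from a power series ring to a local ring with residue
field... maps the maximal ideal to the maximal ideal: if `φ x` is a unit, then for the constant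
`a ∈ K` with `χ (φ x) = a`, where `χ : T → K` is a homomorphism of `K`-algebras, `x - a` is a unit
and `χ (φ (x - a)) = 0`. -/
theorem hom_mem {n : ℕ} {K T : Type} [Field K] [CommRing T] [IsLocalRing T] [Algebra K T]
    (χ : T →ₐ[K] K) (φ : MvPowerSeries (Fin n) K →ₐ[K] T) {x : MvPowerSeries (Fin n) K}
    (hx : x ∈ IsLocalRing.maximalIdeal (MvPowerSeries (Fin n) K)) :
    φ x ∈ IsLocalRing.maximalIdeal T := by
  by_contra hcon
  rw [IsLocalRing.mem_maximalIdeal, mem_nonunits_iff, not_not] at hcon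
  have ha : χ (φ x) ≠ 0 := (hcon.map χ).ne_zero
  rw [mem_maximalIdeal_iff_constantCoeff] at hx
  have hu : IsUnit (x - algebraMap K (MvPowerSeries (Fin n) K) (χ (φ x))) := by
    rw [MvPowerSeries.isUnit_iff_constantCoeff, map_sub, hx, zero_sub]
    have h1 : constantCoeff (algebraMap K (MvPowerSeries (Fin n) K) (χ (φ x))) = χ (φ x) := by
      rw [MvPowerSeries.algebraMap_apply]
      simp
    rw [h1]
    exact (isUnit_iff_ne_zero.2 ha).neg
  have h2 := (hu.map φ).map χ
  rw [map_sub, map_sub, AlgHom.commutes, AlgHom.commutes, Algebra.algebraMap_self_apply,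
    sub_self] at h2
  exact not_isUnit_zero h2

private theorem Hom1_sub_trunc {n : ℕ} {K : Type} [Field K] (N : ℕ)
    (h : MvPowerSeries (Fin n) K) :
    ∃ P : MvPolynomial (Fin n) K,
      h - (P : MvPowerSeries (Fin n) K) ∈
        IsLocalRing.maximalIdeal (MvPowerSeries (Fin n) K) ^ N := by
  classical
  refine ⟨trunc' K (Finsupp.equivFunOnFinite.symm fun _ => N) h, ?_⟩
  rw [mem_maximalIdeal_pow_iff]
  intro α hα
  have hle : α ≤ (Finsupp.equivFunOnFinite.symm fun _ => N : Fin n →₀ ℕ) := by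
    intro i
    have h1 : α i ≤ ∑ j, α j := Finset.single_le_sum (f := fun j => α j)
      (fun _ _ => Nat.zero_le _) (Finset.mem_univ i)
    change α i ≤ N
    omega
  rw [map_sub, MvPolynomial.coeff_coe, coeff_trunc', if_pos hle, sub_self]

private theorem Hom1_map_pow {n : ℕ} {K T : Type} [Field K] [CommRing T] [IsLocalRing T]
    [Algebra K T] (φ : MvPowerSeries (Fin n) K →ₐ[K] T)
    (hm : ∀ i, φ (X i) ∈ IsLocalRing.maximalIdeal T) (N : ℕ)
    (h : MvPowerSeries (Fin n) K)
    (hh : h ∈ IsLocalRing.maximalIdeal (MvPowerSeries (Fin n) K) ^ N) :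
    φ h ∈ IsLocalRing.maximalIdeal T ^ N := by
  have h1 : Ideal.map φ (IsLocalRing.maximalIdeal (MvPowerSeries (Fin n) K)) ≤
      IsLocalRing.maximalIdeal T := by
    rw [maximalIdeal_eq_span_X, Ideal.map_span, Ideal.span_le]
    rintro _ ⟨_, ⟨i, rfl⟩, rfl⟩
    exact hm i
  have h2 : Ideal.map φ (IsLocalRing.maximalIdeal (MvPowerSeries (Fin n) K) ^ N) ≤
      IsLocalRing.maximalIdeal T ^ N := by
    rw [Ideal.map_pow]
    exact Ideal.pow_right_mono h1 N
  exact h2 (Ideal.mem_map_of_mem φ hh)

/-- Uniqueness: two homomorphisms to a noetherian local ring that map the variables to the same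
elements of the maximal ideal are equal. (`h` is a polynomial plus an element of `𝔪 ^ N`, for
every `N`; Krull's intersection theorem.) -/
theorem hom_ext {n : ℕ} {K T : Type} [Field K] [CommRing T] [IsLocalRing T] [IsNoetherianRing T]
    [Algebra K T] (φ ψ : MvPowerSeries (Fin n) K →ₐ[K] T)
    (h0 : ∀ i, φ (X i) ∈ IsLocalRing.maximalIdeal T) (h : ∀ i, φ (X i) = ψ (X i)) : φ = ψ := by
  have hpol : ∀ P : MvPolynomial (Fin n) K, φ (P : MvPowerSeries (Fin n) K) =
      ψ (P : MvPowerSeries (Fin n) K) := by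
    intro P
    have h1 : φ.comp (MvPolynomial.coeToMvPowerSeries.algHom (R := K) (σ := Fin n) K) =
        ψ.comp (MvPolynomial.coeToMvPowerSeries.algHom (R := K) (σ := Fin n) K) := by
      apply MvPolynomial.algHom_ext
      intro i
      simpa using h i
    have h2 := DFunLike.congr_fun h1 P
    simpa using h2
  apply AlgHom.ext
  intro x
  rw [← sub_eq_zero, ← Ideal.mem_bot,
    ← Ideal.iInf_pow_eq_bot_of_isLocalRing (IsLocalRing.maximalIdeal T)
      (IsLocalRing.maximalIdeal.isMaximal T).ne_top, Ideal.mem_iInf]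
  intro N
  obtain ⟨P, hP⟩ := Hom1_sub_trunc N x
  have h1 := Hom1_map_pow φ h0 N _ hP
  have h2 := Hom1_map_pow ψ (fun i => by rw [← h i]; exact h0 i) N _ hP
  have h3 := Ideal.sub_mem _ h1 h2
  rw [map_sub, map_sub, hpol P] at h3
  have h4 : φ x - ψ (P : MvPowerSeries (Fin n) K) - (ψ x - ψ (P : MvPowerSeries (Fin n) K)) =
      φ x - ψ x := by ring
  rwa [h4] at h3

/-- The same for homomorphisms from `K⟦y⟧⟦t⟧`. -/
theorem hom_ext' {n : ℕ} {K T : Type} [Field K] [CommRing T] [IsLocalRing T] [IsNoetherianRing T]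
    [Algebra K T] (φ ψ : PowerSeries (MvPowerSeries (Fin n) K) →ₐ[K] T)
    (hX : φ PowerSeries.X ∈ IsLocalRing.maximalIdeal T)
    (h0 : ∀ i, φ (PowerSeries.C (X i)) ∈ IsLocalRing.maximalIdeal T)
    (h1 : φ PowerSeries.X = ψ PowerSeries.X)
    (h : ∀ i, φ (PowerSeries.C (X i)) = ψ (PowerSeries.C (X i))) : φ = ψ := by
  have h2 : φ.comp (finSuccEquiv K n : MvPowerSeries (Fin (n + 1)) K →ₐ[K]
      PowerSeries (MvPowerSeries (Fin n) K)) =
      ψ.comp (finSuccEquiv K n : MvPowerSeries (Fin (n + 1)) K →ₐ[K]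
        PowerSeries (MvPowerSeries (Fin n) K)) := by
    apply hom_ext
    · intro i
      refine Fin.cases ?_ (fun i => ?_) i
      · change φ (finSuccEquiv K n (X 0)) ∈ _
        rw [finSuccEquiv_X_zero]
        exact hX
      · change φ (finSuccEquiv K n (X i.succ)) ∈ _
        rw [finSuccEquiv_X_succ]
        exact h0 i
    · intro i
      refine Fin.cases ?_ (fun i => ?_) i
      · change φ (finSuccEquiv K n (X 0)) = ψ (finSuccEquiv K n (X 0))
        rw [finSuccEquiv_X_zero]
        exact h1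
      · change φ (finSuccEquiv K n (X i.succ)) = ψ (finSuccEquiv K n (X i.succ))
        rw [finSuccEquiv_X_succ]
        exact h i
  apply AlgHom.ext
  intro x
  have h3 := DFunLike.congr_fun h2 ((finSuccEquiv K n).symm x)
  change φ (finSuccEquiv K n ((finSuccEquiv K n).symm x)) =
    ψ (finSuccEquiv K n ((finSuccEquiv K n).symm x)) at h3
  rwa [AlgEquiv.apply_symm_apply] at h3

/-- The value of a polynomial. -/
theorem eval_coe {n : ℕ} {K T : Type} [Field K] [CommRing T] [Algebra K T]
    (Γ : PowerSeries (MvPowerSeries (Fin n) K) →ₐ[K] T) (F : Polynomial (MvPowerSeries (Fin n) K)) :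
    Γ (F : PowerSeries (MvPowerSeries (Fin n) K)) =
      (F.map ((Γ : PowerSeries (MvPowerSeries (Fin n) K) →+* T).comp PowerSeries.C)).eval
        (Γ PowerSeries.X) := by
  induction F using Polynomial.induction_on' with
  | add p q hp hq =>
    rw [Polynomial.coe_add, map_add, hp, hq, Polynomial.map_add, Polynomial.eval_add]
  | monomial m a =>
    rw [Polynomial.map_monomial, Polynomial.eval_monomial, ← Polynomial.C_mul_X_pow_eq_monomial,
      Polynomial.coe_mul, Polynomial.coe_C, Polynomial.coe_pow, Polynomial.coe_X, map_mul,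
      map_pow]
    rfl

end Pool.Agent.Helper38.GP
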