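import Pool.Agent.Helper38.GP.Defs
import Pool.Agent.Helper38.EQ.AdicComplete
import Pool.Agent.Helper38.EQ.InvFun
import Pool.Agent.Helper38.EQ.Psi
import Pool.Agent.Helper38.GP.Hom1

/-! Homomorphisms from rings of power series to local rings. -/

namespace Pool.Agent.Helper38.GP

open MvPowerSeries Pool.Agent.Helper38.EQ

/-- Existence of the substitution homomorphism with values in `K⟦w⟧⟦s⟧` (isomorphic to a ring
of power series in `d + 1` variables, `finSuccEquiv`; `MvPowerSeries.subst`, see the use in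
`EQ/InvFun.lean`). -/
theorem exists_hom {n d : ℕ} {K : Type} [Field K] (y : Fin n → WS d K)
    (hy : ∀ i, y i ∈ IsLocalRing.maximalIdeal (WS d K)) :
    ∃ Γ : MvPowerSeries (Fin n) K →ₐ[K] WS d K, ∀ i, Γ (X i) = y i := by
  have hs : HasSubst (fun i => (finSuccEquiv K d).symm (y i)) := by
    apply hasSubst_of_constantCoeff_zero
    intro i
    by_contra hcon
    have h1 : IsUnit ((finSuccEquiv K d).symm (y i)) := by
      rw [isUnit_iff_constantCoeff]
      exact isUnit_iff_ne_zero.2 hcon
    have h2 : IsUnit (y i) := by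
      have h3 := h1.map (finSuccEquiv K d)
      rwa [AlgEquiv.apply_symm_apply] at h3
    have h4 := hy i
    rw [IsLocalRing.mem_maximalIdeal, mem_nonunits_iff] at h4
    exact h4 h2
  refine ⟨((finSuccEquiv K d : MvPowerSeries (Fin (d + 1)) K →ₐ[K]
    PowerSeries (MvPowerSeries (Fin d) K))).comp (substAlgHom hs), fun i => ?_⟩
  change finSuccEquiv K d (substAlgHom hs (X i)) = y i
  rw [substAlgHom_X, AlgEquiv.apply_symm_apply]

/-- the residue map of `K⟦w⟧⟦s⟧` -/
private noncomputable def Hom2_res (d : ℕ) (K : Type) [Field K] : WS d K →ₐ[K] K :=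
  { (constantCoeff (σ := Fin d) (R := K)).comp
      (PowerSeries.constantCoeff (R := MvPowerSeries (Fin d) K)) with
    commutes' := fun a => by
      change constantCoeff (PowerSeries.constantCoeff
        (algebraMap K (PowerSeries (MvPowerSeries (Fin d) K)) a)) = a
      rw [PowerSeries.algebraMap_apply, PowerSeries.constantCoeff_C,
        MvPowerSeries.algebraMap_apply]
      simp }

/-- the inclusion of the coefficients -/
private noncomputable def Hom2_C (n : ℕ) (K : Type) [Field K] :
    MvPowerSeries (Fin n) K →ₐ[K] PowerSeries (MvPowerSeries (Fin n) K) :=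
  { PowerSeries.C (R := MvPowerSeries (Fin n) K) with
    commutes' := fun a => by
      change PowerSeries.C (algebraMap K (MvPowerSeries (Fin n) K) a) = _
      rw [PowerSeries.algebraMap_apply] }

/-- Extension of a homomorphism `Γ` from `K⟦y⟧` to `K⟦y⟧⟦t⟧`, with a given value at `t`. -/
theorem exists_extend {n d : ℕ} {K : Type} [Field K]
    (Γ : MvPowerSeries (Fin n) K →ₐ[K] WS d K) (θ : WS d K)
    (hθ : θ ∈ IsLocalRing.maximalIdeal (WS d K)) :
    ∃ Γ' : PowerSeries (MvPowerSeries (Fin n) K) →ₐ[K] WS d K,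
      (∀ y, Γ' (PowerSeries.C y) = Γ y) ∧ Γ' PowerSeries.X = θ := by
  have hX : ∀ i : Fin n, Γ (X i) ∈ IsLocalRing.maximalIdeal (WS d K) := fun i =>
    hom_mem (Hom2_res d K) Γ (by rw [mem_maximalIdeal_iff_constantCoeff]; simp)
  obtain ⟨Φ, hΦ⟩ := exists_hom (Fin.cons θ (fun i => Γ (X i)) : Fin (n + 1) → WS d K)
    (fun i => by
      refine Fin.cases ?_ (fun i => ?_) i
      · simpa using hθ
      · simpa using hX i)
  have h0 : Φ (X 0) = θ := by rw [hΦ]; simp
  have hsucc : ∀ i : Fin n, Φ (X i.succ) = Γ (X i) := fun i => by rw [hΦ]; simp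
  refine ⟨Φ.comp ((finSuccEquiv K n).symm : PowerSeries (MvPowerSeries (Fin n) K) →ₐ[K]
    MvPowerSeries (Fin (n + 1)) K), fun y => ?_, ?_⟩
  · have h1 : (Φ.comp ((finSuccEquiv K n).symm : PowerSeries (MvPowerSeries (Fin n) K) →ₐ[K]
        MvPowerSeries (Fin (n + 1)) K)).comp (Hom2_C n K) = Γ := by
      have h2 : ∀ i : Fin n, ((Φ.comp ((finSuccEquiv K n).symm :
          PowerSeries (MvPowerSeries (Fin n) K) →ₐ[K]
          MvPowerSeries (Fin (n + 1)) K)).comp (Hom2_C n K)) (X i) = Γ (X i) := by
        intro i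
        change Φ ((finSuccEquiv K n).symm (PowerSeries.C (X i))) = Γ (X i)
        rw [← finSuccEquiv_X_succ, AlgEquiv.symm_apply_apply, hsucc]
      apply hom_ext
      · intro i
        rw [h2 i]
        exact hX i
      · exact h2
    have h3 := DFunLike.congr_fun h1 y
    exact h3
  · change Φ ((finSuccEquiv K n).symm PowerSeries.X) = θ
    rw [← finSuccEquiv_X_zero, AlgEquiv.symm_apply_apply, h0]

end Pool.Agent.Helper38.GP
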