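import Pool.Agent.Helper38.GP.Defs
import Pool.Agent.Helper38.EQ.AdicComplete
import Pool.Agent.Helper38.EQ.InvFun
import Pool.Agent.Helper38.EQ.Psi
import Pool.Agent.Helper38.GP.Hom1
import Pool.Agent.Helper38.GP.Hom2

/-! Homomorphisms from rings of power series to local rings. -/

namespace Pool.Agent.Helper38.GP

open MvPowerSeries Pool.Agent.Helper38.EQ

/-- The monomial arc of exponent `ν`. -/
private theorem Hom_prod {n : ℕ} {K : Type} [Field K] (c : Fin n → K) (w : Fin n → ℕ)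
    (ν : Fin n →₀ ℕ) :
    (ν.prod fun i e => (PowerSeries.C (c i) * PowerSeries.X ^ w i : PowerSeries K) ^ e) =
      PowerSeries.C (∏ i, c i ^ ν i) * PowerSeries.X ^ (∑ i, w i * ν i) := by
  rw [Finsupp.prod_fintype _ _ (fun i => pow_zero _)]
  rw [map_prod, ← Finset.prod_pow_eq_pow_sum, ← Finset.prod_mul_distrib]
  refine Finset.prod_congr rfl fun i _ => ?_
  rw [mul_pow, map_pow, ← pow_mul]

/-- Arcs `y_i ↦ c_i s ^ w_i`. -/
theorem exists_monomial_arc {n : ℕ} {K : Type} [Field K] (c : Fin n → K) (w : Fin n → ℕ)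
    (hw : ∀ i, 1 ≤ w i) :
    ∃ γ : MvPowerSeries (Fin n) K →ₐ[K] PowerSeries K,
      (∀ i, γ (X i) = PowerSeries.C (c i) * PowerSeries.X ^ w i) ∧
      ∀ (G : MvPowerSeries (Fin n) K) (k : ℕ),
        PowerSeries.coeff k (γ G) =
          ∑ᶠ ν ∈ {ν : Fin n →₀ ℕ | ∑ i, w i * ν i = k}, coeff ν G * ∏ i, c i ^ ν i := by

  classical
  let a : Fin n → PowerSeries K := fun i => PowerSeries.C (c i) * PowerSeries.X ^ w i
  have ha0 : ∀ i, PowerSeries.constantCoeff (a i) = 0 := by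
    intro i
    change PowerSeries.constantCoeff (PowerSeries.C (c i) * PowerSeries.X ^ w i) = 0
    rw [map_mul, map_pow, PowerSeries.constantCoeff_X, zero_pow (by have := hw i; omega),
      mul_zero]
  have ha : HasSubst (S := K) (τ := Unit) a := hasSubst_of_constantCoeff_zero ha0
  refine ⟨substAlgHom (R := K) ha, fun i => substAlgHom_X ha i, fun G k => ?_⟩
  have h1 : PowerSeries.coeff k (substAlgHom (R := K) ha G : PowerSeries K) =
      finsum (fun d ↦ coeff d G •
        (PowerSeries.coeff k (d.prod fun s e => (a s) ^ e : PowerSeries K))) := by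
    rw [coe_substAlgHom]
    exact coeff_subst ha G (Finsupp.single () k)
  rw [h1, finsum_mem_def]
  congr 1
  funext ν
  have h2 : (ν.prod fun s e => (a s) ^ e : PowerSeries K) =
      PowerSeries.C (∏ i, c i ^ ν i) * PowerSeries.X ^ (∑ i, w i * ν i) := Hom_prod c w ν
  rw [h2, PowerSeries.coeff_C_mul, PowerSeries.coeff_X_pow, smul_eq_mul]
  by_cases hk : ∑ i, w i * ν i = k
  · rw [Set.indicator_of_mem (show ν ∈ {ν : Fin n →₀ ℕ | ∑ i, w i * ν i = k} from hk),
      if_pos hk.symm, mul_one]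
  · rw [Set.indicator_of_notMem (show ν ∉ {ν : Fin n →₀ ℕ | ∑ i, w i * ν i = k} from hk),
      if_neg (fun h => hk h.symm), mul_zero, mul_zero]

private theorem Hom_finite {n : ℕ} (w : Fin n → ℕ) (hw : ∀ i, 1 ≤ w i) (k : ℕ) :
    {ν : Fin n →₀ ℕ | ∑ i, w i * ν i = k}.Finite := by
  classical
  refine (Set.finite_Iic (Finsupp.equivFunOnFinite.symm fun _ : Fin n => k)).subset ?_
  intro ν hν i
  have h1 : w i * ν i ≤ ∑ i, w i * ν i :=
    Finset.single_le_sum (f := fun i => w i * ν i) (fun _ _ => Nat.zero_le _) (Finset.mem_univ i)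
  have h2 : ∑ i, w i * ν i = k := hν
  have h3 : ν i ≤ w i * ν i := Nat.le_mul_of_pos_left _ (hw i)
  change ν i ≤ k
  omega

/-- For every nonzero series `G` and every nonzero polynomial `P` there is an arc
`y_i ↦ c_i s ^ w_i` with `G ≠ 0` on the arc and `P(c) ≠ 0`. Proof: let `k` be the least weight
`∑ w_i ν_i` of a monomial of `G`; the coefficient of `s ^ k` is a nonzero polynomial in `c`. -/
theorem exists_arc {n : ℕ} {K : Type} [Field K] [Infinite K] {G : MvPowerSeries (Fin n) K}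
    (hG : G ≠ 0) (w : Fin n → ℕ) (hw : ∀ i, 1 ≤ w i) {P : MvPolynomial (Fin n) K} (hP : P ≠ 0) :
    ∃ (c : Fin n → K) (γ : MvPowerSeries (Fin n) K →ₐ[K] PowerSeries K),
      MvPolynomial.eval c P ≠ 0 ∧ γ G ≠ 0 ∧
      ∀ i, γ (X i) = PowerSeries.C (c i) * PowerSeries.X ^ w i := by
  classical
  obtain ⟨ν₀, hν₀⟩ : ∃ ν, coeff ν G ≠ 0 := by
    by_contra h
    push Not at h
    exact hG (MvPowerSeries.ext h)
  obtain ⟨k, hk⟩ : ∃ k, ∑ i, w i * ν₀ i = k := ⟨_, rfl⟩
  have hfin := Hom_finite w hw k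
  let Q : MvPolynomial (Fin n) K :=
    ∑ ν ∈ hfin.toFinset, MvPolynomial.monomial ν (coeff ν G)
  have hQ : Q ≠ 0 := by
    intro h
    have h1 : MvPolynomial.coeff ν₀ Q = coeff ν₀ G := by
      change MvPolynomial.coeff ν₀ (∑ ν ∈ hfin.toFinset, MvPolynomial.monomial ν (coeff ν G)) = _
      rw [MvPolynomial.coeff_sum, Finset.sum_eq_single ν₀]
      · rw [MvPolynomial.coeff_monomial, if_pos rfl]
      · intro ν _ hν
        rw [MvPolynomial.coeff_monomial, if_neg hν]
      · intro h2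
        exact absurd (hfin.mem_toFinset.mpr hk) h2
    rw [h, MvPolynomial.coeff_zero] at h1
    exact hν₀ h1.symm
  obtain ⟨c, hc⟩ : ∃ c, MvPolynomial.eval c (P * Q) ≠ 0 := by
    by_contra h
    push Not at h
    exact mul_ne_zero hP hQ (MvPolynomial.funext fun x => by rw [h x, map_zero])
  rw [map_mul] at hc
  obtain ⟨γ, hγ1, hγ2⟩ := exists_monomial_arc c w hw
  refine ⟨c, γ, left_ne_zero_of_mul hc, ?_, hγ1⟩
  intro h
  have h1 := hγ2 G k
  rw [h, map_zero] at h1
  have h2 : ∑ᶠ ν ∈ {ν : Fin n →₀ ℕ | ∑ i, w i * ν i = k}, coeff ν G * ∏ i, c i ^ ν i =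
      MvPolynomial.eval c Q := by
    rw [finsum_mem_eq_finite_toFinset_sum _ hfin]
    change _ = MvPolynomial.eval c
      (∑ ν ∈ hfin.toFinset, MvPolynomial.monomial ν (coeff ν G))
    rw [map_sum]
    refine Finset.sum_congr rfl fun ν _ => ?_
    rw [MvPolynomial.eval_monomial, Finsupp.prod_fintype _ _ (fun i => pow_zero _)]
  rw [h2] at h1
  exact right_ne_zero_of_mul hc h1.symm

end Pool.Agent.Helper38.GP
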