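import Pool.Agent.Helper38.GP.Hom

/-! Interpolation between roots. -/

namespace Pool.Agent.Helper38.GP

open MvPowerSeries Pool.Agent.Helper38.EQ

variable {d : ℕ} {K : Type} [Field K]

/-- Restriction to `w = 0`. -/
noncomputable def om (d : ℕ) (K : Type) [Field K] : WS d K →+* PowerSeries K :=
  PowerSeries.map (constantCoeff (σ := Fin d) (R := K))

/-- The inclusion `K⟦s⟧ → K⟦w⟧⟦s⟧`. -/
noncomputable def io (d : ℕ) (K : Type) [Field K] : PowerSeries K →+* WS d K :=
  PowerSeries.map (C (σ := Fin d) (R := K))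

theorem om_io (x : PowerSeries K) : om d K (io d K x) = x := by
  ext n
  rw [om, io, PowerSeries.coeff_map, PowerSeries.coeff_map, constantCoeff_C]

/-- A divisor of a power of `s` is a power of `s` up to a unit (`s` is prime). -/
theorem assoc_of_dvd_X_pow {x : WS d K} {k : ℕ} (h : x ∣ PowerSeries.X ^ k) :
    ∃ j, Associated x (PowerSeries.X ^ j) := by
  obtain ⟨j, _, hj⟩ := (dvd_prime_pow PowerSeries.X_prime k).1 h
  exact ⟨j, hj⟩

private theorem Interp_unit (x : WS d K) (h : IsUnit (om d K x)) : IsUnit x := by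
  rw [PowerSeries.isUnit_iff_constantCoeff] at h ⊢
  rw [MvPowerSeries.isUnit_iff_constantCoeff]
  rw [om, ← PowerSeries.coeff_zero_eq_constantCoeff_apply, PowerSeries.coeff_map] at h
  rwa [← PowerSeries.coeff_zero_eq_constantCoeff_apply]

private theorem Interp_om_X (n : ℕ) (x : WS d K) :
    om d K (PowerSeries.X ^ n * x) = PowerSeries.X ^ n * om d K x := by
  rw [map_mul, map_pow, om, PowerSeries.map_X]

private theorem Interp_add (n : ℕ) (hn : n ≠ 0) (u : (WS d K)ˣ) (x : WS d K) :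
    IsUnit ((u : WS d K) + PowerSeries.X ^ n * x) := by
  rw [PowerSeries.isUnit_iff_constantCoeff, map_add, map_mul, map_pow,
    PowerSeries.constantCoeff_X, zero_pow hn, zero_mul, add_zero,
    ← PowerSeries.isUnit_iff_constantCoeff]
  exact u.isUnit

private theorem Interp_assoc (n : ℕ) {x : WS d K} (hx : IsUnit x) :
    Associated (PowerSeries.X ^ n * x) (PowerSeries.X ^ n) :=
  associated_mul_unit_left _ _ hx

/-- Interpolation: let `ρ_i` be elements of `K⟦w⟧⟦s⟧`, any two of them equal or with difference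
`s ^ e` times a unit, and let `θ ∈ K⟦s⟧` be different from all `ρ_i` on `w = 0`. Choose `i₀` with
`ord (θ - ρ_{i₀}|_{w=0})` maximal. Then `Θ = ρ_{i₀} + (θ - ρ_{i₀}|_{w = 0})` extends `θ`, and all
`Θ - ρ_i` are powers of `s` up to units. -/
theorem interp {m : ℕ} (hm : m ≠ 0) (ρ : Fin m → WS d K)
    (hρ : ∀ i j, ρ i = ρ j ∨ ∃ e, Associated (ρ i - ρ j) (PowerSeries.X ^ e))
    (θ : PowerSeries K) (hθ : ∀ i, θ ≠ om d K (ρ i)) :
    ∃ i₀, ∀ i, ∃ e, Associated (ρ i₀ + io d K (θ - om d K (ρ i₀)) - ρ i) (PowerSeries.X ^ e) := by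
  classical
  have hne : Nonempty (Fin m) := ⟨⟨0, Nat.pos_of_ne_zero hm⟩⟩
  -- the orders
  have h1 : ∀ i, ∃ (a : ℕ) (u : (PowerSeries K)ˣ),
      θ - om d K (ρ i) = PowerSeries.X ^ a * (u : PowerSeries K) := by
    intro i
    have h2 : θ - om d K (ρ i) ≠ 0 := sub_ne_zero.2 (hθ i)
    refine ⟨(θ - om d K (ρ i)).order.toNat,
      PowerSeries.Unit_of_divided_by_X_pow_order (θ - om d K (ρ i)), ?_⟩
    rw [PowerSeries.Unit_of_divided_by_X_pow_order_nonzero h2]
    exact PowerSeries.X_pow_order_mul_divXPowOrder.symm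
  choose a u hu using h1
  obtain ⟨i₀, hi₀⟩ := Finite.exists_max a
  refine ⟨i₀, fun i => ?_⟩
  obtain ⟨u', hu'⟩ : ∃ u' : (WS d K)ˣ, io d K (θ - om d K (ρ i₀)) =
      PowerSeries.X ^ a i₀ * (u' : WS d K) := by
    refine ⟨Units.map (io d K).toMonoidHom (u i₀), ?_⟩
    rw [hu i₀, map_mul, map_pow, io, PowerSeries.map_X]
    rfl
  -- restriction to `w = 0`
  have hom : om d K (ρ i₀ + io d K (θ - om d K (ρ i₀)) - ρ i) = θ - om d K (ρ i) := by
    rw [map_sub, map_add, om_io]
    ring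
  rcases hρ i₀ i with h | ⟨e, he⟩
  · refine ⟨a i₀, ?_⟩
    rw [show ρ i₀ + io d K (θ - om d K (ρ i₀)) - ρ i = io d K (θ - om d K (ρ i₀)) by
      rw [← h]; ring, hu']
    exact Interp_assoc _ u'.isUnit
  · obtain ⟨v, hv⟩ := he.symm
    have h3 : ρ i₀ + io d K (θ - om d K (ρ i₀)) - ρ i =
        PowerSeries.X ^ e * (v : WS d K) + PowerSeries.X ^ a i₀ * (u' : WS d K) := by
      rw [hv, ← hu']
      ring
    rcases lt_trichotomy e (a i₀) with hlt | heq | hgt
    · refine ⟨e, ?_⟩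
      obtain ⟨r, hr⟩ := Nat.exists_eq_add_of_lt hlt
      have h4 : ρ i₀ + io d K (θ - om d K (ρ i₀)) - ρ i =
          PowerSeries.X ^ e * ((v : WS d K) + PowerSeries.X ^ (r + 1) * (u' : WS d K)) := by
        rw [h3, hr, show e + r + 1 = e + (r + 1) from rfl, pow_add]
        ring
      rw [h4]
      exact Interp_assoc _ (Interp_add _ (Nat.succ_ne_zero r) v _)
    · refine ⟨a i₀, ?_⟩
      have h4 : ρ i₀ + io d K (θ - om d K (ρ i₀)) - ρ i =
          PowerSeries.X ^ a i₀ * ((v : WS d K) + (u' : WS d K)) := by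
        rw [h3, heq]
        ring
      rw [h4]
      refine Interp_assoc _ (Interp_unit _ ?_)
      -- the order of `θ - ρ_i` at `w = 0` is at most `a i₀`
      rw [h4, Interp_om_X, hu i] at hom
      obtain ⟨r, hr⟩ := Nat.exists_eq_add_of_le (hi₀ i)
      rw [hr, pow_add, mul_assoc] at hom
      have h5 : PowerSeries.X ^ r * om d K ((v : WS d K) + (u' : WS d K)) =
          ((u i : (PowerSeries K)ˣ) : PowerSeries K) :=
        mul_left_cancel₀ (pow_ne_zero _ PowerSeries.X_ne_zero) hom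
      exact isUnit_of_mul_isUnit_right (h5 ▸ (u i).isUnit)
    · refine ⟨a i₀, ?_⟩
      obtain ⟨r, hr⟩ := Nat.exists_eq_add_of_lt hgt
      have h4 : ρ i₀ + io d K (θ - om d K (ρ i₀)) - ρ i =
          PowerSeries.X ^ a i₀ * ((u' : WS d K) + PowerSeries.X ^ (r + 1) * (v : WS d K)) := by
        rw [h3, hr, show a i₀ + r + 1 = a i₀ + (r + 1) from rfl, pow_add]
        ring
      rw [h4]
      exact Interp_assoc _ (Interp_add _ (Nat.succ_ne_zero r) u' _)

end Pool.Agent.Helper38.GP
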