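import Pool.Agent.Helper38.GP.Lifts

/-! The arc extension property: smooth hypersurfaces. -/

namespace Pool.Agent.Helper38.GP

open MvPowerSeries Pool.Agent.Helper38.EQ

/-- The first coordinate can be taken to be `f`. -/
private theorem LiftBase_coord {d : ℕ} {K : Type} [Field K] {f : MvPowerSeries (Fin (d + 1)) K}
    (h1 : f ∈ IsLocalRing.maximalIdeal (MvPowerSeries (Fin (d + 1)) K))
    (h2 : f ∉ IsLocalRing.maximalIdeal (MvPowerSeries (Fin (d + 1)) K) ^ 2) :
    ∃ τ : MvPowerSeries (Fin (d + 1)) K ≃ₐ[K] MvPowerSeries (Fin (d + 1)) K, τ (X 0) = f := by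
  classical
  have h3 : constantCoeff f = 0 := (mem_maximalIdeal_iff_constantCoeff f).1 h1
  obtain ⟨j₀, hj₀⟩ : ∃ j, coeff (Finsupp.single j 1) f ≠ 0 := by
    by_contra hcon
    push Not at hcon
    exact h2 ((Pool.Agent.Helper38.ED.LIBasic1_mem_sq_iff f).2 ⟨h3, hcon⟩)
  let y : Fin (d + 1) → MvPowerSeries (Fin (d + 1)) K :=
    Fin.cons f fun i => X (j₀.succAbove i)
  have hy0 : y 0 = f := rfl
  have hys : ∀ i : Fin d, y i.succ = X (j₀.succAbove i) := fun i => rfl
  have hc : ∀ i, constantCoeff (y i) = 0 := by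
    intro i
    refine Fin.cases ?_ (fun i => ?_) i
    · exact h3
    · rw [hys, constantCoeff_X]
  have hdet : (Matrix.of fun i j => coeff (Finsupp.single j 1) (y i)).det ≠ 0 := by
    intro hdet
    obtain ⟨v, hv0, hv⟩ := Matrix.exists_mulVec_eq_zero_iff.2 hdet
    apply hv0
    have h4 : ∀ i, v (j₀.succAbove i) = 0 := by
      intro i
      have h5 := congrFun hv i.succ
      simp only [Matrix.mulVec, dotProduct, Matrix.of_apply, hys, Pi.zero_apply] at h5
      rw [Finset.sum_eq_single (j₀.succAbove i)] at h5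
      · rw [coeff_X, if_pos rfl, one_mul] at h5
        exact h5
      · intro b _ hb
        rw [coeff_X, if_neg, zero_mul]
        intro h6
        exact hb ((Finsupp.single_left_inj one_ne_zero).mp h6)
      · intro h6
        exact absurd (Finset.mem_univ _) h6
    have h5 := congrFun hv 0
    simp only [Matrix.mulVec, dotProduct, Matrix.of_apply, hy0, Pi.zero_apply] at h5
    rw [Fin.sum_univ_succAbove _ j₀] at h5
    simp only [h4, mul_zero, Finset.sum_const_zero, add_zero] at h5
    have h6 : v j₀ = 0 := (mul_eq_zero.1 h5).resolve_left hj₀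
    funext j
    rcases Fin.eq_self_or_eq_succAbove j₀ j with h7 | ⟨i, h7⟩
    · rw [h7]
      exact h6
    · rw [h7]
      exact h4 i
  obtain ⟨τ, hτ⟩ := exists_algEquiv y (span_eq_of_linear y hc hdet)
  exact ⟨τ, hτ 0⟩

/-- The kernel of a homomorphism `X 0 ↦ 0`, `X i.succ ↦ X i`. -/
private theorem LiftBase_ker {d : ℕ} {K : Type} [Field K]
    (ψ : MvPowerSeries (Fin (d + 1)) K →ₐ[K] MvPowerSeries (Fin d) K) (h0 : ψ (X 0) = 0)
    (hs : ∀ i : Fin d, ψ (X i.succ) = X i) (x : MvPowerSeries (Fin (d + 1)) K) :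
    ψ x = 0 ↔ (X 0 : MvPowerSeries (Fin (d + 1)) K) ∣ x := by
  constructor
  · intro hx
    let a : Fin d → MvPowerSeries (Fin (d + 1)) K := fun i => X i.succ
    have ha : HasSubst (S := K) a := hasSubst_of_constantCoeff_zero fun i => constantCoeff_X _
    let ι : MvPowerSeries (Fin d) K →ₐ[K] MvPowerSeries (Fin (d + 1)) K :=
      substAlgHom (R := K) ha
    have hι : ∀ i, ι (X i) = X i.succ := fun i => substAlgHom_X ha i
    let J : Ideal (MvPowerSeries (Fin (d + 1)) K) := Ideal.span {X 0}
    have hJ : J ≠ ⊤ := by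
      intro h
      rw [Ideal.span_singleton_eq_top, isUnit_iff_constantCoeff, constantCoeff_X] at h
      exact not_isUnit_zero h
    have : Nontrivial (MvPowerSeries (Fin (d + 1)) K ⧸ J) := Ideal.Quotient.nontrivial_iff.2 hJ
    have : IsLocalRing (MvPowerSeries (Fin (d + 1)) K ⧸ J) :=
      IsLocalRing.of_surjective' (Ideal.Quotient.mk J) Ideal.Quotient.mk_surjective
    have hπ : ∀ y ∈ IsLocalRing.maximalIdeal (MvPowerSeries (Fin (d + 1)) K),
        Ideal.Quotient.mk J y ∈ IsLocalRing.maximalIdeal (MvPowerSeries (Fin (d + 1)) K ⧸ J) := by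
      intro y hy
      have hloc : IsLocalHom (Ideal.Quotient.mk J) :=
        IsLocalHom.of_surjective _ Ideal.Quotient.mk_surjective
      rw [IsLocalRing.mem_maximalIdeal, mem_nonunits_iff] at hy ⊢
      exact fun h => hy (hloc.map_nonunit y h)
    have key : ((Ideal.Quotient.mkₐ K J).comp (ι.comp ψ)) = Ideal.Quotient.mkₐ K J := by
      apply hom_ext
      · intro i
        change Ideal.Quotient.mk J (ι (ψ (X i))) ∈ _
        refine Fin.cases ?_ (fun i => ?_) i
        · rw [h0, map_zero, map_zero]
          exact Ideal.zero_mem _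
        · rw [hs, hι]
          apply hπ
          rw [mem_maximalIdeal_iff_constantCoeff, constantCoeff_X]
      · intro i
        change Ideal.Quotient.mk J (ι (ψ (X i))) = Ideal.Quotient.mk J (X i)
        refine Fin.cases ?_ (fun i => ?_) i
        · rw [h0, map_zero, map_zero]
          symm
          rw [Ideal.Quotient.eq_zero_iff_mem]
          exact Ideal.subset_span rfl
        · rw [hs, hι]
    have h3 := DFunLike.congr_fun key x
    change Ideal.Quotient.mk J (ι (ψ x)) = Ideal.Quotient.mk J x at h3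
    rw [hx, map_zero, map_zero] at h3
    rw [← Ideal.mem_span_singleton]
    exact Ideal.Quotient.eq_zero_iff_mem.1 h3.symm
  · rintro ⟨z, rfl⟩
    rw [map_mul, h0, zero_mul]

/-- The base case: `V = W` smooth, in `d + 1` variables. Proof: there is an automorphism with
`X 0 ↦ f` (`span_eq_of_linear`, `exists_algEquiv`), so in coordinates `(f, w_1, …, w_d)`; `G = f`;
for `γ` with `γ f ≠ 0` let `Γ` be given by `f ↦ io (γ f)`, `w_i ↦ C (X i) + io (γ w_i)`
(`exists_hom`), `q = 1`. Then `om ∘ Γ = γ` by `hom_ext`; the constant coefficient of `Γ` in `s` is the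
homomorphism `f ↦ 0`, `w_i ↦ X i`, with kernel `(f)`; and `γ f = s ^ M * unit`. -/
theorem lifts_base {d : ℕ} {K : Type} [Field K] {f : MvPowerSeries (Fin (d + 1)) K}
    (h1 : f ∈ IsLocalRing.maximalIdeal (MvPowerSeries (Fin (d + 1)) K))
    (h2 : f ∉ IsLocalRing.maximalIdeal (MvPowerSeries (Fin (d + 1)) K) ^ 2) :
    Lifts d f (Ideal.span {f}) f := by
  classical
  have hf0 : f ≠ 0 := by
    rintro rfl
    exact h2 (Ideal.zero_mem _)
  refine ⟨hf0, hf0, fun γ hγ => ?_⟩
  obtain ⟨τ, hτ⟩ := LiftBase_coord h1 h2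
  have hτX : ∀ i, τ (X i) ∈ IsLocalRing.maximalIdeal (MvPowerSeries (Fin (d + 1)) K) := by
    intro i
    have h3 := (algEquiv_mem_maximalIdeal_pow τ.toRingEquiv 1 (X i)).2 (by
      rw [pow_one, mem_maximalIdeal_iff_constantCoeff, constantCoeff_X])
    rw [pow_one] at h3
    exact h3
  let χ : PowerSeries K →ₐ[K] K :=
    { (PowerSeries.constantCoeff : PowerSeries K →+* K) with
      commutes' := fun a => by
        change PowerSeries.constantCoeff (algebraMap K (PowerSeries K) a) = a
        rw [PowerSeries.algebraMap_apply]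
        simp }
  have hγm : ∀ x ∈ IsLocalRing.maximalIdeal (MvPowerSeries (Fin (d + 1)) K),
      PowerSeries.constantCoeff (γ x) = 0 := by
    intro x hx
    have h3 := hom_mem χ γ hx
    rw [IsLocalRing.mem_maximalIdeal, mem_nonunits_iff, PowerSeries.isUnit_iff_constantCoeff,
      isUnit_iff_ne_zero, not_not] at h3
    exact h3
  let Y : Fin (d + 1) → WS d K := fun i =>
    Fin.cases (motive := fun _ => WS d K) (io d K (γ f))
      (fun i => PowerSeries.C (X i) + io d K (γ (τ (X i.succ)))) i
  have hY0 : Y 0 = io d K (γ f) := rfl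
  have hYs : ∀ i : Fin d, Y i.succ = PowerSeries.C (X i) + io d K (γ (τ (X i.succ))) :=
    fun i => rfl
  have hio : ∀ x : PowerSeries K, PowerSeries.constantCoeff (io d K x) =
      C (PowerSeries.constantCoeff x) := by
    intro x
    change PowerSeries.constantCoeff (PowerSeries.map _ x) = _
    rw [← PowerSeries.coeff_zero_eq_constantCoeff_apply, PowerSeries.coeff_map,
      PowerSeries.coeff_zero_eq_constantCoeff_apply]
  have hYc0 : PowerSeries.constantCoeff (Y 0) = 0 := by
    rw [hY0, hio, hγm f h1, map_zero]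
  have hYcs : ∀ i : Fin d, PowerSeries.constantCoeff (Y i.succ) = X i := by
    intro i
    rw [hYs, map_add, hio, hγm _ (hτX _), map_zero, add_zero, PowerSeries.constantCoeff_C]
  have hmem : ∀ z : WS d K, constantCoeff (PowerSeries.constantCoeff z) = 0 →
      z ∈ IsLocalRing.maximalIdeal (WS d K) := by
    intro z hz
    rw [IsLocalRing.mem_maximalIdeal, mem_nonunits_iff, PowerSeries.isUnit_iff_constantCoeff,
      isUnit_iff_constantCoeff, isUnit_iff_ne_zero, not_not]
    exact hz
  obtain ⟨Γ, hΓ⟩ := exists_hom Y (by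
    intro i
    apply hmem
    refine Fin.cases ?_ (fun i => ?_) i
    · rw [hYc0, map_zero]
    · rw [hYcs, constantCoeff_X])
  refine ⟨1, one_ne_zero, Γ.comp (τ.symm : MvPowerSeries (Fin (d + 1)) K →ₐ[K] _), ?_, ?_, ?_⟩
  · -- `om ∘ Γ = γ`
    let om' : WS d K →ₐ[K] PowerSeries K :=
      { om d K with
        commutes' := fun a => by
          change om d K (algebraMap K (WS d K) a) = algebraMap K (PowerSeries K) a
          rw [PowerSeries.algebraMap_apply, PowerSeries.algebraMap_apply]
          change PowerSeries.map _ _ = _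
          rw [PowerSeries.map_C]
          exact congrArg _ (constantCoeff_C a) }
    have key : om'.comp Γ = γ.comp (τ : MvPowerSeries (Fin (d + 1)) K →ₐ[K] _) := by
      have hX : ∀ i, om'.comp Γ (X i) = γ.comp (τ : MvPowerSeries (Fin (d + 1)) K →ₐ[K] _) (X i) := by
        intro i
        change om d K (Γ (X i)) = γ (τ (X i))
        rw [hΓ]
        refine Fin.cases ?_ (fun i => ?_) i
        · rw [hY0, om_io, hτ]
        · rw [hYs, map_add, om_io]
          have h3 : om d K (PowerSeries.C (X i)) = 0 := by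
            change PowerSeries.map _ _ = _
            rw [PowerSeries.map_C, constantCoeff_X, map_zero]
          rw [h3, zero_add]
      refine hom_ext _ _ (fun i => ?_) hX
      rw [hX]
      exact hom_mem χ γ (hτX i)
    intro x
    rw [PowerSeries.expand_one_apply]
    have h3 := DFunLike.congr_fun key (τ.symm x)
    change om d K (Γ (τ.symm x)) = γ (τ (τ.symm x)) at h3
    rw [τ.apply_symm_apply] at h3
    exact h3
  · let cc : WS d K →ₐ[K] MvPowerSeries (Fin d) K :=
      { (PowerSeries.constantCoeff : WS d K →+* MvPowerSeries (Fin d) K) with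
        commutes' := fun a => by
          change PowerSeries.constantCoeff (algebraMap K (WS d K) a) = _
          rw [PowerSeries.algebraMap_apply, PowerSeries.constantCoeff_C] }
    intro x
    have h3 := LiftBase_ker (cc.comp Γ) (by
      change PowerSeries.constantCoeff (Γ (X 0)) = 0
      rw [hΓ, hYc0]) (fun i => by
      change PowerSeries.constantCoeff (Γ (X i.succ)) = X i
      rw [hΓ, hYcs]) (τ.symm x)
    change PowerSeries.constantCoeff (Γ (τ.symm x)) = 0 ↔ _ at h3
    change PowerSeries.constantCoeff (Γ (τ.symm x)) = 0 ↔ _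
    rw [h3, Ideal.mem_span_singleton, ← hτ]
    constructor
    · rintro ⟨z, hz⟩
      refine ⟨τ z, ?_⟩
      rw [← map_mul, ← hz, τ.apply_symm_apply]
    · rintro ⟨z, hz⟩
      refine ⟨τ.symm z, ?_⟩
      rw [hz, map_mul, τ.symm_apply_apply]
  · obtain ⟨M, hM⟩ := IsDiscreteValuationRing.associated_pow_irreducible hγ
      (PowerSeries.X_irreducible (R := K))
    refine ⟨M, ?_⟩
    change Associated (Γ (τ.symm f)) _
    have h3 : τ.symm f = X 0 := by rw [← hτ, τ.symm_apply_apply]
    rw [h3, hΓ, hY0]
    have h4 := hM.map (io d K)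
    rw [map_pow] at h4
    have h5 : io d K PowerSeries.X = PowerSeries.X := PowerSeries.map_X _
    rwa [h5] at h4

end Pool.Agent.Helper38.GP
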