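import Pool.Agent.Helper38.GP.Interp
import Pool.Agent.Helper38.GP.Stmt

/-! The arc extension property. -/

namespace Pool.Agent.Helper38.GP

open MvPowerSeries Pool.Agent.Helper38.EQ

/-- The arc extension property for `V : f = 0`, `W` with ideal `I` and of dimension `d`: every arc
`γ` with `γ G ≠ 0` extends, after a ramification `s ↦ s ^ q`, to a family `Γ` of arcs, parametrised
by `w = (w_1, …, w_d)`, with origins on `W`, such that `f` is a unit times a power of `s` on the
family. -/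
def Lifts (d : ℕ) {n : ℕ} {K : Type} [Field K] (f : MvPowerSeries (Fin n) K)
    (I : Ideal (MvPowerSeries (Fin n) K)) (G : MvPowerSeries (Fin n) K) : Prop :=
  G ≠ 0 ∧ f ≠ 0 ∧ ∀ γ : MvPowerSeries (Fin n) K →ₐ[K] PowerSeries K, γ G ≠ 0 →
    ∃ (q : ℕ) (hq : q ≠ 0) (Γ : MvPowerSeries (Fin n) K →ₐ[K] WS d K),
      (∀ x, om d K (Γ x) = PowerSeries.expand q hq (γ x)) ∧
      (∀ x, PowerSeries.constantCoeff (Γ x) = 0 ↔ x ∈ I) ∧
      ∃ M, Associated (Γ f) (PowerSeries.X ^ M)

end Pool.Agent.Helper38.GP
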