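import Pool.Agent.Helper38.GP.Star
import Pool.Agent.Helper38.GP.Pos0
import Pool.Agent.Helper38.GP.NegA

/-! The projections with a direction that has nonzero components `0` and `1` are not
equisingular. -/

namespace Pool.Agent.Helper38.GP

open MvPowerSeries Pool.Agent.Helper38.EQ
open Pool.Agent.Helper38.ED (LI comps0 comps1)

private theorem Neg_ker {n : ℕ} {K : Type} [Field K] (A : Fin n → Fin (n + 1) → K)
    (hA : LinearIndependent K A) {u v : Fin (n + 1) → K} (hu : ∀ i, ∑ j, A i j * u j = 0)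
    (hv : ∀ i, ∑ j, A i j * v j = 0) (hu0 : u ≠ 0) (hv0 : v ≠ 0) : ∃ c : K, c ≠ 0 ∧ u = c • v := by
  have h1 : (Matrix.of A).rank = n := by
    have h2 := LinearIndependent.rank_matrix (M := Matrix.of A) hA
    rwa [Fintype.card_fin] at h2
  have h2 := LinearMap.finrank_range_add_finrank_ker (Matrix.of A).mulVecLin
  rw [← Matrix.rank, h1, Module.finrank_fintype_fun_eq_card, Fintype.card_fin] at h2
  have h3 : Module.finrank K (LinearMap.ker (Matrix.of A).mulVecLin) = 1 := by omega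
  have hvk : v ∈ LinearMap.ker (Matrix.of A).mulVecLin := by
    rw [LinearMap.mem_ker]
    funext i
    exact hv i
  have huk : u ∈ LinearMap.ker (Matrix.of A).mulVecLin := by
    rw [LinearMap.mem_ker]
    funext i
    exact hu i
  obtain ⟨c, hc⟩ := (finrank_eq_one_iff_of_nonzero' (⟨v, hvk⟩ : LinearMap.ker
    (Matrix.of A).mulVecLin) (by
      intro h
      apply hv0
      exact congrArg Subtype.val h)).mp h3 ⟨u, huk⟩
  have hc' : c • v = u := congrArg Subtype.val hc
  refine ⟨c, ?_, hc'.symm⟩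
  rintro rfl
  rw [zero_smul] at hc'
  exact hu0 hc'.symm

private theorem Neg_tr_mul {n : ℕ} {K : Type} [Field K] (p : Proj n K)
    (h k : MvPowerSeries (Fin (n + 1)) K) :
    p.tr (h * k) = constantCoeff (PowerSeries.coeff 0 (p.σ h)) * p.tr k +
      p.tr h * constantCoeff (PowerSeries.coeff 0 (p.σ k)) := by
  unfold Proj.tr
  rw [map_mul, PowerSeries.coeff_mul,
    show Finset.HasAntidiagonal.antidiagonal 1 = {((0 : ℕ), (1 : ℕ)), (1, 0)} from rfl,
    Finset.sum_pair (by decide), map_add, map_mul, map_mul]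

private theorem Neg_cc {n : ℕ} {K : Type} [Field K] (p : Proj n K)
    (x : MvPowerSeries (Fin (n + 1)) K)
    (hx : x ∈ IsLocalRing.maximalIdeal (MvPowerSeries (Fin (n + 1)) K)) :
    constantCoeff (PowerSeries.coeff 0 (p.σ x)) = 0 := by
  by_contra hcon
  have h1 : IsUnit (p.σ x) := by
    rw [PowerSeries.isUnit_iff_constantCoeff, MvPowerSeries.isUnit_iff_constantCoeff]
    rw [PowerSeries.coeff_zero_eq_constantCoeff_apply] at hcon
    exact isUnit_iff_ne_zero.mpr hcon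
  have h2 := h1.map p.σ.symm
  rw [AlgEquiv.symm_apply_apply] at h2
  exact (IsLocalRing.mem_maximalIdeal _).mp hx h2

private theorem Neg_X_mem {n : ℕ} {K : Type} [Field K] (i : Fin n) :
    (X i : MvPowerSeries (Fin n) K) ∈ IsLocalRing.maximalIdeal (MvPowerSeries (Fin n) K) := by
  rw [mem_maximalIdeal_iff_constantCoeff, constantCoeff_X]

private theorem Neg_mem {K : Type} [Field K] (i : Fin 6) (hi : i ≠ 4) :
    (X i : MvPowerSeries (Fin 6) K) ∈ exI K := by
  rw [exI]
  apply Ideal.subset_span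
  fin_cases i
  · exact Or.inl rfl
  · exact Or.inr (Or.inl rfl)
  · exact Or.inr (Or.inr (Or.inl rfl))
  · exact Or.inr (Or.inr (Or.inr (Or.inl rfl)))
  · exact absurd rfl hi
  · exact Or.inr (Or.inr (Or.inr (Or.inr rfl)))

private theorem Neg_notMem {K : Type} [Field K] :
    (X 4 : MvPowerSeries (Fin 6) K) ∉ exI K := by
  obtain ⟨γ, hγ, -⟩ := exists_monomial_arc (K := K) (n := 6)
    (fun i => if i = 4 then 1 else 0) (fun _ => 1) (fun _ => le_refl 1)
  have h1 : exI K ≤ RingHom.ker γ := by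
    rw [exI, Ideal.span_le]
    intro x hx
    rw [SetLike.mem_coe, RingHom.mem_ker]
    simp only [Set.mem_insert_iff, Set.mem_singleton_iff] at hx
    rcases hx with rfl | rfl | rfl | rfl | rfl <;>
      · rw [hγ, if_neg (by decide), map_zero, zero_mul]
  intro h2
  have h3 := h1 h2
  rw [RingHom.mem_ker, hγ, if_pos rfl, map_one, one_mul, pow_one] at h3
  exact PowerSeries.X_ne_zero h3

private theorem Neg_dir {n : ℕ} {K : Type} [Field K] (p : Proj n K)
    {z : Fin n → MvPowerSeries (Fin (n + 1)) K} (hz : LinIndep z)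
    (hσz : ∀ i, p.σ (z i) = PowerSeries.C (X i)) {v : Fin (n + 1) → K}
    (hv : ∀ i, lin (z i) v = 0) {j : Fin (n + 1)} (hj : v j ≠ 0) :
    ∀ k, v k ≠ 0 → p.tr (X k) ≠ 0 := by
  have htrz : ∀ i, lin (z i) (fun j => p.tr (X j)) = 0 := by
    intro i
    rw [← p.tr_eq_lin, Proj.tr, hσz, PowerSeries.coeff_C, if_neg one_ne_zero, map_zero]
  have hu0 : (fun j => p.tr (X j)) ≠ 0 := by
    intro h0
    have h1 : p.tr (p.σ.symm PowerSeries.X) = 1 := by
      rw [Proj.tr, AlgEquiv.apply_symm_apply, PowerSeries.coeff_X, if_pos rfl, map_one]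
    rw [p.tr_eq_lin, h0, lin] at h1
    simp at h1
  have hvne : v ≠ 0 := by
    rintro rfl
    exact hj rfl
  obtain ⟨c, hc, huc⟩ := Neg_ker _ hz.2 htrz hv hu0 hvne
  intro k hk
  have h1 : p.tr (X k) = c * v k := congrFun huc k
  rw [h1]
  exact mul_ne_zero hc hk

private theorem Neg_trsub {K : Type} [Field K] (p : Proj 5 K) (m : MvPowerSeries (Fin 6) K) :
    p.tr (X 0 - X 2 ^ 2 * m) = p.tr (X 0) := by
  have h1 : p.tr (X 2 ^ 2 * m) = 0 := by
    rw [pow_two, mul_assoc, Neg_tr_mul, Neg_cc p _ (Neg_X_mem 2),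
      Neg_cc p _ (Ideal.mul_mem_right _ _ (Neg_X_mem 2)), zero_mul, mul_zero, add_zero]
  have h2 := p.tr_add (X 0 - X 2 ^ 2 * m) (X 2 ^ 2 * m)
  rw [sub_add_cancel, h1, add_zero] at h2
  exact h2.symm

private theorem Neg_tr {K : Type} [Field K] (p : Proj 5 K) (h0 : p.tr (X 0) ≠ 0) (i : Fin 6) :
    p.tr (comps0 (X 0) (X 1) (X 2) (X 3) (X 5) (X 4) i) ≠ 0 := by
  have key : ∃ m, comps0 (X 0) (X 1) (X 2) (X 3) (X 5) (X 4) i =
      (X 0 - X 2 ^ 2 * m : MvPowerSeries (Fin 6) K) := by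
    fin_cases i
    · exact ⟨0, (by rw [mul_zero, sub_zero]; rfl)⟩
    · exact ⟨_, rfl⟩
    · exact ⟨1, (by rw [mul_one]; rfl)⟩
    · exact ⟨_, rfl⟩
    · exact ⟨_, rfl⟩
    · exact ⟨_, rfl⟩
  obtain ⟨m, hm⟩ := key
  rw [hm, Neg_trsub]
  exact h0

private theorem Neg_unit {n : ℕ} {K : Type} [Field K] {p : Proj n K}
    {e x : MvPowerSeries (Fin (n + 1)) K} (s : Sec p e) {q : PowerSeries (R1 n K)} {w : R1 n K}
    (hx : p.σ (ex x) = PowerSeries.C (s.pull x) + (PowerSeries.X - PowerSeries.C s.r) * q)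
    (hw : w * s.ε s.U = s.ε q) (ht : p.tr x ≠ 0) : IsUnit w := by
  have hr0 : constantCoeff s.r = 0 := (mem_maximalIdeal_iff_constantCoeff _).mp s.r_mem
  have hq1 : PowerSeries.coeff 1 (PowerSeries.X * q) = PowerSeries.constantCoeff q := by
    have := PowerSeries.coeff_succ_X_mul 0 q
    rwa [PowerSeries.coeff_zero_eq_constantCoeff_apply] at this
  have h2 : PowerSeries.coeff 1 (p.σ x) =
      PowerSeries.constantCoeff q - s.r * PowerSeries.coeff 1 q := by
    rw [← ex_eq x, hx, map_add, PowerSeries.coeff_C, if_neg one_ne_zero, zero_add,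
      sub_mul, map_sub, PowerSeries.coeff_C_mul, hq1]
  have h1 : p.tr x = constantCoeff (PowerSeries.constantCoeff q) := by
    rw [Proj.tr, h2, map_sub, map_mul, hr0, zero_mul, sub_zero]
  obtain ⟨q', hq'⟩ := s.ε_dvd q
  have h3 : constantCoeff (PowerSeries.constantCoeff q) = constantCoeff (s.ε q) := by
    conv_lhs => rw [hq']
    rw [map_add, map_mul, map_sub, PowerSeries.constantCoeff_C, PowerSeries.constantCoeff_C,
      PowerSeries.constantCoeff_X, map_add, map_mul, map_sub, hr0, map_zero, sub_zero, zero_mul,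
      add_zero]
  have h4 : constantCoeff w * constantCoeff (s.ε s.U) ≠ 0 := by
    rw [← map_mul, hw, ← h3, ← h1]
    exact ht
  rw [MvPowerSeries.isUnit_iff_constantCoeff]
  exact isUnit_iff_ne_zero.mpr (left_ne_zero_of_mul h4)

/-- The end of the proof, in abstract form. -/
private theorem Neg_end {K : Type} [Field K] {p : Proj 5 K} (s : Sec p (X 0)) {d w : R1 5 K}
    (hdI : d ∈ p.img (exI K)) (hwu : IsUnit w)
    (hd : d - (s.pull (X 5) + w * s.pull (X 4)) ∈ Ideal.span {s.pull (X 2), s.pull (X 3)}) :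
    False := by
  have hpull : ∀ h ∈ exI K, s.pull h ∈ p.img (exI K) := fun h hh =>
    s.pull_mem_img (Neg_mem 0 (by decide)) hh
  have hspan : Ideal.span {s.pull (X 2), s.pull (X 3)} ≤ p.img (exI K) := by
    rw [Ideal.span_le]
    intro x hx
    simp only [Set.mem_insert_iff, Set.mem_singleton_iff] at hx
    rcases hx with rfl | rfl
    · exact hpull _ (Neg_mem 2 (by decide))
    · exact hpull _ (Neg_mem 3 (by decide))
  have h5 : s.pull (X 5) ∈ p.img (exI K) := hpull _ (Neg_mem 5 (by decide))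
  have hw4 : w * s.pull (X 4) ∈ p.img (exI K) := by
    have h1 : w * s.pull (X 4) = d - s.pull (X 5) -
        (d - (s.pull (X 5) + w * s.pull (X 4))) := by ring
    rw [h1]
    exact Ideal.sub_mem _ (Ideal.sub_mem _ hdI h5) (hspan hd)
  exact Neg_notMem (s.mem_of_pull_mem (Neg_mem 0 (by decide))
    ((Ideal.unit_mul_mem_iff_mem _ hwu).mp hw4))

/-- The main computation. -/
private theorem Neg_main {K : Type} [Field K] [IsAlgClosed K] [CharZero K] {𝒞 : ProjClass K}
    (p : Proj 5 K) (h0 : p.tr (X 0) ≠ 0) (h1 : p.tr (X 1) ≠ 0)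
    {F : Polynomial (R1 5 K)} {U : PowerSeries (R1 5 K)}
    (hU : (p.σ (ex (exF K))).IsWeierstrassFactorization F U) {g : R1 5 K}
    (hg : Ideal.span {g} = (Ideal.span {F.discr}).radical)
    (hE : Equi 𝒞 3 5 g (p.img (exI K))) : False := by
  have hgood := good_ex (K := K)
  have s : ∀ i, Sec p (comps0 (X 0) (X 1) (X 2) (X 3) (X 5) (X 4) i) := fun i =>
    (exists_sec p _ (hgood.comps_mem i).1 (Neg_tr p h0 i)).some
  obtain ⟨c', d, w, q, hLI, hdisc, -, -, hx1, hw, hd⟩ := calc0 hgood p s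
  have hassoc : Associated (exF K) (∏ i, comps0 (X 0) (X 1) (X 2) (X 3) (X 5) (X 4) i) :=
    Associated.of_eq exF_eq
  exact Neg_end (s 0) (star (d := 1) rfl hLI (hdisc.unique hassoc hU hg) hE)
    (Neg_unit (s 0) hx1 hw h1) hd

/-- Proof: let `p = ⟨σ.equiv⟩` be the projection, `v` the direction; `(tr X_j)_j` is a nonzero
multiple of `v` (both are in the one-dimensional kernel of the linear parts of the `z_i`), so
`tr (X 0) ≠ 0` and `tr (X 1) ≠ 0`. The six factors of `exF` (`exF_eq`) have trace `tr (X 0)` so they have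
sections `s i` (`exists_sec`). By `calc0` (with `good_ex`) and `IsDisc.unique`,
`g ~ ∏ comps1 a b c d`. By `star` (`n = 5`, `r = 3`, `d = 1`), `d ∈ I'`. Now `a, b ∈ I'`,
`ι_0 (X 3), ι_0 (X 5) ∈ I'` (`Sec.pull_mem_img`), so `w * ι_0 (X 4) ∈ I'`; here `w` is a unit:
`w * ε U = ε q`, and the constant term of `ε q` is `tr (X 1)`. So `ι_0 (X 4) ∈ I'`,
`X 4 ∈ I` (`Sec.mem_of_pull_mem`), a contradiction. -/
theorem neg_ex {K : Type} [Field K] [IsAlgClosed K] [CharZero K] {𝒞 : ProjClass K}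
    (z : Fin 5 → MvPowerSeries (Fin 6) K) {v : Fin 6 → K} (hv : ∀ i, lin (z i) v = 0)
    (hv0 : v 0 ≠ 0) (hv1 : v 1 ≠ 0) : ¬ EquiProj 𝒞 3 (exF K) (exI K) z := by
  rintro ⟨hpar, -, g, I', ⟨σ, F, hσz, ⟨U, hU⟩, hgr, rfl⟩, hE⟩
  have hd := Neg_dir (⟨σ.equiv⟩ : Proj 5 K) hpar.1 hσz hv hv0
  refine Neg_main (⟨σ.equiv⟩ : Proj 5 K) (hd 0 hv0) (hd 1 hv1) (F := F) (U := U) ?_ hgr hE
  rw [ex_eq]
  exact hU

end Pool.Agent.Helper38.GP
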