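import Pool.Agent.Helper38.GP.CurveId
import Pool.Agent.Helper38.GP.Calc1
import Pool.Agent.Helper38.GP.Calc2
import Pool.Agent.Helper38.GP.Calc3

/-! Equisingularity of the germs of the types `comps3`, `comps2`, `comps1` along a curve. -/

namespace Pool.Agent.Helper38.GP

open MvPowerSeries Pool.Agent.Helper38.EQ
open Pool.Agent.Helper38.ED (LI comps1 comps2 comps3)

variable {K : Type} [Field K] [CharZero K] {𝒞 : ProjClass K}

theorem equi_pos4 {g δ : MvPowerSeries (Fin 2) K} (hg : Associated g δ)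
    (h1 : δ ∈ IsLocalRing.maximalIdeal (MvPowerSeries (Fin 2) K))
    (h2 : δ ∉ IsLocalRing.maximalIdeal (MvPowerSeries (Fin 2) K) ^ 2)
    {I : Ideal (MvPowerSeries (Fin 2) K)} (hI : CurveIdeal I) (hδ : δ ∈ I) :
    Equi 𝒞 0 2 g I := by
  have h3 : I = Ideal.span {δ} := hI.eq_span h1 h2 hδ
  refine ⟨Ideal.mem_of_dvd _ hg.symm.dvd h1, fun h4 => h2 (Ideal.mem_of_dvd _ hg.dvd h4), ?_⟩
  rw [h3]
  exact (Ideal.span_singleton_eq_span_singleton.2 hg).symm

private theorem Pos4_smooth {n : ℕ} {K : Type} [Field K]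
    {b d : MvPowerSeries (Fin n) K} (h : LI ![b, d])
    (i : Fin 2) : comps3 b d i ∈ IsLocalRing.maximalIdeal (MvPowerSeries (Fin n) K) ∧
      comps3 b d i ∉ IsLocalRing.maximalIdeal (MvPowerSeries (Fin n) K) ^ 2 :=
  ⟨h.mem i, h.notMem_sq i⟩

/-- `exists_lin` (for the components), `exists_sec`, `calc3`, `equi_of_disc`, `CurveIdeal.img`,
`Sec.pull_mem_img`, `equi_pos4`. The smoothness of the components: as in `ED/Level3.lean`. -/
theorem equi_pos3 (h𝒞 : HasLin 𝒞) {f b d : MvPowerSeries (Fin 3) K} (h : LI ![b, d])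
    (hf : Associated f (∏ i, comps3 b d i)) {I : Ideal (MvPowerSeries (Fin 3) K)}
    (hI : CurveIdeal I) (hb : b ∈ I) (hd : d ∈ I) : Equi 𝒞 1 3 f I := by
  obtain ⟨p, ht, hl⟩ := exists_lin (comps3 b d) (Pos4_smooth h)
  have hs : ∀ i, Nonempty (Sec p (comps3 b d i)) := fun i =>
    exists_sec p _ (Pos4_smooth h i).1 (ht i)
  let s : ∀ i, Sec p (comps3 b d i) := fun i => (hs i).some
  obtain ⟨hdisc, hm1, hm2⟩ := calc3 p h s
  have hb' : comps3 b d 0 ∈ I := hb
  exact equi_of_disc h𝒞 p hl (fun i => (Pos4_smooth h i).1) ht hf hb' hdisc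
    (equi_pos4 (Associated.refl _) hm1 hm2 (hI.img (Pos4_smooth h 0).1 hb' (ht 0))
      ((s 0).pull_mem_img hb' hd))

end Pool.Agent.Helper38.GP
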