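import Pool.Agent.Helper38.GP.CurveId
import Pool.Agent.Helper38.GP.Calc1
import Pool.Agent.Helper38.GP.Calc2
import Pool.Agent.Helper38.GP.Calc3
import Pool.Agent.Helper38.GP.Pos4

/-! Equisingularity of the germs of the types `comps3`, `comps2`, `comps1` along a curve. -/

namespace Pool.Agent.Helper38.GP

open MvPowerSeries Pool.Agent.Helper38.EQ
open Pool.Agent.Helper38.ED (LI comps1 comps2 comps3)

private theorem PosLevels_smooth2 {n : ℕ} {K : Type} [Field K] [CharZero K]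
    {b c d : MvPowerSeries (Fin n) K} (θ : MvPowerSeries (Fin n) K) (h : LI ![b, c, d])
    (i : Fin 4) : comps2 b c d θ i ∈ IsLocalRing.maximalIdeal (MvPowerSeries (Fin n) K) ∧
      comps2 b c d θ i ∉ IsLocalRing.maximalIdeal (MvPowerSeries (Fin n) K) ^ 2 := by
  have hb : b ∈ IsLocalRing.maximalIdeal (MvPowerSeries (Fin n) K) := h.mem 0
  have hc : c ∈ IsLocalRing.maximalIdeal (MvPowerSeries (Fin n) K) := h.mem 1
  have hd : d ∈ IsLocalRing.maximalIdeal (MvPowerSeries (Fin n) K) := h.mem 2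
  have hb2 : b ∉ IsLocalRing.maximalIdeal (MvPowerSeries (Fin n) K) ^ 2 := h.notMem_sq 0
  have hc2 : c ∉ IsLocalRing.maximalIdeal (MvPowerSeries (Fin n) K) ^ 2 := h.notMem_sq 1
  have h2 : IsUnit (2 : MvPowerSeries (Fin n) K) := by
    have := Pool.Agent.Helper38.ED.isUnit_natCast_add (n := n) (K := K) (m := 2) (by norm_num)
      (Ideal.zero_mem (IsLocalRing.maximalIdeal (MvPowerSeries (Fin n) K)))
    rw [add_zero] at this
    exact_mod_cast this
  have hbd : b * d ∈ IsLocalRing.maximalIdeal (MvPowerSeries (Fin n) K) ^ 2 := by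
    rw [pow_two]
    exact Ideal.mul_mem_mul hb hd
  fin_cases i
  · exact ⟨hb, hb2⟩
  · exact ⟨hc, hc2⟩
  · show 2 * c + b * d ∈ _ ∧ 2 * c + b * d ∉ _
    refine ⟨Ideal.add_mem _ (Ideal.mul_mem_left _ _ hc) (Ideal.mul_mem_left _ _ hd), fun h3 => ?_⟩
    rw [Ideal.add_mem_iff_left _ hbd, Ideal.unit_mul_mem_iff_mem _ h2] at h3
    exact hc2 h3
  · show (1 + b * θ) * c + b * d ∈ _ ∧ (1 + b * θ) * c + b * d ∉ _
    refine ⟨Ideal.add_mem _ (Ideal.mul_mem_left _ _ hc) (Ideal.mul_mem_left _ _ hd), fun h3 => ?_⟩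
    have h4 : IsUnit (1 + b * θ) :=
      Pool.Agent.Helper38.ED.isUnit_one_add (Ideal.mul_mem_right _ _ hb)
    rw [Ideal.add_mem_iff_left _ hbd, Ideal.unit_mul_mem_iff_mem _ h4] at h3
    exact hc2 h3

private theorem PosLevels_smooth1 {n : ℕ} {K : Type} [Field K]
    {a b c d : MvPowerSeries (Fin n) K} (h : LI ![a, b, c, d])
    (i : Fin 4) : comps1 a b c d i ∈ IsLocalRing.maximalIdeal (MvPowerSeries (Fin n) K) ∧
      comps1 a b c d i ∉ IsLocalRing.maximalIdeal (MvPowerSeries (Fin n) K) ^ 2 := by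
  have ha : a ∈ IsLocalRing.maximalIdeal (MvPowerSeries (Fin n) K) := h.mem 0
  have hb : b ∈ IsLocalRing.maximalIdeal (MvPowerSeries (Fin n) K) := h.mem 1
  have hc : c ∈ IsLocalRing.maximalIdeal (MvPowerSeries (Fin n) K) := h.mem 2
  have ha2 : a ∉ IsLocalRing.maximalIdeal (MvPowerSeries (Fin n) K) ^ 2 := h.notMem_sq 0
  have hb2 : b ∉ IsLocalRing.maximalIdeal (MvPowerSeries (Fin n) K) ^ 2 := h.notMem_sq 1
  have key : ∀ t : MvPowerSeries (Fin n) K,
      t ∈ IsLocalRing.maximalIdeal (MvPowerSeries (Fin n) K) ^ 2 →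
      a + t ∈ IsLocalRing.maximalIdeal (MvPowerSeries (Fin n) K) ∧
        a + t ∉ IsLocalRing.maximalIdeal (MvPowerSeries (Fin n) K) ^ 2 := by
    intro t ht
    refine ⟨Ideal.add_mem _ ha (Ideal.pow_le_self two_ne_zero ht), fun hh => ha2 ?_⟩
    exact (Ideal.add_mem_iff_left _ ht).mp hh
  have hbc : b * c ∈ IsLocalRing.maximalIdeal (MvPowerSeries (Fin n) K) ^ 2 := by
    rw [pow_two]
    exact Ideal.mul_mem_mul hb hc
  have hbb : b ^ 2 ∈ IsLocalRing.maximalIdeal (MvPowerSeries (Fin n) K) ^ 2 :=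
    Ideal.pow_mem_pow hb 2
  fin_cases i
  · exact ⟨ha, ha2⟩
  · exact ⟨hb, hb2⟩
  · exact key _ hbc
  · have h1 := key (2 * (b * c) + b ^ 2 * d)
      (Ideal.add_mem _ (Ideal.mul_mem_left _ _ hbc) (Ideal.mul_mem_right _ _ hbb))
    have h2 : a + (2 * (b * c) + b ^ 2 * d) = a + 2 * b * c + b ^ 2 * d := by ring
    rw [h2] at h1
    exact h1

variable {K : Type} [Field K] [CharZero K] {𝒞 : ProjClass K}

/-- The same with `calc2` (`comps2_smooth` in `ED/Level2.lean`). -/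
theorem equi_pos2 (h𝒞 : HasLin 𝒞) {f b c d : MvPowerSeries (Fin 4) K}
    (θ : MvPowerSeries (Fin 4) K) (h : LI ![b, c, d])
    (hf : Associated f (∏ i, comps2 b c d θ i)) {I : Ideal (MvPowerSeries (Fin 4) K)}
    (hI : CurveIdeal I) (hb : b ∈ I) (hc : c ∈ I) (hd : d ∈ I) : Equi 𝒞 2 4 f I := by
  have hsm := PosLevels_smooth2 θ h
  obtain ⟨p, ht, hp⟩ := exists_lin (comps2 b c d θ) hsm
  have hs : ∀ i, Nonempty (Sec p (comps2 b c d θ i)) := fun i =>
    exists_sec p _ (hsm i).1 (ht i)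
  let s : ∀ i, Sec p (comps2 b c d θ i) := fun i => (hs i).some
  obtain ⟨hLI, hdisc, -⟩ := calc2 p θ h s
  have hb0 : comps2 b c d θ 0 ∈ I := hb
  have hc1 : comps2 b c d θ 1 ∈ I := hc
  have hI' : CurveIdeal (p.img I) := hI.img (hsm 0).1 hb0 (ht 0)
  refine equi_of_disc h𝒞 p hp (fun i => (hsm i).1) ht hf hb0 hdisc ?_
  refine equi_pos3 h𝒞 hLI ?_ hI' ((s 1).pull_mem_img hc1 hb) ((s 1).pull_mem_img hc1 hd)
  rw [Fin.prod_univ_two]
  exact Associated.refl _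

/-- The same with `calc1` (`comps1_smooth` in `ED/Level1.lean`). -/
theorem equi_pos1 (h𝒞 : HasLin 𝒞) {f a b c d : MvPowerSeries (Fin 5) K}
    (h : LI ![a, b, c, d])
    (hf : Associated f (∏ i, comps1 a b c d i)) {I : Ideal (MvPowerSeries (Fin 5) K)}
    (hI : CurveIdeal I) (ha : a ∈ I) (hb : b ∈ I) (hc : c ∈ I) (hd : d ∈ I) :
    Equi 𝒞 3 5 f I := by
  have hsm := PosLevels_smooth1 h
  obtain ⟨p, ht, hp⟩ := exists_lin (comps1 a b c d) hsm
  have hs : ∀ i, Nonempty (Sec p (comps1 a b c d i)) := fun i =>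
    exists_sec p _ (hsm i).1 (ht i)
  let s : ∀ i, Sec p (comps1 a b c d i) := fun i => (hs i).some
  obtain ⟨hLI, ⟨θ, hdisc⟩, -⟩ := calc1 p h s
  have ha0 : comps1 a b c d 0 ∈ I := ha
  have hI' : CurveIdeal (p.img I) := hI.img (hsm 0).1 ha0 (ht 0)
  refine equi_of_disc h𝒞 p hp (fun i => (hsm i).1) ht hf ha0 hdisc ?_
  exact equi_pos2 h𝒞 θ hLI (Associated.refl _) hI' ((s 0).pull_mem_img ha0 hb)
    ((s 0).pull_mem_img ha0 hc) ((s 0).pull_mem_img ha0 hd)

end Pool.Agent.Helper38.GP
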