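import Pool.Agent.Helper38.GP.Defs
import Pool.Agent.Helper38.EQ.AdicComplete
import Pool.Agent.Helper38.EQ.Psi

/-! A smooth germ transversal to the projection is a graph. -/

namespace Pool.Agent.Helper38.GP

open MvPowerSeries Pool.Agent.Helper38.EQ

theorem exists_root {n : ℕ} {K : Type} [Field K] (p : Proj n K)
    (e : MvPowerSeries (Fin (n + 1)) K)
    (h1 : e ∈ IsLocalRing.maximalIdeal (MvPowerSeries (Fin (n + 1)) K))
    (h2 : p.tr e ≠ 0) :
    ∃ (r : R1 n K) (U : PowerSeries (R1 n K)),
      r ∈ IsLocalRing.maximalIdeal (R1 n K) ∧ IsUnit U ∧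
      p.σ (ex e) = U * (PowerSeries.X - PowerSeries.C r) := by
  have hcomp := isAdicComplete_mvPowerSeries n K
  rw [ex_eq]
  have hc1 : PowerSeries.coeff 1 ((p.σ e).map (IsLocalRing.residue (R1 n K))) ≠ 0 := by
    rw [PowerSeries.coeff_map]
    intro h0
    rw [IsLocalRing.residue_eq_zero_iff, mem_maximalIdeal_iff_constantCoeff] at h0
    exact h2 h0
  have hc0 : PowerSeries.coeff 0 ((p.σ e).map (IsLocalRing.residue (R1 n K))) = 0 := by
    rw [PowerSeries.coeff_map, IsLocalRing.residue_eq_zero_iff,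
      PowerSeries.coeff_zero_eq_constantCoeff_apply, IsLocalRing.mem_maximalIdeal,
      mem_nonunits_iff, ← PowerSeries.isUnit_iff_constantCoeff]
    intro h
    have h3 := h.map p.σ.symm
    rw [AlgEquiv.symm_apply_apply] at h3
    exact h1 h3
  have hne : (p.σ e).map (IsLocalRing.residue (R1 n K)) ≠ 0 := by
    intro h0
    rw [h0] at hc1
    exact hc1 (map_zero _)
  obtain ⟨F, U, hF⟩ := PowerSeries.exists_isWeierstrassFactorization hne
  have hord : ((p.σ e).map (IsLocalRing.residue (R1 n K))).order = 1 := by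
    rw [PowerSeries.order_eq]
    constructor
    · intro i hi
      have : i = 1 := by exact_mod_cast hi
      subst this
      exact hc1
    · intro i hi
      have : i < 1 := by exact_mod_cast hi
      obtain rfl : i = 0 := by omega
      exact hc0
  have hdeg : F.natDegree = 1 := by
    rw [hF.natDegree_eq_toNat_order_map, hord]
    rfl
  have hmon : F.coeff 1 = 1 := by
    have := hF.isDistinguishedAt.monic.coeff_natDegree
    rwa [hdeg] at this
  have h0 : F.coeff 0 ∈ IsLocalRing.maximalIdeal (R1 n K) :=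
    hF.isDistinguishedAt.mem (by rw [hdeg]; exact Nat.zero_lt_one)
  refine ⟨-F.coeff 0, U, Ideal.neg_mem_iff _ |>.mpr h0, hF.isUnit, ?_⟩
  rw [hF.eq_mul]
  have h5 : F = Polynomial.X + Polynomial.C (F.coeff 0) := by
    have h6 := Polynomial.eq_X_add_C_of_natDegree_le_one hdeg.le
    rw [hmon] at h6
    simpa using h6
  have h6 : (F : PowerSeries (R1 n K)) = PowerSeries.X + PowerSeries.C (F.coeff 0) := by
    conv_lhs => rw [h5]
    rw [Polynomial.coe_add, Polynomial.coe_X, Polynomial.coe_C]
  rw [h6, map_neg, sub_neg_eq_add, mul_comm]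

end Pool.Agent.Helper38.GP
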