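import Pool.Agent.Helper38.GP.Root
import Pool.Agent.Helper38.ED.Eval

/-! Basic properties of the sections of a generic projection. -/

namespace Pool.Agent.Helper38.GP

open MvPowerSeries Pool.Agent.Helper38.EQ
open Pool.Agent.Helper38.ED (LI LI_iff prime_of_notMem_sq exists_eval discr_prod Rad comps0 comps1 comps2 comps3 isUnit_natCast_add isUnit_one_add rad_comps1 rad_comps2)

variable {n : ℕ} {K : Type} [Field K] {p : Proj n K}
  {e e' : MvPowerSeries (Fin (n + 1)) K}

/-- From `exists_root` and `exists_eval`. -/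
theorem exists_sec (p : Proj n K) (e : MvPowerSeries (Fin (n + 1)) K)
    (h1 : e ∈ IsLocalRing.maximalIdeal (MvPowerSeries (Fin (n + 1)) K))
    (h2 : p.tr e ≠ 0) :
    Nonempty (Sec p e) := by
  obtain ⟨r, U, hr, hU, heq⟩ := exists_root p e h1 h2
  obtain ⟨ε, hC, hX, hd⟩ := exists_eval r hr
  exact ⟨⟨r, hr, U, hU, heq, ε, hC, hX, hd⟩⟩

namespace Sec

theorem pull_apply (s : Sec p e) (h : MvPowerSeries (Fin (n + 1)) K) :
    s.pull h = s.ε (p.σ (ex h)) := rfl

theorem ev_ex (s : Sec p e) (h : MvPowerSeries (Fin (n + 1)) K) : s.ev (ex h) = s.pull h := rfl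

theorem ev_apply (s : Sec p e) (h : SL n K) : s.ev h = s.ε (p.σ h) := rfl

theorem ev_C (s : Sec p e) (a : K) : s.ev (C a) = C a := by
  have h1 : p.σ (C a) = PowerSeries.C (C a) := by
    have h2 := p.σ.commutes a
    have h3 : algebraMap K (SL n K) a = C a := rfl
    have h4 : algebraMap K (PowerSeries (R1 n K)) a = PowerSeries.C (C a) := by
      rw [IsScalarTower.algebraMap_apply K (R1 n K) (PowerSeries (R1 n K))]
      rfl
    rw [← h3, h2, h4]
  rw [ev_apply, h1, s.ε_C]

theorem ε_unit (s : Sec p e) {V : PowerSeries (R1 n K)} (hV : IsUnit V) : IsUnit (s.ε V) :=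
  hV.map s.ε

/-- `e` vanishes on the section. -/
theorem pull_self (s : Sec p e) : s.pull e = 0 := by
  rw [pull_apply, s.eq, map_mul, map_sub, s.ε_X, s.ε_C, sub_self, mul_zero]

/-- `e'` restricted to `e = 0` is a unit times `r - r'`: apply `ε` to
`σ (ex e') = U' * (X - C r')`. -/
theorem pull_eq (s : Sec p e) (s' : Sec p e') : s.pull e' = s.ε s'.U * (s.r - s'.r) := by
  rw [pull_apply, s'.eq, map_mul, map_sub, s.ε_X, s.ε_C]

theorem assoc (s : Sec p e) (s' : Sec p e') : Associated (s.pull e') (s.r - s'.r) := by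
  rw [pull_eq s s']
  exact associated_unit_mul_left _ _ (s.ε_unit s'.isUnit)

/-- `σ h = C (ev h) + (X - C r) q`; the quotient evaluated at another section. -/
theorem ev_eq (s : Sec p e) (s' : Sec p e') {h : SL n K} {q : PowerSeries (R1 n K)}
    (hq : p.σ h = PowerSeries.C (s.ev h) + (PowerSeries.X - PowerSeries.C s.r) * q) :
    s'.ev h = s.ev h + (s'.r - s.r) * s'.ε q := by
  rw [ev_apply s', hq, map_add, map_mul, map_sub, s'.ε_C, s'.ε_C, s'.ε_X]

/-- The values on two sections differ by a multiple of the difference of the roots. -/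
theorem sub_dvd (s : Sec p e) (s' : Sec p e') (h : SL n K) :
    s'.r - s.r ∣ s'.ev h - s.ev h := by
  obtain ⟨q, hq⟩ := s.ε_dvd (p.σ h)
  rw [ev_eq s s' (h := h) (q := q) hq, add_sub_cancel_left]
  exact dvd_mul_right _ _

theorem pull_sub_dvd (s : Sec p e) (s' : Sec p e') (h : MvPowerSeries (Fin (n + 1)) K) :
    s'.r - s.r ∣ s'.pull h - s.pull h := sub_dvd s s' (ex h)

/-- The same for the evaluations themselves. -/
theorem ε_sub_dvd (s : Sec p e) (s' : Sec p e') (φ : PowerSeries (R1 n K)) :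
    s'.r - s.r ∣ s'.ε φ - s.ε φ := by
  have h := sub_dvd s s' (p.σ.symm φ)
  rwa [ev_apply, ev_apply, AlgEquiv.apply_symm_apply] at h

/-- The values of the elements of the maximal ideal are in the maximal ideal. -/
theorem ev_mem (s : Sec p e) {h : SL n K} (hh : h ∈ IsLocalRing.maximalIdeal (SL n K)) :
    s.ev h ∈ IsLocalRing.maximalIdeal (R1 n K) := by
  by_contra hcon
  rw [IsLocalRing.mem_maximalIdeal, mem_nonunits_iff, not_not] at hcon
  obtain ⟨q, hq⟩ := s.ε_dvd (p.σ h)
  have h1 : IsUnit (p.σ h) := by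
    rw [hq, PowerSeries.isUnit_iff_constantCoeff]
    have h2 : PowerSeries.constantCoeff (PowerSeries.C (s.ε (p.σ h)) +
        (PowerSeries.X - PowerSeries.C s.r) * q) = s.ε (p.σ h) - s.r * PowerSeries.constantCoeff q := by
      simp [sub_eq_add_neg]
    rw [h2]
    have h3 : s.r * PowerSeries.constantCoeff q ∈ IsLocalRing.maximalIdeal (R1 n K) :=
      Ideal.mul_mem_right _ _ s.r_mem
    by_contra h4
    have h5 : s.ε (p.σ h) - s.r * PowerSeries.constantCoeff q ∈
        IsLocalRing.maximalIdeal (R1 n K) := h4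
    have h6 := Ideal.add_mem _ h5 h3
    rw [sub_add_cancel] at h6
    exact h6 hcon
  have h7 : IsUnit h := by
    have := h1.map p.σ.symm
    rwa [AlgEquiv.symm_apply_apply] at this
  exact hh h7

theorem pull_mem (s : Sec p e) {h : MvPowerSeries (Fin (n + 1)) K}
    (hh : h ∈ IsLocalRing.maximalIdeal (MvPowerSeries (Fin (n + 1)) K)) :
    s.pull h ∈ IsLocalRing.maximalIdeal (R1 n K) := by
  refine ev_mem s ?_
  rw [mem_maximalIdeal_iff_constantCoeff] at hh ⊢
  show constantCoeff (MvPowerSeries.map (algebraMap K K) h) = 0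
  rw [← coeff_zero_eq_constantCoeff_apply, coeff_map, coeff_zero_eq_constantCoeff_apply,
    hh, map_zero]

end Sec

end Pool.Agent.Helper38.GP
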